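import Pool.Agent.EM.GDefs

set_option autoImplicit false

/-!
# EM/ASen (difficulty 3): the generic lattice is a lattice

Let `R = (GN Q c).rel`.  Use `GN.dense`, `GN.iff`, `(GN Q c).mono`, `(GN Q c).dense`.
* partial order: let `R α β p` (and so on).  `R α α p`, `R β β p`: by definition.
  Antisymmetry: take `r ≤ p` with `F, G`, and then `r' ≤ r` with `F', G'` for `R β α`: `F = G'`,
  `G = F'` by injectivity of `c`, so `F ≤ G ≤ F`.  Transitivity: below every `q ≤ p` take `r ≤ q` and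
  `r' ≤ r`.
* joins: let `R α α p`, `R β β p`.  The sentence `∃ γ, IsSup R α β γ` at `p`: for `q ≤ p` take `r ≤ q` with
  `F` (`c F = α`) and `r' ≤ r` with `G` (`c G = β`) in `Q r'`, and `s ≤ r'`, `H` from `hg.sup`.
  `IsSup R α β (c H)` at `s`: if `u ≤ s` and `R α δ u`, `R β δ u` then below every `v ≤ u` there is a
  `w ≤ v` with `Y ∈ Q w`, `c Y = δ`, and `F ≤ Y`, `G ≤ Y` (`GN.iff` at `w`), so `H ≤ Y`.
* meets: same with `hg.inf`.
-/

namespace Pool.Agent.EM

open Cardinal Set Filter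

variable {P X K : Type} [PartialOrder P] [PartialOrder X] [LinearOrder K]

theorem isLat {Q : P → Set X} {c : X → K} (hg : GenLat Q c) (p : P) :
    IsLat (GN Q c).rel p := by
  refine ⟨⟨?_, ?_, ?_⟩, ?_⟩
  · intro α β q hq h
    constructor
    · intro r hr
      obtain ⟨s, hs, F, hF, G, hG, h1, h2, h3⟩ := h r hr
      exact ⟨s, hs, F, hF, F, hF, h1, h1, le_rfl⟩
    · intro r hr
      obtain ⟨s, hs, F, hF, G, hG, h1, h2, h3⟩ := h r hr
      exact ⟨s, hs, G, hG, G, hG, h2, h2, le_rfl⟩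
  · rintro α β q hq ⟨h1, h2⟩
    obtain ⟨r, hr, F, hF, G, hG, e1, e2, h3⟩ := h1 q le_rfl
    obtain ⟨s, hs, F', hF', G', hG', e1', e2', h3'⟩ := h2 r hr
    have e3 : F' = G := hg.inj (e1'.trans e2.symm)
    have e4 : G' = F := hg.inj (e2'.trans e1.symm)
    rw [e3, e4] at h3'
    change α = β
    rw [← e1, ← e2, le_antisymm h3 h3']
  · rintro α β γ q hq ⟨h1, h2⟩ r hr
    obtain ⟨s, hs, F, hF, G, hG, e1, e2, h3⟩ := h1 r hr
    obtain ⟨s', hs', F', hF', G', hG', e1', e2', h3'⟩ := h2 s (hs.trans hr)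
    have e3 : F' = G := hg.inj (e1'.trans e2.symm)
    rw [e3] at h3'
    exact ⟨s', hs'.trans hs, F, hg.mono hs' hF, G', hG', e1, e2', h3.trans h3'⟩
  · rintro α β q hq ⟨h1, h2⟩
    constructor
    · intro r hr
      obtain ⟨s, hs, F, hF, -, -, e1, -, -⟩ := h1 r hr
      obtain ⟨s', hs', G, hG, -, -, e2, -, -⟩ := h2 s (hs.trans hr)
      obtain ⟨q', hq', H, hH, hFH, hGH, hsup⟩ := hg.sup s' F (hg.mono hs' hF) G hG
      have hF' : F ∈ Q q' := hg.mono (hq'.trans hs') hF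
      have hG' : G ∈ Q q' := hg.mono hq' hG
      refine ⟨q', hq'.trans (hs'.trans hs), c H, ?_, ?_, ?_⟩
      · rw [← e1]
        exact (GN.iff hg hF' hH).mpr hFH
      · rw [← e2]
        exact (GN.iff hg hG' hH).mpr hGH
      · rintro δ u hu ⟨h5, h6⟩ v hv
        obtain ⟨w, hw, F1, hF1, Y, hY, e3, e4, h7⟩ := h5 v hv
        have e5 : F1 = F := hg.inj (e3.trans e1.symm)
        rw [e5] at h7
        have hwq : w ≤ q' := hw.trans (hv.trans hu)
        have h8 : (GN Q c).rel (c G) (c Y) w := by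
          rw [e2, e4]
          exact (GN Q c).mono _ _ _ _ (hw.trans hv) h6
        have h9 : G ≤ Y := (GN.iff hg (hg.mono hwq hG') hY).mp h8
        exact ⟨w, hw, H, hg.mono hwq hH, Y, hY, rfl, e4, hsup w hwq Y hY h7 h9⟩
    · intro r hr
      obtain ⟨s, hs, F, hF, -, -, e1, -, -⟩ := h1 r hr
      obtain ⟨s', hs', G, hG, -, -, e2, -, -⟩ := h2 s (hs.trans hr)
      have hF' : F ∈ Q s' := hg.mono hs' hF
      obtain ⟨H, hH, hHF, hHG, hinf⟩ := hg.inf s' F hF' G hG
      refine ⟨s', hs'.trans hs, c H, ?_, ?_, ?_⟩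
      · rw [← e1]
        exact (GN.iff hg hH hF').mpr hHF
      · rw [← e2]
        exact (GN.iff hg hH hG).mpr hHG
      · rintro δ u hu ⟨h5, h6⟩ v hv
        obtain ⟨w, hw, Y, hY, F1, hF1, e4, e3, h7⟩ := h5 v hv
        have e5 : F1 = F := hg.inj (e3.trans e1.symm)
        rw [e5] at h7
        have hwq : w ≤ s' := hw.trans (hv.trans hu)
        have h8 : (GN Q c).rel (c Y) (c G) w := by
          rw [e2, e4]
          exact (GN Q c).mono _ _ _ _ (hw.trans hv) h6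
        have h9 : Y ≤ G := (GN.iff hg hY (hg.mono hwq hG)).mp h8
        exact ⟨w, hw, Y, hY, H, hg.mono hwq hH, e4, rfl, hinf w hwq Y hY h7 h9⟩

end Pool.Agent.EM
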