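import Pool.Agent.EM.GDefs

set_option autoImplicit false

/-!
# EM/ASenB (difficulty 3): further sentences for the generic lattice

Let `R = (GN Q c).rel`.  Use `GN.dense`, `GN.iff`, `(GN Q c).mono`, `(GN Q c).dense`.
* `isJ3`: suppose `q ≤ p` forces that `x` is injective, `x i ≠ t`, and `IsSup R (x i) (x j) t` for
  `i ≠ j`.  Find `r ≤ q` with `F i ∈ Q r`, `c (F i) = x i`, `T ∈ Q r`, `c T = t` (`R (x i) t` gives them
  for `i = 0, 1, 2` successively).  Apply `hg.j3` at `r`: if `u ≤ r`, `Y ∈ Q u`, `F i ≤ Y`, `F j ≤ Y`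
  then `R (x i) (c Y) u`, `R (x j) (c Y) u`, so `R t (c Y) u`, so `T ≤ Y`.
* `ctblId`: let `R β β p`, `q ≤ p`.  Take `r ≤ q` with `G ∈ Q r`, `c G = β`.  `Q r` is countable: let
  `g : X → ℕ` be injective on `Q r`.  The name `F α n := (∃ F ∈ Q r, c F = α ∧ F ≤ G ∧ g F = n)` (a
  ground model relation, the same for all conditions).  If `u ≤ r` and `R α β u` then some `v ≤ u` has
  `F ∈ Q v`, `c F = α`, `F ≤ G`; by `hg.down` `F ∈ Q r`.
* `unbounded`: clear from `hg.size`.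
-/

namespace Pool.Agent.EM

open Cardinal Set Filter

variable {P X K : Type} [PartialOrder P] [PartialOrder X] [LinearOrder K]

theorem isJ3 {Q : P → Set X} {c : X → K} (hg : GenLat Q c) (p : P) :
    IsJ3Free (GN Q c).rel p := by
  rintro x t q hq ⟨⟨hinj, hne⟩, h⟩
  have hS : ∀ i j : Fin 3, i ≠ j → IsSup (GN Q c).rel (x i) (x j) t q :=
    fun i j hij => h i j q le_rfl hij
  have h0 : (GN Q c).rel (x 0) t q := (hS 0 1 (by decide)).1
  have h1 : (GN Q c).rel (x 1) t q := (hS 0 1 (by decide)).2.1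
  have h2 : (GN Q c).rel (x 2) t q := (hS 0 2 (by decide)).2.1
  obtain ⟨r0, hr0, F0, hF0, T, hT, e0, eT, k0⟩ := h0 q le_rfl
  obtain ⟨r1, hr1, F1, hF1, T1, hT1, e1, eT1, k1⟩ := h1 r0 hr0
  obtain ⟨r2, hr2, F2, hF2, T2, hT2, e2, eT2, k2⟩ := h2 r1 (hr1.trans hr0)
  have a1 : T1 = T := hg.inj (eT1.trans eT.symm)
  have a2 : T2 = T := hg.inj (eT2.trans eT.symm)
  rw [a1] at k1
  rw [a2] at k2 hT2
  have hrq : r2 ≤ q := hr2.trans (hr1.trans hr0)
  let F : Fin 3 → X := ![F0, F1, F2]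
  have hFc : ∀ i, c (F i) = x i := by
    intro i
    fin_cases i
    · exact e0
    · exact e1
    · exact e2
  have hFm : ∀ i, F i ∈ Q r2 := by
    intro i
    fin_cases i
    · exact hg.mono (hr2.trans hr1) hF0
    · exact hg.mono hr2 hF1
    · exact hF2
  have hFT : ∀ i, F i ≤ T := by
    intro i
    fin_cases i
    · exact k0
    · exact k1
    · exact k2
  have hFi : Function.Injective F := by
    intro i j hij
    apply hinj
    rw [← hFc i, ← hFc j, hij]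
  have hFn : ∀ i, F i ≠ T := by
    intro i hi
    apply hne i
    rw [← hFc i, hi, eT]
  refine hg.j3 r2 F T hT2 hFm hFi hFn hFT ?_
  intro i j hij u hu Y hY hi hj
  have hS' := (hS i j hij).2.2 (c Y) u (hu.trans hrq) ⟨?_, ?_⟩
  · rw [← eT] at hS'
    exact (GN.iff hg (hg.mono hu hT2) hY).mp hS'
  · rw [← hFc i]
    exact (GN.iff hg (hg.mono hu (hFm i)) hY).mpr hi
  · rw [← hFc j]
    exact (GN.iff hg (hg.mono hu (hFm j)) hY).mpr hj

theorem ctblId {Q : P → Set X} {c : X → K} (hg : GenLat Q c) (p : P) :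
    CtblIdeals (GN Q c).rel p := by
  intro β q hq h r hr
  obtain ⟨s, hs, G, hG, -, -, eG, -, -⟩ := h r hr
  obtain ⟨g, hgi⟩ := Set.countable_iff_exists_injOn.mp (hg.ctbl s)
  refine ⟨s, hs, ⟨fun α n _ => ∃ F ∈ Q s, c F = α ∧ F ≤ G ∧ g F = n, ?_, ?_⟩, ?_, ?_⟩
  · intro x y p q _ h
    exact h
  · intro x y p h
    obtain ⟨r, _, h1⟩ := h p le_rfl
    exact h1
  · intro α u hu h1 v hv
    obtain ⟨w, hw, F, hF, G1, hG1, e1, e2, h3⟩ := h1 v hv
    have e3 : G1 = G := hg.inj (e2.trans eG.symm)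
    rw [e3] at h3
    exact ⟨w, hw, g F, F, hg.down (hw.trans (hv.trans hu)) F hF G hG h3, e1, h3, rfl⟩
  · rintro α α' n u hu ⟨⟨F, hF, e1, -, e2⟩, ⟨F', hF', e1', -, e2'⟩⟩
    change α = α'
    rw [← e1, ← e1', hgi hF hF' (e2.trans e2'.symm)]

theorem unbounded {Q : P → Set X} {c : X → K} (hg : GenLat Q c) (p : P) (γ : K) :
    ∃ r ≤ p, ∃ a, γ ≤ a ∧ (GN Q c).rel a a r := by
  obtain ⟨q, hq, F, hF, h⟩ := hg.size p γ
  exact ⟨q, hq, c F, h, (GN.iff hg hF hF).mpr le_rfl⟩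

end Pool.Agent.EM
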