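import Pool.Agent.EM.Base

set_option autoImplicit false

/-!
# EM/BUnf (difficulty 3): from the sentence `B` to `Lad3`
-/

namespace Pool.Agent.EM

open Cardinal Set Filter

variable {K : Type} [LinearOrder K] {P : Type} [PartialOrder P]

theorem lad3_of_senB (hc : ∀ (β : K) (p : P), LeCard (fun α : K => Sen.pure (α ≤ β)) W1 p)
    {p : P} (hB : SenB K p) : ∃ q ≤ p, ∃ R : K → K → P → Prop, Lad3 R q := by
  obtain ⟨q, hq, R, hlat, hbig, hfin, hcov⟩ := hB p le_rfl
  obtain ⟨⟨hfld, hanti, htrans⟩, hsup⟩ := hlat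
  refine ⟨q, hq, R.rel, ?_⟩
  refine
    { mono := R.mono
      dense := R.dense
      fld := fun r hr a b h => hfld a b r hr h
      anti := fun r hr a b h1 h2 => hanti a b r hr ⟨h1, h2⟩
      trans := fun r hr a b c h1 h2 => htrans a b c r hr ⟨h1, h2⟩
      join := ?_
      fin := ?_
      cov := ?_
      unb := ?_ }
  · intro r hr a b ha hb
    obtain ⟨s, hs, t, h1, h2, h3⟩ := (hsup a b r hr ⟨ha, hb⟩).1 r le_rfl
    exact ⟨s, hs, t, h1, h2, fun u v hv h4 h5 => h3 u v hv ⟨h4, h5⟩⟩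
  · intro r hr b hb
    obtain ⟨s, hs, F, hF⟩ := hfin b r hr hb r le_rfl
    exact ⟨s, hs, F, fun a u hu h => hF a u hu h⟩
  · intro r hr t b hb hn
    refine hcov t b r hr ⟨hb, fun i => ⟨(hn i).1, (hn i).2.1, ?_⟩⟩
    intro c s hs h
    exact (hn i).2.2 c s hs h.1 h.2
  · intro r hr γ
    by_contra hcon
    push Not at hcon
    refine hbig r hr ?_
    intro s hs
    obtain ⟨u, hu, F, h1, h2⟩ := hc γ s s le_rfl
    refine ⟨u, hu, F, ?_, h2⟩
    intro x v hv hx
    have hxγ : x ≤ γ := by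
      by_contra hlt
      exact hcon v (hv.trans (hu.trans hs)) x (le_of_lt (not_le.1 hlt)) hx
    exact h1 x v hv hxγ

end Pool.Agent.EM
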