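import Pool.Agent.EM.Defs

set_option autoImplicit false

/-!
# EM/Base: normal measures, nice posets, types (definitions and first facts)
-/

namespace Pool.Agent.EM

open Cardinal Set Filter

/-! ### Normal measures -/

section

variable {K : Type} [LinearOrder K]

/-- `U` is (like) a normal measure on `K`. -/
structure NM (U : Ultrafilter K) : Prop where
  /-- final segments have measure one -/
  ioi : ∀ x, ∀ᶠ δ in (U : Filter K), x < δ
  /-- countable completeness -/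
  cc : CountableInterFilter (U : Filter K)
  /-- regressive functions are constant almost everywhere -/
  reg : ∀ f : K → K, (∀ᶠ δ in (U : Filter K), f δ < δ) → ∃ z, ∀ᶠ δ in (U : Filter K), f δ = z
  /-- functions to `ω₁` are constant almost everywhere -/
  small : ∀ f : K → W1, ∃ ξ, ∀ᶠ δ in (U : Filter K), f δ = ξ

/-- `T` is a set of objects with supports (`supp x t`: `t` is supported below `x`), and functions
`f : K → T` with `f δ` supported below `δ` are constant almost everywhere. -/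
def PD (U : Ultrafilter K) {T : Type} (supp : K → T → Prop) : Prop :=
  ∀ f : K → T, (∀ᶠ δ in (U : Filter K), supp δ (f δ)) → ∃ t, ∀ᶠ δ in (U : Filter K), f δ = t

/-- A nice poset: conditions have supports and restrictions, a condition `q` supported below `x` and
stronger than the restriction of `p` to `x` can be amalgamated with `p`, decreasing sequences have
greatest lower bounds (which commute with restrictions), and `PD` holds. -/
structure Nice (U : Ultrafilter K) (P : Type) [PartialOrder P] where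
  /-- `supp x p`: `p` is supported below `x` -/
  supp : K → P → Prop
  /-- the restriction of `p` to `x` -/
  res : K → P → P
  supp_mono : ∀ {x y : K} {p : P}, x ≤ y → supp x p → supp y p
  supp_ex : ∀ p, ∃ x, supp x p
  supp_res : ∀ x p, supp x (res x p)
  le_res : ∀ x p, p ≤ res x p
  res_mono : ∀ x {p q : P}, p ≤ q → res x p ≤ res x q
  res_of_supp : ∀ {x : K} {p : P}, supp x p → res x p = p
  amal : ∀ x p q, supp x q → q ≤ res x p → ∃ r, r ≤ p ∧ r ≤ q ∧ (∀ s, s ≤ p → s ≤ q → s ≤ r) ∧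
    res x r = q ∧ ∀ y, x ≤ y → supp y p → supp y r
  seq : ∀ p : ℕ → P, Antitone p → ∃ r, (∀ n, r ≤ p n) ∧ (∀ s, (∀ n, s ≤ p n) → s ≤ r) ∧
    (∀ x, (∀ n, supp x (p n)) → supp x r) ∧ ∀ x s, (∀ n, s ≤ res x (p n)) → s ≤ res x r
  pd : PD U supp

end

/-! ### Names for 3-ladders -/

section

variable {K : Type} [LinearOrder K] {P : Type} [PartialOrder P]

/-- `q` forces `t = a ∨ b`. -/
def Jn (R : K → K → P → Prop) (q : P) (a b t : K) : Prop :=
  R a t q ∧ R b t q ∧ ∀ u, ∀ r ≤ q, R a u r → R b u r → R t u r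

/-- `R` is a name (`R a b p`: `p` forces `a ≤ b`), and `p₀` forces that it is a `3`-ladder whose
underlying set (the set of all `a` with `a ≤ a`) is unbounded in `K`. -/
structure Lad3 (R : K → K → P → Prop) (p₀ : P) : Prop where
  mono : ∀ a b p q, q ≤ p → R a b p → R a b q
  dense : ∀ a b p, (∀ q ≤ p, ∃ r ≤ q, R a b r) → R a b p
  fld : ∀ q ≤ p₀, ∀ a b, R a b q → R a a q ∧ R b b q
  anti : ∀ q ≤ p₀, ∀ a b, R a b q → R b a q → a = b
  trans : ∀ q ≤ p₀, ∀ a b c, R a b q → R b c q → R a c q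
  join : ∀ q ≤ p₀, ∀ a b, R a a q → R b b q → ∃ r ≤ q, ∃ t, Jn R r a b t
  fin : ∀ q ≤ p₀, ∀ b, R b b q → ∃ r ≤ q, ∃ s : Finset K, ∀ a, ∀ u ≤ r, R a b u → a ∈ s
  cov : ∀ q ≤ p₀, ∀ t, ∀ b : Fin 4 → K, Function.Injective b →
    ¬ ∀ i, R (b i) t q ∧ b i ≠ t ∧ ∀ c, ∀ r ≤ q, R (b i) c r → R c t r → c = b i ∨ c = t
  unb : ∀ q ≤ p₀, ∀ γ, ∃ r ≤ q, ∃ a, γ ≤ a ∧ R a a r

/-- `q` decides the name `R` on the countable set `M`, and `M` is closed: it contains the joins of
its elements and the elements below its elements (`q` decides these as well). -/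
structure Dcd (R : K → K → P → Prop) (q : P) (M : Set K) : Prop where
  ctbl : M.Countable
  dec : ∀ a ∈ M, ∀ b ∈ M, R a b q ∨ ∀ r ≤ q, ¬ R a b r
  join : ∀ a ∈ M, ∀ b ∈ M, R a a q → R b b q → ∃ t ∈ M, Jn R q a b t
  fin : ∀ b ∈ M, {a | ∃ r ≤ q, R a b r}.Finite
  sub : ∀ b ∈ M, ∀ a, ∀ r ≤ q, R a b r → a ∈ M

/-- `q` forces: `z` is the largest element `< δ` (in the order of `K`) which is `≤ d ∨ r` (in the
order of the ladder). -/
def Hv (R : K → K → P → Prop) (q : P) (δ d r z : K) : Prop :=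
  z < δ ∧ ∃ t, Jn R q d r t ∧ R z t q ∧ ∀ z' < δ, z < z' → ∀ q' ≤ q, ¬ R z' t q'

/-- `x` is closed under joins and downwards. -/
def CloPt (R : K → K → P → Prop) (p₀ : P) (x : K) : Prop :=
  (∀ q ≤ p₀, ∀ a < x, ∀ b < x, ∀ t, Jn R q a b t → t < x) ∧
    ∀ q ≤ p₀, ∀ b < x, ∀ a, R a b q → a < x

/-- Countable subsets of `Iio x` are bounded in `Iio x`. -/
def CofPt (x : K) : Prop :=
  ∀ C : Set K, C.Countable → (∀ c ∈ C, c < x) → ∃ γ < x, ∀ c ∈ C, c < γ

variable {R : K → K → P → Prop} {p₀ : P}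

theorem Lad3.mono' (h : Lad3 R p₀) {a b : K} {p q : P} (hq : q ≤ p) (hR : R a b p) : R a b q :=
  h.mono a b p q hq hR

theorem Jn.mono (h : Lad3 R p₀) {q r : P} (hr : r ≤ q) {a b t : K} (hJ : Jn R q a b t) :
    Jn R r a b t :=
  ⟨h.mono' hr hJ.1, h.mono' hr hJ.2.1, fun u s hs h1 h2 => hJ.2.2 u s (hs.trans hr) h1 h2⟩

/-- Joins are unique. -/
theorem Jn.unique (h : Lad3 R p₀) {q : P} (hq : q ≤ p₀) {a b t t' : K} (hJ : Jn R q a b t)
    (hJ' : Jn R q a b t') : t = t' :=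
  h.anti q hq t t' (hJ.2.2 t' q le_rfl hJ'.1 hJ'.2.1) (hJ'.2.2 t q le_rfl hJ.1 hJ.2.1)

theorem Jn.field (h : Lad3 R p₀) {q : P} (hq : q ≤ p₀) {a b t : K} (hJ : Jn R q a b t) :
    R t t q := (h.fld q hq a t hJ.1).2

theorem Dcd.mono (h : Lad3 R p₀) {q r : P} (hr : r ≤ q) {M : Set K} (hM : Dcd R q M) :
    Dcd R r M where
  ctbl := hM.ctbl
  dec a ha b hb := by
    rcases hM.dec a ha b hb with h1 | h1
    · exact Or.inl (h.mono' hr h1)
    · exact Or.inr fun s hs => h1 s (hs.trans hr)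
  join a ha b hb h1 h2 := by
    have h1' : R a a q := by
      rcases hM.dec a ha a ha with h3 | h3
      · exact h3
      · exact absurd h1 (h3 r hr)
    have h2' : R b b q := by
      rcases hM.dec b hb b hb with h3 | h3
      · exact h3
      · exact absurd h2 (h3 r hr)
    obtain ⟨t, ht, hJ⟩ := hM.join a ha b hb h1' h2'
    exact ⟨t, ht, hJ.mono h hr⟩
  fin b hb := (hM.fin b hb).subset fun a ⟨s, hs, h1⟩ => ⟨s, hs.trans hr, h1⟩
  sub b hb a s hs h1 := hM.sub b hb a s (hs.trans hr) h1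

theorem Hv.mono (h : Lad3 R p₀) {q r : P} (hr : r ≤ q) {δ d e z : K} (hH : Hv R q δ d e z) :
    Hv R r δ d e z := by
  obtain ⟨h1, t, h2, h3, h4⟩ := hH
  exact ⟨h1, t, h2.mono h hr, h.mono' hr h3, fun z' hz' hz q' hq' => h4 z' hz' hz q' (hq'.trans hr)⟩

end

/-! ### Types -/

section

variable {K : Type} [LinearOrder K] {U : Ultrafilter K} {P : Type} [PartialOrder P]

/-- A type: conditions `f δ` (for almost all `δ`) with constant restriction `root`, and elements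
`d δ ≥ δ` which `f δ` forces to belong to the underlying set of the ladder. -/
structure Ty (N : Nice U P) (R : K → K → P → Prop) where
  f : K → P
  d : K → K
  root : P
  hroot : ∀ᶠ δ in (U : Filter K), N.res δ (f δ) = root
  hd : ∀ᶠ δ in (U : Filter K), δ ≤ d δ ∧ R (d δ) (d δ) (f δ)

variable {N : Nice U P} {R : K → K → P → Prop}

/-- `π'` is stronger than `π` (with the same elements `d δ`). -/
instance : LE (Ty N R) :=
  ⟨fun π' π => ∀ᶠ δ in (U : Filter K), π'.f δ ≤ π.f δ ∧ π'.d δ = π.d δ⟩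

theorem Ty.le_def {π' π : Ty N R} :
    π' ≤ π ↔ ∀ᶠ δ in (U : Filter K), π'.f δ ≤ π.f δ ∧ π'.d δ = π.d δ := Iff.rfl

theorem Ty.le_refl (π : Ty N R) : π ≤ π := by
  rw [Ty.le_def]
  exact Filter.Eventually.of_forall fun δ => ⟨le_rfl, rfl⟩

theorem Ty.le_trans {π₁ π₂ π₃ : Ty N R} (h1 : π₁ ≤ π₂) (h2 : π₂ ≤ π₃) : π₁ ≤ π₃ := by
  rw [Ty.le_def] at *
  filter_upwards [h1, h2] with δ h3 h4
  exact ⟨h3.1.trans h4.1, h3.2.trans h4.2⟩

/-- `Val π r z`: the type `π` forces `h(r) = z`. -/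
def Val (π : Ty N R) (r z : K) : Prop :=
  ∀ᶠ δ in (U : Filter K), Hv R (π.f δ) δ (π.d δ) r z

/-- `r` is unbounded for `π`: below every extension of the root there are stronger types which force
arbitrarily large values of `h(r)`. -/
def UU (π : Ty N R) (r : K) : Prop :=
  ∀ p' ≤ π.root, ∀ γ, ∃ π' : Ty N R, π' ≤ π ∧ π'.root ≤ p' ∧ ∃ z, γ ≤ z ∧ Val π' r z

/-- No type stronger than `π` whose root is stronger than `s` forces a value of `h(r)` above
`γ`. -/
def Bd (π : Ty N R) (s : P) (r γ : K) : Prop :=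
  ∀ π' : Ty N R, π' ≤ π → π'.root ≤ s → ∀ z, γ ≤ z → ¬ Val π' r z

/-- The Decide Lemma holds below `x`. -/
def DecPt (N : Nice U P) (R : K → K → P → Prop) (p₀ : P) (x : K) : Prop :=
  ∀ s ≤ p₀, N.supp x s → ∀ C : Set K, C.Countable → (∀ c ∈ C, c < x) →
    ∃ s' ≤ s, N.supp x s' ∧ ∃ M : Set K, C ⊆ M ∧ (∀ c ∈ M, c < x) ∧ Dcd R s' M

/-- `Bd` reflects below `x`. -/
def BdPt (π : Ty N R) (x : K) : Prop :=
  ∀ s ≤ π.root, N.supp x s → ∀ r < x, (∃ s' ≤ s, ∃ γ, Bd π s' r γ) →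
    ∃ s' ≤ s, N.supp x s' ∧ ∃ γ < x, Bd π s' r γ

/-- `Cand` reflects below `x`. -/
def CandPt (N : Nice U P) (Cand : P → K → Prop) (p : P) (x : K) : Prop :=
  ∀ s ≤ p, N.supp x s → ∀ γ < x, ∃ s' ≤ s, N.supp x s' ∧ ∃ y, γ ≤ y ∧ y < x ∧ Cand s' y

/-- The bounds `Bd π s r γ` with parameters below `δ` apply to `π.f δ`. -/
def GoodPt (π : Ty N R) (δ : K) : Prop :=
  ∀ s ≤ π.root, N.supp δ s → ∀ r < δ, ∀ γ < δ, Bd π s r γ → R r r s →
    ∀ q ≤ π.f δ, q ≤ s → ∀ z, Hv R q δ (π.d δ) r z → z < γ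

end

end Pool.Agent.EM
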