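import Pool.Agent.EM.Base

set_option autoImplicit false

/-!
# EM/Breadth (difficulty 2, pure order theory)
-/

namespace Pool.Agent.EM

open Cardinal Set Filter

theorem Breadth_cover {L : Type} [SemilatticeSup L] (hfin : ∀ p : L, (Iic p).Finite) {b t : L}
    (h : b < t) : ∃ c, b ≤ c ∧ c ⋖ t := by
  have h1 : {c | b ≤ c ∧ c < t}.Finite := (hfin t).subset fun c hc => hc.2.le
  obtain ⟨c, hc⟩ := h1.exists_maximal ⟨b, le_rfl, h⟩
  refine ⟨c, hc.1.1, hc.1.2, fun d hcd hdt => ?_⟩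
  have h2 := hc.2 (y := d) ⟨hc.1.1.trans hcd.le, hdt⟩ hcd.le
  exact absurd hcd (not_lt_of_ge h2)

theorem breadth {L : Type} [SemilatticeSup L] (hfin : ∀ p : L, (Iic p).Finite)
    (hcov : ∀ t : L, ∀ b : Fin 4 → L, Function.Injective b → ¬ ∀ i, b i ⋖ t) (a : Fin 4 → L) :
    ∃ i, ∀ t, (∀ j, j ≠ i → a j ≤ t) → a i ≤ t := by
  by_contra hcon
  push Not at hcon
  choose u hu1 hu2 using hcon
  let T : L := Finset.univ.sup' Finset.univ_nonempty a
  have haT : ∀ i, a i ≤ T := fun i => Finset.le_sup' a (Finset.mem_univ i)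
  -- the join of the others
  have hne : ∀ i : Fin 4, (Finset.univ.erase i).Nonempty := by
    intro i
    obtain ⟨j, hj⟩ := exists_ne i
    exact ⟨j, Finset.mem_erase.2 ⟨hj, Finset.mem_univ _⟩⟩
  let b : Fin 4 → L := fun i => (Finset.univ.erase i).sup' (hne i) a
  have hab : ∀ i j, j ≠ i → a j ≤ b i := fun i j hj =>
    Finset.le_sup' a (Finset.mem_erase.2 ⟨hj, Finset.mem_univ _⟩)
  have hbu : ∀ i, b i ≤ u i := fun i => Finset.sup'_le _ _ fun j hj =>
    hu1 i j (Finset.mem_erase.1 hj).1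
  have hbT : ∀ i, b i < T := by
    intro i
    refine lt_of_le_of_ne (Finset.sup'_le _ _ fun j _ => haT j) fun h => ?_
    exact hu2 i ((haT i).trans (h ▸ hbu i))
  choose c hc1 hc2 using fun i => Breadth_cover hfin (hbT i)
  refine hcov T c ?_ hc2
  intro i j hij
  by_contra hne'
  have h1 : T ≤ c i := by
    refine Finset.sup'_le _ _ fun k _ => ?_
    rcases eq_or_ne k i with rfl | hk
    · rw [hij]
      exact (hab j k hne').trans (hc1 j)
    · exact (hab i k hk).trans (hc1 i)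
  exact absurd (hc2 i).1 (not_lt_of_ge h1)

end Pool.Agent.EM
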