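import Pool.Agent.EM.CDefs

set_option autoImplicit false

/-!
# EM/CAmal (difficulty 3): amalgamation in `Cond`

`r.Q = p.Q ∪ q.Q`.
* cuts: clear.
* comparability: `F ∈ p.Q`, `G ∈ q.Q` with the same downward closure: `G ⊆ Iio x`, so `F ⊆ Iio x`, so
  `F ∈ (res x p).Q ⊆ q.Q`.
* `wf`: let `f` be strictly descending in `p.Q ∪ q.Q`.  If some `f m ∈ q.Q` then `f m ⊆ Iio x`, so all
  `f n`, `n ≥ m`, are in `q.Q` (if `f n ∈ p.Q` then `f n ∈ (res x p).Q ⊆ q.Q`), contradiction to
  `q.wf`.  Otherwise all `f n ∈ p.Q`.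
* `r ≤ p`: let `F ∈ q.Q`, `F ⊆ G ∈ p.Q`.  Then `F ⊆ G ∩ Iio x ∈ (res x p).Q`, which is downward
  closed in `q.Q`, so `F ∈ (res x p).Q ⊆ p.Q`.
* `r ≤ q`: let `F ∈ p.Q`, `F ⊆ G ∈ q.Q`.  Then `F ⊆ Iio x`, so `F ∈ (res x p).Q ⊆ q.Q`.
* greatest lower bound: if `s ≤ p, q` then `p.Q ∪ q.Q` is contained in `s.Q` and downward closed.
* `res x r = q`: members of `p.Q` which are `⊆ Iio x` are in `q.Q`.
* supports: clear.
-/

namespace Pool.Agent.EM

open Cardinal Set Filter

variable {K : Type} [LinearOrder K]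

theorem Cond.amal (x : K) (p q : Cond K) (hq : Cond.supp x q) (hle : q ≤ Cond.res x p) :
    ∃ r, r ≤ p ∧ r ≤ q ∧ (∀ s, s ≤ p → s ≤ q → s ≤ r) ∧ Cond.res x r = q ∧
      ∀ y, x ≤ y → Cond.supp y p → Cond.supp y r := by
  have hres : ∀ F, F ∈ p.Q → F ⊆ Iio x → F ∈ q.Q := fun F hF hFx => hle.1 ⟨hF, hFx⟩
  have hdown : ∀ F ∈ q.Q, ∀ G ∈ p.Q, F ⊆ G → F ∈ p.Q := by
    intro F hF G hG hFG
    have h1 : G ∩ Iio x ∈ (Cond.res x p).Q := ⟨p.cut G hG x, inter_subset_right⟩
    exact (hle.2 F hF (G ∩ Iio x) h1 (subset_inter hFG (hq F hF))).1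
  have hup : ∀ F ∈ p.Q, ∀ G ∈ q.Q, F ⊆ G → F ∈ q.Q := fun F hF G hG hFG =>
    hres F hF (hFG.trans (hq G hG))
  refine ⟨{ Q := p.Q ∪ q.Q
            ctbl := p.ctbl.union q.ctbl
            mem_ctbl := ?_
            empty := Or.inl p.empty
            cut := ?_
            comp := ?_
            wf := ?_ }, ?_, ?_, ?_, ?_, ?_⟩
  · rintro F (hF | hF)
    · exact p.mem_ctbl F hF
    · exact q.mem_ctbl F hF
  · rintro F (hF | hF) y
    · exact Or.inl (p.cut F hF y)
    · exact Or.inr (q.cut F hF y)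
  · rintro F (hF | hF) G (hG | hG) h
    · exact p.comp F hF G hG h
    · have hFx : F ⊆ Iio x := by
        intro a ha
        obtain ⟨b, hb, hab⟩ := h.1 a ha
        exact lt_of_le_of_lt hab (hq G hG hb)
      exact q.comp F (hres F hF hFx) G hG h
    · have hGx : G ⊆ Iio x := by
        intro a ha
        obtain ⟨b, hb, hab⟩ := h.2 a ha
        exact lt_of_le_of_lt hab (hq F hF hb)
      exact q.comp F hF G (hres G hG hGx) h
    · exact q.comp F hF G hG h
  · intro f hf hd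
    by_cases hm : ∃ m, f m ∈ q.Q
    · obtain ⟨m, hm⟩ := hm
      have hall : ∀ n, f (m + n) ∈ q.Q := by
        intro n
        induction n with
        | zero => exact hm
        | succ n ih =>
          rcases hf (m + (n + 1)) with h1 | h1
          · exact hup _ h1 _ ih (hd (m + n)).1
          · exact h1
      exact q.wf (fun n => f (m + n)) hall fun n => hd (m + n)
    · push Not at hm
      exact p.wf f (fun n => (hf n).resolve_right (hm n)) hd
  · refine ⟨subset_union_left, ?_⟩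
    rintro F (hF | hF) G hG hFG
    · exact hF
    · exact hdown F hF G hG hFG
  · refine ⟨subset_union_right, ?_⟩
    rintro F (hF | hF) G hG hFG
    · exact hup F hF G hG hFG
    · exact hF
  · intro s h1 h2
    refine ⟨union_subset h1.1 h2.1, ?_⟩
    rintro F hF G (hG | hG) hFG
    · exact Or.inl (h1.2 F hF G hG hFG)
    · exact Or.inr (h2.2 F hF G hG hFG)
  · apply Cond.ext'
    ext F
    constructor
    · rintro ⟨hF | hF, hFx⟩
      · exact hres F hF hFx
      · exact hF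
    · intro hF
      exact ⟨Or.inr hF, hq F hF⟩
  · rintro y hxy hy F (hF | hF)
    · exact hy F hF
    · exact (hq F hF).trans (Iio_subset_Iio hxy)

end Pool.Agent.EM
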