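import Pool.Agent.EM.CDefs

set_option autoImplicit false

/-!
# EM/CCap (difficulty 3): capping a condition

Let `X = ⋃₀ p.Q ∪ C`, `q.Q = p.Q ∪ {X} ∪ {X ∩ Iio x | x : K}`.
* countable: `X` is countable; `X ∩ Iio x` is `X` or `X ∩ Iio x'` where `x' ∈ X` is the least element
  of `X` which is `≥ x`.
* cuts: clear (`X ∩ Iio x ∩ Iio y = X ∩ Iio (min x y)`).
* (D) `p.Q` is downward closed in `q.Q`: if `X ∩ J ⊆ F ∈ p.Q` (`J = Iio x` or `J = univ`) then, because
  `F ⊆ X`, `X ∩ J = F ∩ J ∈ p.Q`.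
* comparability: if `F ∈ p.Q` and `G = X ∩ J` have the same downward closure then every element of `F` is
  `≤` an element of `G ⊆ J`, so in `J`; so `F ⊆ X ∩ J`.  Two sets `X ∩ J`, `X ∩ J'` are comparable.
* `wf`: let `f` be strictly descending.  If some `f m ∈ p.Q` then all later ones are in `p.Q` by (D):
  contradiction.  Otherwise `f n = X ∩ J n`; choose `x n ∈ f n`, `x n ∉ f (n+1)`; then `x (n+1) < x n`
  (`x (n+1) ∈ J (n+1)`, `x n ∉ J (n+1)`): contradiction to the wellfoundedness of `K`.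
-/

namespace Pool.Agent.EM

open Cardinal Set Filter

variable {K : Type} [LinearOrder K] [WellFoundedLT K]

/-- the initial segments `univ` and `Iio x` -/
private def CCap_J (K : Type) [LinearOrder K] : Set (Set K) := {J | J = Set.univ ∨ ∃ x, J = Iio x}

omit [WellFoundedLT K] in
private theorem CCap_lower {J : Set K} (hJ : J ∈ CCap_J K) {x y : K} (hx : x ∈ J) (hy : y ≤ x) :
    y ∈ J := by
  rcases hJ with rfl | ⟨z, rfl⟩
  · trivial
  · exact lt_of_le_of_lt hy hx

omit [WellFoundedLT K] in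
private theorem CCap_total {J J' : Set K} (hJ : J ∈ CCap_J K) (hJ' : J' ∈ CCap_J K) :
    J ⊆ J' ∨ J' ⊆ J := by
  rcases hJ with rfl | ⟨z, rfl⟩
  · exact Or.inr (subset_univ _)
  · rcases hJ' with rfl | ⟨z', rfl⟩
    · exact Or.inl (subset_univ _)
    · rcases le_total z z' with h | h
      · exact Or.inl (Iio_subset_Iio h)
      · exact Or.inr (Iio_subset_Iio h)

omit [WellFoundedLT K] in
private theorem CCap_inter {J : Set K} (hJ : J ∈ CCap_J K) (x : K) : J ∩ Iio x ∈ CCap_J K := by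
  rcases hJ with rfl | ⟨z, rfl⟩
  · exact Or.inr ⟨x, univ_inter _⟩
  · exact Or.inr ⟨min z x, Iio_inter_Iio⟩

omit [WellFoundedLT K] in
private theorem CCap_cut (p : Cond K) {F J : Set K} (hF : F ∈ p.Q) (hJ : J ∈ CCap_J K) :
    F ∩ J ∈ p.Q := by
  rcases hJ with rfl | ⟨z, rfl⟩
  · rw [inter_univ]; exact hF
  · exact p.cut F hF z

private theorem CCap_ctbl {X : Set K} (hX : X.Countable) :
    {G : Set K | ∃ J ∈ CCap_J K, G = X ∩ J}.Countable := by
  have h1 : (insert X ((fun x => X ∩ Iio x) '' X)).Countable := (hX.image _).insert X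
  refine h1.mono ?_
  rintro G ⟨J, hJ | ⟨x, rfl⟩, rfl⟩
  · left; rw [hJ, inter_univ]
  · by_cases h2 : ({y | y ∈ X ∧ x ≤ y} : Set K).Nonempty
    · right
      set m := (wellFounded_lt (α := K)).min _ h2 with hm
      have h3 : m ∈ X ∧ x ≤ m := (wellFounded_lt (α := K)).min_mem _ h2
      refine ⟨m, h3.1, ?_⟩
      ext y
      constructor
      · rintro ⟨h4, h5⟩
        refine ⟨h4, ?_⟩
        by_contra h6
        have h7 : x ≤ y := not_lt.1 h6
        exact (wellFounded_lt (α := K)).not_lt_min {y | y ∈ X ∧ x ≤ y} (show y ∈ {y | y ∈ X ∧ x ≤ y} from ⟨h4, h7⟩) h5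
      · rintro ⟨h4, h5⟩
        exact ⟨h4, lt_of_lt_of_le h5 h3.2⟩
    · left
      rw [not_nonempty_iff_eq_empty] at h2
      ext y
      constructor
      · exact fun h => h.1
      · intro h
        refine ⟨h, ?_⟩
        by_contra h3
        have : y ∈ ({y | y ∈ X ∧ x ≤ y} : Set K) := ⟨h, not_lt.1 h3⟩
        rw [h2] at this
        exact this

theorem Cond.cap (p : Cond K) {C : Set K} (hC : C.Countable) :
    ∃ q ≤ p, (⋃₀ p.Q ∪ C) ∈ q.Q := by
  classical
  set X : Set K := ⋃₀ p.Q ∪ C with hXd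
  have hX : X.Countable := (p.ctbl.sUnion p.mem_ctbl).union hC
  have hFX : ∀ F ∈ p.Q, F ⊆ X := fun F hF => (subset_sUnion_of_mem hF).trans subset_union_left
  -- (D)
  have hD : ∀ G ∈ p.Q ∪ {G : Set K | ∃ J ∈ CCap_J K, G = X ∩ J}, ∀ F ∈ p.Q, G ⊆ F → G ∈ p.Q := by
    rintro G (hG | ⟨J, hJ, rfl⟩) F hF hGF
    · exact hG
    · have : X ∩ J = F ∩ J :=
        Subset.antisymm (subset_inter hGF inter_subset_right)
          (inter_subset_inter_left _ (hFX F hF))
      rw [this]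
      exact CCap_cut p hF hJ
  have hcmp : ∀ F ∈ p.Q, ∀ J ∈ CCap_J K, SameCl F (X ∩ J) → F ⊆ X ∩ J := by
    intro F hF J hJ h x hx
    obtain ⟨y, hy, hxy⟩ := h.1 x hx
    exact ⟨hFX F hF hx, CCap_lower hJ hy.2 hxy⟩
  refine ⟨⟨p.Q ∪ {G : Set K | ∃ J ∈ CCap_J K, G = X ∩ J}, p.ctbl.union (CCap_ctbl hX), ?_,
    Or.inl p.empty, ?_, ?_, ?_⟩, ?_, ?_⟩
  · rintro F (hF | ⟨J, hJ, rfl⟩)
    · exact p.mem_ctbl F hF
    · exact hX.mono inter_subset_left
  · rintro F (hF | ⟨J, hJ, rfl⟩) x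
    · exact Or.inl (p.cut F hF x)
    · exact Or.inr ⟨J ∩ Iio x, CCap_inter hJ x, inter_assoc _ _ _⟩
  · rintro F (hF | ⟨J, hJ, rfl⟩) G (hG | ⟨J', hJ', rfl⟩) h
    · exact p.comp F hF G hG h
    · exact Or.inl (hcmp F hF J' hJ' h)
    · refine Or.inr (hcmp G hG J hJ ⟨?_, ?_⟩)
      · exact h.2
      · exact h.1
    · rcases CCap_total hJ hJ' with h1 | h1
      · exact Or.inl (inter_subset_inter_right _ h1)
      · exact Or.inr (inter_subset_inter_right _ h1)
  · intro f hf hlt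
    have hanti : ∀ m n, f (m + n) ⊆ f m := by
      intro m n
      induction n with
      | zero => exact Subset.rfl
      | succ n ih => exact (hlt (m + n)).1.trans ih
    by_cases hm : ∃ m, f m ∈ p.Q
    · obtain ⟨m, hm⟩ := hm
      refine p.wf (fun n => f (m + n)) (fun n => hD _ (hf _) _ hm (hanti m n)) ?_
      intro n
      exact hlt (m + n)
    · have hm : ∀ m, f m ∉ p.Q := fun m h => hm ⟨m, h⟩
      have hJ : ∀ n, ∃ J ∈ CCap_J K, f n = X ∩ J := fun n => (hf n).resolve_left (hm n)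
      choose J hJ1 hJ2 using hJ
      have hx : ∀ n, ∃ x, x ∈ f n ∧ x ∉ f (n + 1) := fun n => not_subset.1 (hlt n).2
      choose x hx1 hx2 using hx
      refine not_strictAnti_of_wellFoundedLT x (strictAnti_nat_of_succ_lt fun n => ?_)
      by_contra hc
      have hc : x n ≤ x (n + 1) := not_lt.1 hc
      apply hx2 n
      rw [hJ2 (n + 1)]
      have h1 := hx1 (n + 1)
      rw [hJ2 (n + 1)] at h1
      have h2 := hx1 n
      rw [hJ2 n] at h2
      exact ⟨h2.1, CCap_lower (hJ1 (n + 1)) h1.2 hc⟩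
  · rw [Cond.le_def]
    exact ⟨subset_union_left, fun F hF G hG hFG => hD F hF G hG hFG⟩
  · exact Or.inr ⟨Set.univ, Or.inl rfl, (inter_univ _).symm⟩

end Pool.Agent.EM
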