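import Pool.Agent.EM.PDL

set_option autoImplicit false

/-!
# EM/CDefs: the posets

`Cond K` adds a lattice of countable subsets of `K`; `Col K` collapses the elements of `K` to `ω₁`.
-/

namespace Pool.Agent.EM

open Cardinal Set Filter

section

variable {K : Type} [LinearOrder K]

/-- `F` and `G` have the same downward closure. -/
def SameCl (F G : Set K) : Prop := (∀ x ∈ F, ∃ y ∈ G, x ≤ y) ∧ ∀ y ∈ G, ∃ x ∈ F, y ≤ x

/-- The conditions: countable sets of countable subsets of `K`, closed under initial segments, such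
that members with the same downward closure are comparable, and there is no infinite strictly
descending sequence of members. -/
structure Cond (K : Type) [LinearOrder K] where
  Q : Set (Set K)
  ctbl : Q.Countable
  mem_ctbl : ∀ F ∈ Q, F.Countable
  empty : ∅ ∈ Q
  cut : ∀ F ∈ Q, ∀ x, F ∩ Iio x ∈ Q
  comp : ∀ F ∈ Q, ∀ G ∈ Q, SameCl F G → F ⊆ G ∨ G ⊆ F
  wf : ∀ f : ℕ → Set K, (∀ n, f n ∈ Q) → ¬ ∀ n, f (n + 1) ⊂ f n

theorem Cond.ext' {p q : Cond K} (h : p.Q = q.Q) : p = q := by
  cases p; cases q; simp only [Cond.mk.injEq] at h ⊢; exact h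

/-- `p ≤ q` iff `q ⊆ p`, and `q` is downward closed in `p`. -/
instance : PartialOrder (Cond K) where
  le p q := q.Q ⊆ p.Q ∧ ∀ F ∈ p.Q, ∀ G ∈ q.Q, F ⊆ G → F ∈ q.Q
  le_refl p := ⟨Subset.rfl, fun F hF _ _ _ => hF⟩
  le_trans p q r h1 h2 := ⟨h2.1.trans h1.1, fun F hF G hG hFG =>
    h2.2 F (h1.2 F hF G (h2.1 hG) hFG) G hG hFG⟩
  le_antisymm p q h1 h2 := Cond.ext' (h2.1.antisymm h1.1)

theorem Cond.le_def {p q : Cond K} :
    p ≤ q ↔ q.Q ⊆ p.Q ∧ ∀ F ∈ p.Q, ∀ G ∈ q.Q, F ⊆ G → F ∈ q.Q := Iff.rfl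

/-- All members are subsets of `Iio x`. -/
def Cond.supp (x : K) (p : Cond K) : Prop := ∀ F ∈ p.Q, F ⊆ Iio x

/-- The restriction to `x`. -/
def Cond.res (x : K) (p : Cond K) : Cond K where
  Q := {F | F ∈ p.Q ∧ F ⊆ Iio x}
  ctbl := p.ctbl.mono fun _ hF => hF.1
  mem_ctbl F hF := p.mem_ctbl F hF.1
  empty := ⟨p.empty, empty_subset _⟩
  cut F hF y := ⟨p.cut F hF.1 y, inter_subset_left.trans hF.2⟩
  comp F hF G hG h := p.comp F hF.1 G hG.1 h
  wf f hf := p.wf f fun n => (hf n).1

/-- The collapse: countable partial functions `s ⊆ (K × ω₁) × K` with `s (β, i) ≤ β`. -/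
structure Col (K : Type) [LinearOrder K] where
  s : Set (K × W1 × K)
  ctbl : s.Countable
  fn : ∀ β i γ γ', (β, i, γ) ∈ s → (β, i, γ') ∈ s → γ = γ'
  le : ∀ β i γ, (β, i, γ) ∈ s → γ ≤ β

theorem Col.ext' {p q : Col K} (h : p.s = q.s) : p = q := by
  cases p; cases q; simp only [Col.mk.injEq] at h ⊢; exact h

/-- The order is reverse inclusion. -/
instance : PartialOrder (Col K) where
  le p q := q.s ⊆ p.s
  le_refl p := Subset.rfl
  le_trans p q r h1 h2 := h2.trans h1
  le_antisymm p q h1 h2 := Col.ext' (h2.antisymm h1)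

theorem Col.le_def {p q : Col K} : p ≤ q ↔ q.s ⊆ p.s := Iff.rfl

/-- All elements have first coordinate `< x`. -/
def Col.supp (x : K) (p : Col K) : Prop := ∀ t ∈ p.s, t.1 < x

/-- The restriction to `x`. -/
def Col.res (x : K) (p : Col K) : Col K where
  s := {t | t ∈ p.s ∧ t.1 < x}
  ctbl := p.ctbl.mono fun _ ht => ht.1
  fn β i γ γ' h h' := p.fn β i γ γ' h.1 h'.1
  le β i γ h := p.le β i γ h.1

/-- The trivial conditions. -/
instance : Inhabited (Cond K) :=
  ⟨{ Q := {∅}
     ctbl := countable_singleton _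
     mem_ctbl := fun F hF => by rw [mem_singleton_iff.1 hF]; exact countable_empty
     empty := rfl
     cut := fun F hF x => by rw [mem_singleton_iff.1 hF, empty_inter]; rfl
     comp := fun F hF G hG _ => Or.inl (by rw [mem_singleton_iff.1 hF]; exact empty_subset _)
     wf := fun f hf h => by
       have h0 := h 0
       rw [mem_singleton_iff.1 (hf 0), mem_singleton_iff.1 (hf 1)] at h0
       exact h0.2 Subset.rfl }⟩

instance : Inhabited (Col K) :=
  ⟨{ s := ∅
     ctbl := countable_empty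
     fn := fun _ _ _ _ h => absurd h (notMem_empty _)
     le := fun _ _ _ h => absurd h (notMem_empty _) }⟩

/-- The poset. -/
abbrev PP (K : Type) [LinearOrder K] : Type := Cond K × Col K

end

end Pool.Agent.EM
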