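import Pool.Agent.EM.CCap

set_option autoImplicit false

/-!
# EM/CLat (difficulty 4): meets, joins and `J₃`-freeness in `Cond`

(0) For a set `F ⊆ K` the downward closure `J = {z | ∃ y ∈ F, z ≤ y}` is `univ` or `Iio x` for the least
`x ∉ J`; so `G ∩ J ∈ p.Q` for all `G ∈ p.Q`.

`inf_mem`: let `J` be the downward closure of `F ∩ G`.  `F ∩ J ⊇ F ∩ G` has downward closure `J`, as
well as `G ∩ J`.  So they are comparable (`p.comp`), say `F ∩ J ⊆ G ∩ J`; then `F ∩ J ⊆ F ∩ G ⊆ F ∩ J`.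

`sup_ex`: the downward closures of `F` and `G` are comparable; say that of `G` is contained in
that of `F`, call the latter `J`.  Let `q ≤ p` with `X = ⋃₀ p.Q ∪ ∅ ∈ q.Q` (`Cond.cap`).  `X ∩ J ∈ q.Q`
contains `F` and `G` and has the same downward closure as `F`.  By `q.wf` there is a `⊂`-minimal
`H` among the `H ∈ q.Q` with `F ⊆ H`, `G ⊆ H`, `SameCl H F`.  Let `r ≤ q`, `Y ∈ r.Q`, `F ⊆ Y`, `G ⊆ Y`.
Then `Y ∩ J ∈ r.Q` contains `F`, `G` and has the same downward closure as `F`, so it is comparable with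
`H` (`r.comp`).  If `Y ∩ J ⊆ H` then `Y ∩ J ∈ q.Q` (`r ≤ q`), so `Y ∩ J = H` by minimality.  So always
`H ⊆ Y`.

`noJ3`: for each pair `i ≠ j` one of `x i`, `x j` has the same downward closure as `t` (`hcl`), so
at least two of the three, say `x i` and `x j`, have.  They are comparable, say `x i ⊆ x j`; then
`t ⊆ x j` by `hsup`, so `x j = t`: contradiction.
-/

namespace Pool.Agent.EM

open Cardinal Set Filter

variable {K : Type} [LinearOrder K] [WellFoundedLT K]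

/-- downward closure -/
private def CLat_dcl (F : Set K) : Set K := {z | ∃ y ∈ F, z ≤ y}

private theorem CLat_cutJ (p : Cond K) {G : Set K} (hG : G ∈ p.Q) (J : Set K)
    (hJ : ∀ x y, y ∈ J → x ≤ y → x ∈ J) : G ∩ J ∈ p.Q := by
  by_cases h : ∃ x, x ∉ J
  · have hwf : WellFounded ((· < ·) : K → K → Prop) := wellFounded_lt
    set x := hwf.min {x | x ∉ J} h with hx
    have hx1 : x ∉ J := hwf.min_mem {x | x ∉ J} h
    have hx2 : ∀ y, y ∉ J → ¬ y < x := fun y hy => hwf.not_lt_min {x | x ∉ J} hy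
    have hJx : J = Iio x := by
      ext z
      constructor
      · intro hz
        by_contra hzx
        exact hx1 (hJ x z hz (not_lt.1 hzx))
      · intro hz
        by_contra hzJ
        exact hx2 z hzJ hz
    rw [hJx]
    exact p.cut G hG x
  · push Not at h
    have : G ∩ J = G := by
      ext z
      exact ⟨fun hz => hz.1, fun hz => ⟨hz, h z⟩⟩
    rw [this]
    exact hG

private theorem CLat_dcl_lower (F : Set K) : ∀ x y, y ∈ CLat_dcl F → x ≤ y → x ∈ CLat_dcl F := by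
  rintro x y ⟨w, hw, hyw⟩ hxy
  exact ⟨w, hw, hxy.trans hyw⟩

private theorem CLat_sub_dcl (F : Set K) : F ⊆ CLat_dcl F := fun x hx => ⟨x, hx, le_rfl⟩

omit [WellFoundedLT K] in
private theorem CLat_same_symm {F G : Set K} (h : SameCl F G) : SameCl G F := ⟨h.2, h.1⟩

omit [WellFoundedLT K] in
private theorem CLat_same_trans {F G H : Set K} (h : SameCl F G) (h' : SameCl G H) :
    SameCl F H := by
  constructor
  · intro x hx
    obtain ⟨y, hy, hxy⟩ := h.1 x hx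
    obtain ⟨z, hz, hyz⟩ := h'.1 y hy
    exact ⟨z, hz, hxy.trans hyz⟩
  · intro z hz
    obtain ⟨y, hy, hzy⟩ := h'.2 z hz
    obtain ⟨x, hx, hyx⟩ := h.2 y hy
    exact ⟨x, hx, hzy.trans hyx⟩

theorem Cond.inf_mem (p : Cond K) {F G : Set K} (hF : F ∈ p.Q) (hG : G ∈ p.Q) : F ∩ G ∈ p.Q := by
  have hJ := CLat_dcl_lower (F ∩ G)
  have h1 := CLat_cutJ p hF _ hJ
  have h2 := CLat_cutJ p hG _ hJ
  have hs : SameCl (F ∩ CLat_dcl (F ∩ G)) (G ∩ CLat_dcl (F ∩ G)) := by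
    constructor
    · rintro x ⟨_, y, hy, hxy⟩
      exact ⟨y, ⟨hy.2, CLat_sub_dcl _ hy⟩, hxy⟩
    · rintro x ⟨_, y, hy, hxy⟩
      exact ⟨y, ⟨hy.1, CLat_sub_dcl _ hy⟩, hxy⟩
  rcases p.comp _ h1 _ h2 hs with h | h
  · have : F ∩ G = F ∩ CLat_dcl (F ∩ G) := by
      apply Subset.antisymm
      · exact fun x hx => ⟨hx.1, CLat_sub_dcl _ hx⟩
      · exact fun x hx => ⟨hx.1, (h hx).1⟩
    rw [this]; exact h1
  · have : F ∩ G = G ∩ CLat_dcl (F ∩ G) := by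
      apply Subset.antisymm
      · exact fun x hx => ⟨hx.2, CLat_sub_dcl _ hx⟩
      · exact fun x hx => ⟨(h hx).1, hx.1⟩
    rw [this]; exact h2

private theorem CLat_sup (p : Cond K) {F G : Set K} (hF : F ∈ p.Q) (hG : G ∈ p.Q)
    (hGF : CLat_dcl G ⊆ CLat_dcl F) :
    ∃ q ≤ p, ∃ H ∈ q.Q, F ⊆ H ∧ G ⊆ H ∧ SameCl H F ∧
      ∀ r ≤ q, ∀ Y ∈ r.Q, F ⊆ Y → G ⊆ Y → H ⊆ Y := by
  obtain ⟨q, hqp, hX⟩ := p.cap (C := ∅) countable_empty
  have hJ := CLat_dcl_lower F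
  have hsame : ∀ Y : Set K, F ⊆ Y → SameCl (Y ∩ CLat_dcl F) F := by
    intro Y hY
    constructor
    · rintro x ⟨_, y, hy, hxy⟩
      exact ⟨y, hy, hxy⟩
    · intro y hy
      exact ⟨y, ⟨hY hy, CLat_sub_dcl _ hy⟩, le_rfl⟩
  have hsub : ∀ Y : Set K, F ⊆ Y → G ⊆ Y → F ⊆ Y ∩ CLat_dcl F ∧ G ⊆ Y ∩ CLat_dcl F := by
    intro Y h1 h2
    exact ⟨fun x hx => ⟨h1 hx, CLat_sub_dcl _ hx⟩, fun x hx => ⟨h2 hx, hGF (CLat_sub_dcl _ hx)⟩⟩
  let S : Set (Set K) := {H | H ∈ q.Q ∧ F ⊆ H ∧ G ⊆ H ∧ SameCl H F}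
  have hFX : F ⊆ ⋃₀ p.Q ∪ ∅ := fun x hx => Or.inl ⟨F, hF, hx⟩
  have hGX : G ⊆ ⋃₀ p.Q ∪ ∅ := fun x hx => Or.inl ⟨G, hG, hx⟩
  have hS0 : (⋃₀ p.Q ∪ ∅) ∩ CLat_dcl F ∈ S :=
    ⟨CLat_cutJ q hX _ hJ, (hsub _ hFX hGX).1, (hsub _ hFX hGX).2, hsame _ hFX⟩
  obtain ⟨H, hH, hmin⟩ : ∃ H ∈ S, ∀ H' ∈ S, ¬ H' ⊂ H := by
    by_contra hcon
    push Not at hcon
    choose! g hg1 hg2 using hcon
    let f : ℕ → Set K := fun n => g^[n] ((⋃₀ p.Q ∪ ∅) ∩ CLat_dcl F)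
    have hf : ∀ n, f n ∈ S := by
      intro n
      induction n with
      | zero => exact hS0
      | succ n ih =>
        have : f (n + 1) = g (f n) := Function.iterate_succ_apply' g n _
        rw [this]
        exact hg1 _ ih
    refine q.wf f (fun n => (hf n).1) (fun n => ?_)
    have : f (n + 1) = g (f n) := Function.iterate_succ_apply' g n _
    rw [this]
    exact hg2 _ (hf n)
  refine ⟨q, hqp, H, hH.1, hH.2.1, hH.2.2.1, hH.2.2.2, ?_⟩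
  intro r hr Y hY hFY hGY
  have hYJ := CLat_cutJ r hY _ hJ
  have hs : SameCl (Y ∩ CLat_dcl F) H := CLat_same_trans (hsame Y hFY) (CLat_same_symm hH.2.2.2)
  rcases r.comp _ hYJ _ (hr.1 hH.1) hs with h | h
  · have h1 : Y ∩ CLat_dcl F ∈ q.Q := hr.2 _ hYJ _ hH.1 h
    have h2 : Y ∩ CLat_dcl F ∈ S := ⟨h1, (hsub _ hFY hGY).1, (hsub _ hFY hGY).2, hsame Y hFY⟩
    have h3 := hmin _ h2
    have h4 : H ⊆ Y ∩ CLat_dcl F := by
      by_contra hc
      exact h3 ⟨h, hc⟩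
    exact h4.trans inter_subset_left
  · exact h.trans inter_subset_left

theorem Cond.sup_ex (p : Cond K) {F G : Set K} (hF : F ∈ p.Q) (hG : G ∈ p.Q) :
    ∃ q ≤ p, ∃ H ∈ q.Q, F ⊆ H ∧ G ⊆ H ∧ (SameCl H F ∨ SameCl H G) ∧
      ∀ r ≤ q, ∀ Y ∈ r.Q, F ⊆ Y → G ⊆ Y → H ⊆ Y := by
  by_cases h : CLat_dcl G ⊆ CLat_dcl F
  · obtain ⟨q, hq, H, hH, h1, h2, h3, h4⟩ := CLat_sup p hF hG h
    exact ⟨q, hq, H, hH, h1, h2, Or.inl h3, h4⟩
  · have h' : CLat_dcl F ⊆ CLat_dcl G := by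
      obtain ⟨x, hxG, hxF⟩ := not_subset.1 h
      intro y hy
      rcases le_total x y with hxy | hxy
      · exact absurd (CLat_dcl_lower F x y hy hxy) hxF
      · exact CLat_dcl_lower G y x hxG hxy
    obtain ⟨q, hq, H, hH, h1, h2, h3, h4⟩ := CLat_sup p hG hF h'
    exact ⟨q, hq, H, hH, h2, h1, Or.inr h3, fun r hr Y hY a b => h4 r hr Y hY b a⟩

theorem Cond.noJ3 (p : Cond K) {x : Fin 3 → Set K} {t : Set K} (hx : ∀ i, x i ∈ p.Q)
    (hi : ∀ i, x i ≠ t) (hle : ∀ i, x i ⊆ t)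
    (hsup : ∀ i j, i ≠ j → ∀ Y ∈ p.Q, x i ⊆ Y → x j ⊆ Y → t ⊆ Y)
    (hcl : ∀ i j, i ≠ j → SameCl t (x i) ∨ SameCl t (x j)) : False := by
  have key : ∀ i j, i ≠ j → SameCl t (x i) → SameCl t (x j) → False := by
    intro i j hij h1 h2
    rcases p.comp _ (hx i) _ (hx j) (CLat_same_trans (CLat_same_symm h1) h2) with h | h
    · exact hi j (Subset.antisymm (hle j) (hsup i j hij _ (hx j) h Subset.rfl))
    · exact hi i (Subset.antisymm (hle i) (hsup i j hij _ (hx i) Subset.rfl h))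
  rcases hcl 0 1 (by decide) with h0 | h1
  · rcases hcl 1 2 (by decide) with h1 | h2
    · exact key 0 1 (by decide) h0 h1
    · exact key 0 2 (by decide) h0 h2
  · rcases hcl 0 2 (by decide) with h0 | h2
    · exact key 0 1 (by decide) h0 h1
    · exact key 1 2 (by decide) h1 h2

end Pool.Agent.EM
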