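import Pool.Agent.EM.CSeq
import Pool.Agent.EM.CAmal

set_option autoImplicit false

/-!
# EM/CNice (difficulty 3): `Cond` is nice

* `supp_ex`: `⋃₀ p.Q` is countable, use `bdd`.  `supp_res`, `le_res`, `res_mono`, `res_of_supp`: clear from
  the definitions.
* `pd`: let `f δ` be supported below `δ` a.e.  A member of `(f δ).Q` is a countable subset of
  `Iio δ`.  So `PD` for countable sets of countable sets (`pd_ctbl hU (pd_ctbl hU (pd_K hU))`) applies to
  `δ ↦ {F : {C : Set K // C.Countable} | F.1 ∈ (f δ).Q}`: it is constant a.e., so `(f δ).Q` is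
  constant a.e. (all members of `(f δ).Q` are countable), so `f δ` is constant a.e. (`Cond.ext'`; take as
  constant the value at some good `δ`).
-/

namespace Pool.Agent.EM

open Cardinal Set Filter

variable {K : Type} [LinearOrder K] {U : Ultrafilter K}

theorem Cond.pd (hU : NM U) : PD U (Cond.supp (K := K)) := by
  intro f hf
  set g : K → {D : Set {C : Set K // C.Countable} // D.Countable} := fun δ =>
    ⟨{F | F.1 ∈ (f δ).Q}, (f δ).ctbl.preimage Subtype.val_injective⟩ with hg
  obtain ⟨D, hD⟩ := pd_ctbl hU (pd_ctbl hU (pd_K hU)) g (by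
    filter_upwards [hf] with δ hδ
    intro c hc k hk
    exact hδ c.1 hc hk)
  obtain ⟨δ₀, hδ₀⟩ := hD.exists
  refine ⟨f δ₀, ?_⟩
  filter_upwards [hD] with δ hδ
  have h1 : g δ = g δ₀ := hδ.trans hδ₀.symm
  apply Cond.ext'
  ext F
  constructor
  · intro hF
    have h2 : (⟨F, (f δ).mem_ctbl F hF⟩ : {C : Set K // C.Countable}) ∈ (g δ).1 := hF
    rw [h1] at h2
    exact h2
  · intro hF
    have h2 : (⟨F, (f δ₀).mem_ctbl F hF⟩ : {C : Set K // C.Countable}) ∈ (g δ₀).1 := hF
    rw [← h1] at h2
    exact h2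

theorem niceCond (hU : NM U) :
    ∃ N : Nice U (Cond K), N.supp = Cond.supp ∧ N.res = Cond.res := by
  refine ⟨{ supp := Cond.supp
            res := Cond.res
            supp_mono := ?_
            supp_ex := ?_
            supp_res := ?_
            le_res := ?_
            res_mono := ?_
            res_of_supp := ?_
            amal := Cond.amal
            seq := Cond.seq
            pd := Cond.pd hU }, rfl, rfl⟩
  · intro x y p hxy hp F hF k hk
    exact lt_of_lt_of_le (hp F hF hk) hxy
  · intro p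
    obtain ⟨x, hx⟩ := bdd hU (p.ctbl.sUnion p.mem_ctbl)
    exact ⟨x, fun F hF k hk => hx k ⟨F, hF, hk⟩⟩
  · intro x p F hF
    exact hF.2
  · intro x p
    rw [Cond.le_def]
    exact ⟨fun F hF => hF.1, fun F hF G hG hFG => ⟨hF, hFG.trans hG.2⟩⟩
  · intro x p q h
    rw [Cond.le_def] at h ⊢
    exact ⟨fun F hF => ⟨h.1 hF.1, hF.2⟩, fun F hF G hG hFG => ⟨h.2 F hF.1 G hG.1 hFG, hF.2⟩⟩
  · intro x p hp
    apply Cond.ext'
    ext F
    exact ⟨fun h => h.1, fun h => ⟨h, hp F h⟩⟩

end Pool.Agent.EM
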