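import Pool.Agent.EM.CDefs

set_option autoImplicit false

/-!
# EM/CSeq (difficulty 3): decreasing sequences in `Cond`

`r.Q = ⋃ n, (p n).Q`.  Countable; closed under cuts; comparability: two members are both in some
`(p n).Q`.  `wf`: if `f 0 ∈ (p m).Q` then all `f n ⊆ f 0`, and `f n ∈ (p k).Q` for some `k ≥ m`, so
`f n ∈ (p m).Q` because `(p m).Q` is downward closed in `(p k).Q`; contradiction to `(p m).wf`.
`r ≤ p n`: if `F ∈ (p k).Q`, `k ≥ n`, `F ⊆ G ∈ (p n).Q` then `F ∈ (p n).Q`.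
Greatest lower bound: if `s ≤ p n` for all `n` then the union is `⊆ s.Q` and downward closed in it.
Last part: `s ≤ res x (p n)` for all `n`: `(res x r).Q = ⋃ (res x (p n)).Q`.
-/

namespace Pool.Agent.EM

open Cardinal Set Filter

variable {K : Type} [LinearOrder K]

private theorem CSeq_key {p : ℕ → Cond K} (hp : Antitone p) {k n : ℕ} {F G : Set K}
    (hF : F ∈ (p k).Q) (hG : G ∈ (p n).Q) (hFG : F ⊆ G) : F ∈ (p n).Q := by
  rcases le_total k n with h | h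
  · exact (Cond.le_def.1 (hp h)).1 hF
  · exact (Cond.le_def.1 (hp h)).2 F hF G hG hFG

/-- The union of a decreasing sequence. -/
private def CSeq_r (p : ℕ → Cond K) (hp : Antitone p) : Cond K where
  Q := ⋃ n, (p n).Q
  ctbl := countable_iUnion fun n => (p n).ctbl
  mem_ctbl F hF := by
    obtain ⟨n, hn⟩ := mem_iUnion.1 hF
    exact (p n).mem_ctbl F hn
  empty := mem_iUnion.2 ⟨0, (p 0).empty⟩
  cut F hF x := by
    obtain ⟨n, hn⟩ := mem_iUnion.1 hF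
    exact mem_iUnion.2 ⟨n, (p n).cut F hn x⟩
  comp F hF G hG h := by
    obtain ⟨n, hn⟩ := mem_iUnion.1 hF
    obtain ⟨m, hm⟩ := mem_iUnion.1 hG
    exact (p (max n m)).comp F ((Cond.le_def.1 (hp (le_max_left n m))).1 hn) G
      ((Cond.le_def.1 (hp (le_max_right n m))).1 hm) h
  wf f hf h := by
    obtain ⟨m, hm⟩ := mem_iUnion.1 (hf 0)
    have hsub : ∀ n, f n ⊆ f 0 := by
      intro n
      induction n with
      | zero => exact Subset.rfl
      | succ n ih => exact (h n).1.trans ih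
    refine (p m).wf f (fun n => ?_) h
    obtain ⟨k, hk⟩ := mem_iUnion.1 (hf n)
    exact CSeq_key hp hk hm (hsub n)

private theorem CSeq_mem {p : ℕ → Cond K} {hp : Antitone p} {F : Set K} :
    F ∈ (CSeq_r p hp).Q ↔ ∃ n, F ∈ (p n).Q := mem_iUnion

theorem Cond.seq (p : ℕ → Cond K) (hp : Antitone p) : ∃ r, (∀ n, r ≤ p n) ∧
    (∀ s, (∀ n, s ≤ p n) → s ≤ r) ∧ (∀ x, (∀ n, Cond.supp x (p n)) → Cond.supp x r) ∧
    ∀ x s, (∀ n, s ≤ Cond.res x (p n)) → s ≤ Cond.res x r := by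
  refine ⟨CSeq_r p hp, ?_, ?_, ?_, ?_⟩
  · intro n
    rw [Cond.le_def]
    refine ⟨fun F hF => CSeq_mem.2 ⟨n, hF⟩, fun F hF G hG hFG => ?_⟩
    obtain ⟨k, hk⟩ := CSeq_mem.1 hF
    exact CSeq_key hp hk hG hFG
  · intro s hs
    rw [Cond.le_def]
    refine ⟨fun F hF => ?_, fun F hF G hG hFG => ?_⟩
    · obtain ⟨k, hk⟩ := CSeq_mem.1 hF
      exact (Cond.le_def.1 (hs k)).1 hk
    · obtain ⟨k, hk⟩ := CSeq_mem.1 hG
      exact CSeq_mem.2 ⟨k, (Cond.le_def.1 (hs k)).2 F hF G hk hFG⟩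
  · intro x hx F hF
    obtain ⟨k, hk⟩ := CSeq_mem.1 hF
    exact hx k F hk
  · intro x s hs
    rw [Cond.le_def]
    refine ⟨fun F hF => ?_, fun F hF G hG hFG => ?_⟩
    · obtain ⟨k, hk⟩ := CSeq_mem.1 hF.1
      exact (Cond.le_def.1 (hs k)).1 ⟨hk, hF.2⟩
    · obtain ⟨k, hk⟩ := CSeq_mem.1 hG.1
      have h1 := (Cond.le_def.1 (hs k)).2 F hF G ⟨hk, hG.2⟩ hFG
      exact ⟨CSeq_mem.2 ⟨k, h1.1⟩, h1.2⟩

end Pool.Agent.EM
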