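import Pool.Agent.EM.Dens

set_option autoImplicit false

/-!
# EM/Decide (difficulty 4): the Decide Lemma

For `a b : K` call `q ≤ p₀` good for `(a, b)` (`Task`) if
(1) `R a b q ∨ ∀ r ≤ q, ¬ R a b r`,
(2) `(∃ t, Jn R q a b t) ∨ ∀ r ≤ q, ¬ (R a a r ∧ R b b r)`,
(3) there is a finite set `s` with `∀ a', ∀ u ≤ q, R a' b u → a' ∈ s` (if `R b b r` for some
`r ≤ q` extend `q` to such an `r` and use `h.fin`; otherwise `s = ∅`, by `h.fld`).
This is open and dense below `p₀`, so by `dense_ctbl` for every countable set `C` and `q ≤ p₀` there is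
`r ≤ q` which is good for all `a, b ∈ C`.  Given such an `r`, the set
`C' = C ∪ {t | ∃ a ∈ C, ∃ b ∈ C, Jn R r a b t} ∪ {a' | ∃ b ∈ C, ∃ u ≤ r, R a' b u}`
is countable (joins are unique, `Jn.unique`).  Iterate: `q 0 = p`, `C 0 = C`, `q (n+1) ≤ q n` good
for all `a, b ∈ C n`, `C (n+1) = (C n)'` (with `r = q (n+1)`).  Let `q ω` be a lower bound and
`M = ⋃ C n`; then `Dcd R (q ω) M`.  (`C n` is increasing.)
-/

namespace Pool.Agent.EM

open Cardinal Set Filter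

variable {K : Type} [LinearOrder K] {U : Ultrafilter K} {P : Type} [PartialOrder P]

private def Decide_Task (R : K → K → P → Prop) (q : P) (a b : K) : Prop :=
  (R a b q ∨ ∀ r ≤ q, ¬ R a b r) ∧
    ((∃ t, Jn R q a b t) ∨ ∀ r ≤ q, ¬ (R a a r ∧ R b b r)) ∧
      ∃ s : Finset K, ∀ a', ∀ u ≤ q, R a' b u → a' ∈ s

private theorem Decide_mono {R : K → K → P → Prop} {p₀ : P} (h : Lad3 R p₀) {q r : P} (hr : r ≤ q)
    {a b : K} (ht : Decide_Task R q a b) : Decide_Task R r a b := by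
  obtain ⟨h1, h2, s, hs⟩ := ht
  refine ⟨?_, ?_, s, fun a' u hu => hs a' u (hu.trans hr)⟩
  · rcases h1 with h1 | h1
    · exact Or.inl (h.mono' hr h1)
    · exact Or.inr fun u hu => h1 u (hu.trans hr)
  · rcases h2 with ⟨t, h2⟩ | h2
    · exact Or.inl ⟨t, h2.mono h hr⟩
    · exact Or.inr fun u hu => h2 u (hu.trans hr)

private theorem Decide_dense {R : K → K → P → Prop} {p₀ : P} (h : Lad3 R p₀) {q : P} (hq : q ≤ p₀)
    (a b : K) : ∃ r ≤ q, Decide_Task R r a b := by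
  obtain ⟨q1, hq1, h1⟩ : ∃ r ≤ q, (R a b r ∨ ∀ u ≤ r, ¬ R a b u) := by
    by_cases hex : ∃ r ≤ q, R a b r
    · obtain ⟨r, hr, hR⟩ := hex
      exact ⟨r, hr, Or.inl hR⟩
    · exact ⟨q, le_rfl, Or.inr fun u hu hR => hex ⟨u, hu, hR⟩⟩
  obtain ⟨q2, hq2, h2⟩ : ∃ r ≤ q1, ((∃ t, Jn R r a b t) ∨ ∀ u ≤ r, ¬ (R a a u ∧ R b b u)) := by
    by_cases hex : ∃ r ≤ q1, R a a r ∧ R b b r
    · obtain ⟨r, hr, hRa, hRb⟩ := hex
      obtain ⟨r', hr', t, ht⟩ := h.join r (hr.trans (hq1.trans hq)) a b hRa hRb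
      exact ⟨r', hr'.trans hr, Or.inl ⟨t, ht⟩⟩
    · exact ⟨q1, le_rfl, Or.inr fun u hu hR => hex ⟨u, hu, hR⟩⟩
  have hq2' : q2 ≤ p₀ := hq2.trans (hq1.trans hq)
  obtain ⟨q3, hq3, h3⟩ : ∃ r ≤ q2, ∃ s : Finset K, ∀ a', ∀ u ≤ r, R a' b u → a' ∈ s := by
    by_cases hex : ∃ r ≤ q2, R b b r
    · obtain ⟨r, hr, hRb⟩ := hex
      obtain ⟨r', hr', s, hs⟩ := h.fin r (hr.trans hq2') b hRb
      exact ⟨r', hr'.trans hr, s, hs⟩
    · refine ⟨q2, le_rfl, ∅, fun a' u hu hR => ?_⟩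
      exact absurd ⟨u, hu, (h.fld u (hu.trans hq2') a' b hR).2⟩ hex
  refine ⟨q3, hq3.trans (hq2.trans hq1), ?_, ?_, h3⟩
  · rcases h1 with h1 | h1
    · exact Or.inl (h.mono' (hq3.trans hq2) h1)
    · exact Or.inr fun u hu => h1 u (hu.trans (hq3.trans hq2))
  · rcases h2 with ⟨t, h2⟩ | h2
    · exact Or.inl ⟨t, h2.mono h hq3⟩
    · exact Or.inr fun u hu => h2 u (hu.trans hq3)

private def Decide_next (R : K → K → P → Prop) (r : P) (C : Set K) : Set K :=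
  (C ∪ ⋃ a ∈ C, ⋃ b ∈ C, {t | Jn R r a b t}) ∪ ⋃ b ∈ C, {a' | ∃ u ≤ r, R a' b u}

private theorem Decide_next_ctbl {R : K → K → P → Prop} {p₀ : P} (h : Lad3 R p₀) {r : P}
    (hr : r ≤ p₀) {C : Set K} (hC : C.Countable)
    (hT : ∀ a ∈ C, ∀ b ∈ C, Decide_Task R r a b) : (Decide_next R r C).Countable := by
  unfold Decide_next
  refine (hC.union ?_).union ?_
  · refine hC.biUnion fun a _ => hC.biUnion fun b _ => ?_
    apply Set.Subsingleton.countable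
    intro t ht t' ht'
    exact Jn.unique h hr ht ht'
  · refine hC.biUnion fun b hb => ?_
    obtain ⟨s, hs⟩ := (hT b hb b hb).2.2
    apply Set.Finite.countable
    apply s.finite_toSet.subset
    rintro a' ⟨u, hu, hR⟩
    exact hs a' u hu hR

theorem exists_dcd (N : Nice U P) {R : K → K → P → Prop} {p₀ : P} (h : Lad3 R p₀) {p : P}
    (hp : p ≤ p₀) {C : Set K} (hC : C.Countable) :
    ∃ q ≤ p, ∃ M : Set K, C ⊆ M ∧ Dcd R q M := by
  classical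
  have hstep : ∀ x : {x : P × Set K // x.1 ≤ p₀ ∧ x.2.Countable},
      ∃ y : {x : P × Set K // x.1 ≤ p₀ ∧ x.2.Countable}, y.1.1 ≤ x.1.1 ∧
        (∀ a ∈ x.1.2, ∀ b ∈ x.1.2, Decide_Task R y.1.1 a b) ∧
        y.1.2 = Decide_next R y.1.1 x.1.2 := by
    rintro ⟨⟨q, D⟩, hq, hD⟩
    have hcount : Countable {x // x ∈ D} := hD.to_subtype
    obtain ⟨r, hr, hT⟩ := dense_ctbl N (ι := {x // x ∈ D} × {x // x ∈ D})
      (fun ab q => Decide_Task R q ab.1.1 ab.2.1) q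
      (fun n q r hr hT => Decide_mono h hr hT)
      (fun n q' hq' => Decide_dense h (hq'.trans hq) n.1.1 n.2.1)
    have hT' : ∀ a ∈ D, ∀ b ∈ D, Decide_Task R r a b := fun a ha b hb => hT (⟨a, ha⟩, ⟨b, hb⟩)
    exact ⟨⟨(r, Decide_next R r D), hr.trans hq, Decide_next_ctbl h (hr.trans hq) hD hT'⟩, hr,
      hT', rfl⟩
  choose F hF1 hF2 hF3 using hstep
  set sq : ℕ → {x : P × Set K // x.1 ≤ p₀ ∧ x.2.Countable} :=
    fun n => F^[n] ⟨(p, C), hp, hC⟩ with hsq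
  have hsucc : ∀ n, sq (n + 1) = F (sq n) := by
    intro n
    rw [hsq]
    exact Function.iterate_succ_apply' F n _
  have hanti : Antitone (fun n => (sq n).1.1) := by
    apply antitone_nat_of_succ_le
    intro n
    rw [hsucc]
    exact hF1 (sq n)
  have hmonoC : Monotone (fun n => (sq n).1.2) := by
    apply monotone_nat_of_le_succ
    intro n
    rw [hsucc]
    show (sq n).1.2 ⊆ (F (sq n)).1.2
    rw [hF3]
    exact (Set.subset_union_left).trans Set.subset_union_left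
  obtain ⟨w, hw, -, -, -⟩ := N.seq (fun n => (sq n).1.1) hanti
  have hw0 : w ≤ p := hw 0
  have hT : ∀ n, ∀ a ∈ (sq n).1.2, ∀ b ∈ (sq n).1.2, Decide_Task R (sq (n + 1)).1.1 a b := by
    intro n a ha b hb
    rw [hsucc]
    exact hF2 (sq n) a ha b hb
  have hnext : ∀ n, (sq (n + 1)).1.2 = Decide_next R (sq (n + 1)).1.1 (sq n).1.2 := by
    intro n
    rw [hsucc]
    exact hF3 (sq n)
  refine ⟨w, hw0, ⋃ n, (sq n).1.2, ?_, ?_⟩
  · exact Set.subset_iUnion (fun n => (sq n).1.2) 0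
  have hboth : ∀ a ∈ ⋃ n, (sq n).1.2, ∀ b ∈ ⋃ n, (sq n).1.2,
      ∃ k, a ∈ (sq k).1.2 ∧ b ∈ (sq k).1.2 := by
    intro a ha b hb
    obtain ⟨n, hn⟩ := Set.mem_iUnion.mp ha
    obtain ⟨m, hm⟩ := Set.mem_iUnion.mp hb
    exact ⟨max n m, hmonoC (le_max_left n m) hn, hmonoC (le_max_right n m) hm⟩
  refine ⟨?_, ?_, ?_, ?_, ?_⟩
  · exact Set.countable_iUnion fun n => (sq n).2.2
  · intro a ha b hb
    obtain ⟨k, hak, hbk⟩ := hboth a ha b hb
    exact (Decide_mono h (hw (k + 1)) (hT k a hak b hbk)).1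
  · intro a ha b hb hRa hRb
    obtain ⟨k, hak, hbk⟩ := hboth a ha b hb
    rcases (hT k a hak b hbk).2.1 with ⟨t, ht⟩ | hno
    · refine ⟨t, Set.mem_iUnion.mpr ⟨k + 1, ?_⟩, ht.mono h (hw (k + 1))⟩
      rw [hnext]
      refine Or.inl (Or.inr ?_)
      simp only [Set.mem_iUnion, Set.mem_setOf_eq]
      exact ⟨a, hak, b, hbk, ht⟩
    · exact absurd ⟨hRa, hRb⟩ (hno w (hw (k + 1)))
  · intro b hb
    obtain ⟨k, hbk⟩ := Set.mem_iUnion.mp hb
    obtain ⟨s, hs⟩ := (hT k b hbk b hbk).2.2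
    apply s.finite_toSet.subset
    rintro a ⟨r, hr, hR⟩
    exact hs a r (hr.trans (hw (k + 1))) hR
  · intro b hb a r hr hR
    obtain ⟨k, hbk⟩ := Set.mem_iUnion.mp hb
    refine Set.mem_iUnion.mpr ⟨k + 1, ?_⟩
    rw [hnext]
    refine Or.inr ?_
    simp only [Set.mem_iUnion, Set.mem_setOf_eq]
    exact ⟨b, hbk, r, hr.trans (hw (k + 1)), hR⟩

end Pool.Agent.EM
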