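import Pool.Agent.EM.TyA

set_option autoImplicit false

/-!
# EM/TyA2 (difficulty 3): facts on types, second part

* `Ty.root_of`: let `s ≤ π.root`; by `meet_pt` there are `δ` with `φ (π.f δ)` and `r ≤ π.f δ`, `r ≤ s`.
  So `φ r`, by `hφ`.  Now use `hd`.
* `Ty.inf`: by countable completeness (`hU.cc`, `eventually_countable_forall`) for almost all `δ` the
  sequence `(π n).f δ` is antitone, with `(π n).d δ = (π 0).d δ` and `N.res δ ((π n).f δ) = (π n).root` for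
  all `n`.  Take `f δ` from `N.seq`, `root` from `N.pd` for `N.res δ (f δ)` (or `Ty.mk_of`).  The last part of
  `N.seq` gives the claim on the root.
* `Val.mono`: `Hv.mono`.
* `UU.meet`: `Ty.meet`; if `p' ≤ s` take `π''` from `UU π r` for `p'`; `π'' ≤ π` and `π''.root ≤ p' ≤ s`, so
  `π'' ≤ π'` by the last part of `Ty.meet`.
-/

namespace Pool.Agent.EM

open Cardinal Set Filter

variable {K : Type} [LinearOrder K] {U : Ultrafilter K} {P : Type} [PartialOrder P]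
  {N : Nice U P} {R : K → K → P → Prop}

/-- A statement forced by almost all `π.f δ` is forced by the root. -/
theorem Ty.root_of (hU : NM U) (π : Ty N R) {φ : P → Prop} (hφ : ∀ p q, q ≤ p → φ p → φ q)
    (hd : ∀ p, (∀ q ≤ p, ∃ r ≤ q, φ r) → φ p) (hπ : ∀ᶠ δ in (U : Filter K), φ (π.f δ)) :
    φ π.root := by
  apply hd
  intro q hq
  obtain ⟨δ, ⟨r, hr1, hr2, -, -⟩, hδ⟩ := ((meet_pt hU π hq).and hπ).exists
  exact ⟨r, hr2, hφ _ _ hr1 hδ⟩

theorem Ty.inf {p₀ : P} (h : Lad3 R p₀) (hU : NM U) (π : ℕ → Ty N R)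
    (hπ : ∀ n, π (n + 1) ≤ π n) :
    ∃ π' : Ty N R, (∀ n, π' ≤ π n) ∧ ∀ s, (∀ n, s ≤ (π n).root) → s ≤ π'.root := by
  classical
  have hcc := hU.cc
  have h1 : ∀ᶠ δ in (U : Filter K), ∀ n, ((π (n + 1)).f δ ≤ (π n).f δ ∧
      (π (n + 1)).d δ = (π n).d δ) ∧ N.res δ ((π n).f δ) = (π n).root := by
    rw [eventually_countable_forall]
    intro n
    exact (Ty.le_def.1 (hπ n)).and (π n).hroot
  have h2 : ∀ δ, (∀ n, ((π (n + 1)).f δ ≤ (π n).f δ ∧
      (π (n + 1)).d δ = (π n).d δ) ∧ N.res δ ((π n).f δ) = (π n).root) →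
      ∃ r, (∀ n, r ≤ (π n).f δ) ∧ (∀ n, (π n).d δ = (π 0).d δ) ∧
        ∀ s, (∀ n, s ≤ N.res δ ((π n).f δ)) → s ≤ N.res δ r := by
    intro δ hδ
    obtain ⟨r, hr1, -, -, hr2⟩ := N.seq (fun n => (π n).f δ)
      (antitone_nat_of_succ_le fun n => (hδ n).1.1)
    refine ⟨r, hr1, ?_, hr2 δ⟩
    intro n
    induction n with
    | zero => rfl
    | succ n ih => rw [(hδ n).1.2, ih]
  set g : K → P := fun δ => if hδ : (∀ n, ((π (n + 1)).f δ ≤ (π n).f δ ∧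
      (π (n + 1)).d δ = (π n).d δ) ∧ N.res δ ((π n).f δ) = (π n).root) then (h2 δ hδ).choose
      else (π 0).f δ with hg
  have hg' : ∀ᶠ δ in (U : Filter K), (∀ n, g δ ≤ (π n).f δ) ∧ (∀ n, (π n).d δ = (π 0).d δ) ∧
        ∀ s, (∀ n, s ≤ N.res δ ((π n).f δ)) → s ≤ N.res δ (g δ) := by
    filter_upwards [h1] with δ hδ
    have h3 : g δ = (h2 δ hδ).choose := by
      rw [hg]
      exact dif_pos hδ
    rw [h3]
    exact (h2 δ hδ).choose_spec
  obtain ⟨π', h3, h4, h5⟩ := Ty.mk_of h (π 0) g (by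
    filter_upwards [hg'] with δ hδ
    exact hδ.1 0)
  refine ⟨π', fun n => ?_, fun s hs => ?_⟩
  · rw [Ty.le_def] at h3 ⊢
    filter_upwards [h3, h4, hg'] with δ h6 h7 h8
    exact ⟨h7 ▸ h8.1 n, h6.2.trans (h8.2.1 n).symm⟩
  · obtain ⟨δ, ⟨h6, h7⟩, h8⟩ := ((h5.and hg').and h1).exists
    rw [h6]
    apply h7.2.2
    intro n
    rw [(h8 n).2]
    exact hs n

/-- Values persist. -/
theorem Val.mono {p₀ : P} (h : Lad3 R p₀) {π' π : Ty N R} (hle : π' ≤ π) {r z : K}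
    (hv : Val π r z) : Val π' r z := by
  unfold Val at hv ⊢
  rw [Ty.le_def] at hle
  filter_upwards [hv, hle] with δ h1 h2
  rw [h2.2]
  exact h1.mono h h2.1

/-- `r` is unbounded for the meet of `π` and `s`. -/
theorem UU.meet {p₀ : P} (h : Lad3 R p₀) (hU : NM U) {π : Ty N R} {r : K} (hr : UU π r) {s : P}
    (hs : s ≤ π.root) : ∃ π' : Ty N R, π' ≤ π ∧ π'.root = s ∧ UU π' r := by
  obtain ⟨π', h1, h2, h3⟩ := Ty.meet h hU π hs
  refine ⟨π', h1, h2, ?_⟩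
  intro p' hp' γ
  rw [h2] at hp'
  obtain ⟨π'', h4, h5, z, h6, h7⟩ := hr p' (hp'.trans hs) γ
  exact ⟨π'', h3 π'' h4 (h5.trans hp'), h5, z, h6, h7⟩

end Pool.Agent.EM
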