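import Pool.Agent.EM.PDL
import Pool.Agent.EM.Decide
import Pool.Agent.EM.TyA2

set_option autoImplicit false

/-!
# EM/ClD (difficulty 4): closure points

* `decPt`: `refl_pd` for `N.pd` times `pd_ctbl hU (pd_K hU)` (pairs `(s, C)`).  For a fixed pair with
  `s ≤ p₀` the Decide Lemma `exists_dcd` gives `s' ≤ s` and `M ⊇ C` with `Dcd R s' M`; `M` is countable,
  so by `bdd` and `ev_supp` almost all `x` are above all elements of `M` and `N.supp x s'`.
* `cloPt`, first part: suppose not: then for almost all `δ` there are `q δ ≤ p₀`, `a δ, b δ < δ` and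
  `t δ ≥ δ` with `Jn R (q δ) (a δ) (b δ) (t δ)`.  `a`, `b` are constant a.e. (`pd_K`), and
  `N.res δ (q δ)` is supported below `δ`, so it is constant `= r` a.e. (`N.pd`).  Is `r ≤ p₀`?
  For large `δ` we have `N.supp δ p₀`, so `r = N.res δ (q δ) ≤ N.res δ p₀ = p₀`.  By the Decide Lemma
  choose `r' ≤ r` and `M ∋ a, b` with `Dcd R r' M`.  Now let `δ` be good, with `N.supp δ r'` and `δ`
  above all elements of the countable set `M`.  By `N.amal δ (q δ) r'` there is `u ≤ q δ, r'`.  At `u`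
  we have `Jn R u a b (t δ)`, so `R a a u` and `R b b u`, so by `Dcd.mono`, `Dcd.join` there is `t' ∈ M`
  with `Jn R u a b t'`; uniqueness gives `t δ = t' < δ`, contradiction.
* second part: same: `R (a δ) (b δ) (q δ)`, `b δ < δ ≤ a δ`; `b` is constant; `M ∋ b`; `R (a δ) b u` and
  `Dcd.sub` give `a δ ∈ M`, so `a δ < δ`.
(It may be convenient to use `refl_pd` for pairs `(a, b)`, or directly as above.)
-/

namespace Pool.Agent.EM

open Cardinal Set Filter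

variable {K : Type} [LinearOrder K] {U : Ultrafilter K} {P : Type} [PartialOrder P]
  {R : K → K → P → Prop} {p₀ : P}

theorem decPt (N : Nice U P) (h : Lad3 R p₀) (hU : NM U) :
    ∀ᶠ x in (U : Filter K), DecPt N R p₀ x := by
  have key := refl_pd (U := U) (pd_prod N.pd (pd_ctbl hU (pd_K hU)))
    (φ := fun x (y : P × {C : Set K // C.Countable}) => y.1 ≤ p₀ →
      ∃ s' ≤ y.1, N.supp x s' ∧ ∃ M : Set K, y.2.1 ⊆ M ∧ (∀ c ∈ M, c < x) ∧ Dcd R s' M) (by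
    rintro ⟨s, C⟩
    by_cases hs : s ≤ p₀
    · obtain ⟨s', hs', M, hCM, hM⟩ := exists_dcd N h hs C.2
      obtain ⟨x₀, hx₀⟩ := bdd hU hM.ctbl
      filter_upwards [hU.ioi x₀, ev_supp (N := N) hU s'] with x hx hsx _
      exact ⟨s', hs', hsx, M, hCM, fun c hc => (hx₀ c hc).trans hx, hM⟩
    · exact Filter.Eventually.of_forall fun x hx => absurd hx hs)
  filter_upwards [key] with x hx s hs hsx C hC hCx
  exact hx (s, ⟨C, hC⟩) ⟨hsx, hCx⟩ hs

/-- Common part of the two statements. -/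
private theorem ClD_aux (N : Nice U P) (h : Lad3 R p₀) (hU : NM U) (q : K → P)
    (hq : ∀ᶠ δ in (U : Filter K), q δ ≤ p₀) {C : Set K} (hC : C.Countable) :
    ∃ M : Set K, C ⊆ M ∧ ∀ᶠ δ in (U : Filter K), (∀ c ∈ M, c < δ) ∧
      ∃ u ≤ q δ, u ≤ p₀ ∧ Dcd R u M := by
  obtain ⟨r, hr⟩ := N.pd (fun δ => N.res δ (q δ))
    (Filter.Eventually.of_forall fun δ => N.supp_res δ (q δ))
  have hrp : r ≤ p₀ := by
    obtain ⟨δ, h1, h2, h3⟩ := (hq.and (hr.and (ev_supp (N := N) hU p₀))).exists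
    rw [← h2, ← N.res_of_supp h3]
    exact N.res_mono δ h1
  obtain ⟨r', hr', M, hCM, hM⟩ := exists_dcd N h hrp hC
  obtain ⟨x₀, hx₀⟩ := bdd hU hM.ctbl
  refine ⟨M, hCM, ?_⟩
  filter_upwards [hq, hr, hU.ioi x₀, ev_supp (N := N) hU r'] with δ h1 h2 h3 h4
  refine ⟨fun c hc => (hx₀ c hc).trans h3, ?_⟩
  obtain ⟨u, hu1, hu2, _⟩ := N.amal δ (q δ) r' h4 (by rw [h2]; exact hr')
  exact ⟨u, hu1, hu1.trans h1, hM.mono h hu2⟩

theorem cloPt (N : Nice U P) (h : Lad3 R p₀) (hU : NM U) :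
    ∀ᶠ x in (U : Filter K), CloPt R p₀ x := by
  refine Filter.Eventually.and ?_ ?_
  · by_contra hcon
    rw [← Ultrafilter.eventually_not] at hcon
    have hex : ∀ δ, ∃ (q : P) (a b t : K),
        (¬ ∀ q ≤ p₀, ∀ a < δ, ∀ b < δ, ∀ t, Jn R q a b t → t < δ) →
        (q ≤ p₀ ∧ a < δ ∧ b < δ ∧ Jn R q a b t ∧ ¬ t < δ) := by
      intro δ
      by_cases hδ : ∀ q ≤ p₀, ∀ a < δ, ∀ b < δ, ∀ t, Jn R q a b t → t < δ
      · exact ⟨p₀, δ, δ, δ, fun h1 => absurd hδ h1⟩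
      · have hδ' := hδ
        push Not at hδ'
        obtain ⟨q, hq, a, ha, b, hb, t, ht, htδ⟩ := hδ'
        exact ⟨q, a, b, t, fun _ => ⟨hq, ha, hb, ht, not_lt.mpr htδ⟩⟩
    choose q a b t hqt using hex
    have hev := hcon.mono fun δ h1 => hqt δ h1
    obtain ⟨za, hza⟩ := hU.reg a (hev.mono fun δ h1 => h1.2.1)
    obtain ⟨zb, hzb⟩ := hU.reg b (hev.mono fun δ h1 => h1.2.2.1)
    obtain ⟨M, hCM, hM⟩ := ClD_aux N h hU q (hev.mono fun δ h1 => h1.1)
      (C := {za, zb}) (Set.toFinite _).countable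
    obtain ⟨δ, h1, h2, h3, h4, u, hu1, hu2, hMu⟩ :=
      (hev.and (hza.and (hzb.and hM))).exists
    obtain ⟨_, _, _, hJ, hn⟩ := h1
    rw [h2, h3] at hJ
    have hJu := hJ.mono h hu1
    have haM : za ∈ M := hCM (by simp)
    have hbM : zb ∈ M := hCM (by simp)
    obtain ⟨t', ht', hJ'⟩ := hMu.join za haM zb hbM (h.fld u hu2 _ _ hJu.1).1
      (h.fld u hu2 _ _ hJu.2.1).1
    rw [hJu.unique h hu2 hJ'] at hn
    exact hn (h4 t' ht')
  · by_contra hcon
    rw [← Ultrafilter.eventually_not] at hcon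
    have hex : ∀ δ, ∃ (q : P) (a b : K),
        (¬ ∀ q ≤ p₀, ∀ b < δ, ∀ a, R a b q → a < δ) →
        (q ≤ p₀ ∧ b < δ ∧ R a b q ∧ ¬ a < δ) := by
      intro δ
      by_cases hδ : ∀ q ≤ p₀, ∀ b < δ, ∀ a, R a b q → a < δ
      · exact ⟨p₀, δ, δ, fun h1 => absurd hδ h1⟩
      · have hδ' := hδ
        push Not at hδ'
        obtain ⟨q, hq, b, hb, a, ha, haδ⟩ := hδ'
        exact ⟨q, a, b, fun _ => ⟨hq, hb, ha, not_lt.mpr haδ⟩⟩
    choose q a b hqt using hex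
    have hev := hcon.mono fun δ h1 => hqt δ h1
    obtain ⟨zb, hzb⟩ := hU.reg b (hev.mono fun δ h1 => h1.2.1)
    obtain ⟨M, hCM, hM⟩ := ClD_aux N h hU q (hev.mono fun δ h1 => h1.1)
      (C := {zb}) (Set.countable_singleton _)
    obtain ⟨δ, h1, h3, h4, u, hu1, hu2, hMu⟩ := (hev.and (hzb.and hM)).exists
    obtain ⟨_, _, hR, hn⟩ := h1
    rw [h3] at hR
    have hbM : zb ∈ M := hCM (by simp)
    exact hn (h4 _ (hMu.sub zb hbM (a δ) u le_rfl (h.mono' hu1 hR)))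

end Pool.Agent.EM
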