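import Pool.Agent.EM.Struct

set_option autoImplicit false

/-!
# EM/CoreG (difficulty 4): the core of the argument, in a decided ladder

Write `a ∨ b` for joins at `q` of elements of `M` in the field (they exist in `M` by `hM.join`, are
unique by `Jn.unique`, and in the field by `Jn.field`), `a ≤ b` for `R a b q`.

Fix `k` and let `i = j k`.  `e k < δ i` by the first part of `hδ i` (`hJ k`, `a k, y < δ i`).  `e k` is in
the field.  By `hv_ex` there is `z` with `Hv R q (δ i) (d i) (e k) z`; by `hH`, `z < xh`.  Unfold `Hv`: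
there is `t` with `t = d i ∨ e k` (so `t ∈ M` by uniqueness of joins) and no `z' < δ i` with `z < z'` is
`≤ t`; so `xh ≤ t` fails (`xh < δ i`).
Apply `br` to the four elements `![d i, xh, a k, y]`:
* `xh`: `t` is an upper bound of `d i`, `a k`, `y` (`a k ≤ e k ≤ t`), so `xh ≤ t`: contradiction.
* `d i`: let `t' = xh ∨ e k`; it is an upper bound of `xh, a k, y`, so `d i ≤ t'`.  By `hδ i` (first
  part) `t' < δ i`, by the second part `d i < δ i`: contradiction to `hδd`.
* `y`: let `u = d i ∨ xh`, `t'' = u ∨ a k`: `y ≤ t''` contradicts `hyQ`.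
* so `a k ≤ v` where `v = (d i ∨ xh) ∨ y`.
For one of the two values of `i` there are infinitely many `k` with `j k = i`, so infinitely many
elements `a k ≤ v` (`hinj`; `v` depends only on `i`), contradiction to `hM.fin`.
-/

namespace Pool.Agent.EM

open Cardinal Set Filter

variable {K : Type} [LinearOrder K] {P : Type} [PartialOrder P] {R : K → K → P → Prop} {p₀ : P}

theorem coreG (h : Lad3 R p₀) {q : P} (hq : q ≤ p₀) {M : Set K} (hM : Dcd R q M)
    (δ d : Fin 2 → K) (xh y : K) (a e : ℕ → K) (j : ℕ → Fin 2)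
    (hδ : ∀ i, CloPt R p₀ (δ i)) (hδd : ∀ i, δ i ≤ d i)
    (hdM : ∀ i, d i ∈ M) (hdR : ∀ i, R (d i) (d i) q) (hxM : xh ∈ M) (hxR : R xh xh q)
    (hyM : y ∈ M) (hyR : R y y q) (haM : ∀ k, a k ∈ M) (haR : ∀ k, R (a k) (a k) q)
    (heM : ∀ k, e k ∈ M)
    (hx : ∀ i, xh < δ i) (hy : ∀ i, y < δ i) (ha : ∀ k i, a k < δ i)
    (hinj : Function.Injective a) (hJ : ∀ k, Jn R q (a k) y (e k))
    (hH : ∀ k z, Hv R q (δ (j k)) (d (j k)) (e k) z → z < xh)
    (hyQ : ∀ i k u t, Jn R q (d i) xh u → Jn R q u (a k) t → ¬ R y t q) : False := by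
  have mk : ∀ b ∈ M, ∀ c ∈ M, R b b q → R c c q → ∃ t ∈ M, Jn R q b c t ∧ R t t q := by
    intro b hb c hc hbR hcR
    obtain ⟨t, ht, hJt⟩ := hM.join b hb c hc hbR hcR
    exact ⟨t, ht, hJt, hJt.field h hq⟩
  have tr : ∀ b c e', R b c q → R c e' q → R b e' q := fun b c e' h1 h2 =>
    h.trans q hq b c e' h1 h2
  choose u huM huJ huR using fun i => mk (d i) (hdM i) xh hxM (hdR i) hxR
  choose v hvM hvJ hvR using fun i => mk (u i) (huM i) y hyM (huR i) hyR
  have key : ∀ k, R (a k) (v (j k)) q := by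
    intro k
    obtain ⟨i, hi⟩ : ∃ i, i = j k := ⟨_, rfl⟩
    rw [← hi]
    have hek : e k < δ i := (hδ i).1 q hq (a k) (ha k i) y (hy i) (e k) (hJ k)
    have heR : R (e k) (e k) q := (hJ k).field h hq
    obtain ⟨z, hz⟩ := hv_ex h hq hM (hdM i) (heM k) (hdR i) heR hek
    have hzx : z < xh := hH k z (hi ▸ hz)
    obtain ⟨_, t, hJt, hzt, hmax⟩ := hz
    have hnx : ¬ R xh t q := hmax xh (hx i) hzx q le_rfl
    have htM : t ∈ M := by
      obtain ⟨t', ht', hJt', _⟩ := mk (d i) (hdM i) (e k) (heM k) (hdR i) heR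
      rw [hJt.unique h hq hJt']
      exact ht'
    obtain ⟨i', hi'⟩ := br h hq hM ![d i, xh, a k, y]
      (by
        intro l
        fin_cases l
        · exact hdM i
        · exact hxM
        · exact haM k
        · exact hyM)
      (by
        intro l
        fin_cases l
        · exact hdR i
        · exact hxR
        · exact haR k
        · exact hyR)
    fin_cases i'
    · exfalso
      obtain ⟨t', ht', hJt', _⟩ := mk xh hxM (e k) (heM k) hxR heR
      have h1 : R (d i) t' q := by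
        refine hi' t' ht' (fun l hl => ?_)
        fin_cases l
        · exact absurd rfl hl
        · exact hJt'.1
        · exact tr _ _ _ (hJ k).1 hJt'.2.1
        · exact tr _ _ _ (hJ k).2.1 hJt'.2.1
      have h2 : t' < δ i := (hδ i).1 q hq xh (hx i) (e k) hek t' hJt'
      have h3 : d i < δ i := (hδ i).2 q hq t' h2 (d i) h1
      exact absurd h3 (not_lt.mpr (hδd i))
    · exfalso
      apply hnx
      refine hi' t htM (fun l hl => ?_)
      fin_cases l
      · exact hJt.1
      · exact absurd rfl hl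
      · exact tr _ _ _ (hJ k).1 hJt.2.1
      · exact tr _ _ _ (hJ k).2.1 hJt.2.1
    · refine hi' (v i) (hvM i) (fun l hl => ?_)
      fin_cases l
      · exact tr _ _ _ (huJ i).1 (hvJ i).1
      · exact tr _ _ _ (huJ i).2.1 (hvJ i).1
      · exact absurd rfl hl
      · exact (hvJ i).2.1
    · exfalso
      obtain ⟨t', ht', hJt', _⟩ := mk (u i) (huM i) (a k) (haM k) (huR i) (haR k)
      apply hyQ i k (u i) t' (huJ i) hJt'
      refine hi' t' ht' (fun l hl => ?_)
      fin_cases l
      · exact tr _ _ _ (huJ i).1 hJt'.1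
      · exact tr _ _ _ (huJ i).2.1 hJt'.1
      · exact hJt'.2.1
      · exact absurd rfl hl
  obtain ⟨i, hi⟩ := Finite.exists_infinite_fiber j
  have hinf : (a '' (j ⁻¹' {i})).Infinite :=
    (Set.infinite_coe_iff.mp hi).image hinj.injOn
  apply hinf
  refine (hM.fin (v i) (hvM i)).subset ?_
  rintro _ ⟨k, hk, rfl⟩
  have hk' : j k = i := hk
  exact ⟨q, le_rfl, hk' ▸ key k⟩

end Pool.Agent.EM
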