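import Pool.Agent.EM.CDefs

set_option autoImplicit false

/-!
# EM/Crd (difficulty 3): cardinals in the extension
-/

namespace Pool.Agent.EM

open Cardinal Set Filter

variable {K : Type} [LinearOrder K] {U : Ultrafilter K} {P : Type} [PartialOrder P]

theorem not_leCard_of_unb (N : Nice U P) (hU : NM U) {D : K → Sen P}
    (hD : ∀ x p q, q ≤ p → D x p → D x q) {p : P}
    (hp : ∀ q ≤ p, ∀ γ, ∃ r ≤ q, ∃ a, γ ≤ a ∧ D a r) : Sen.not (LeCard D W1) p := by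
  intro q hq hL
  obtain ⟨r, hr, F, htot, hinj⟩ := hL q le_rfl
  have h1 : ∀ δ : K, ∃ u : P, u ≤ r ∧ ∃ a, δ ≤ a ∧ ∃ ξ : W1, F.rel a ξ u := by
    intro δ
    obtain ⟨s, hs, a, ha, hDa⟩ := hp r (hr.trans hq) δ
    obtain ⟨u, hu, ξ, hξ⟩ := htot a s hs hDa s le_rfl
    exact ⟨u, hu.trans hs, a, ha, ξ, hξ⟩
  choose u hu a ha ξ hξ using h1
  obtain ⟨ξ₀, hξ₀⟩ := hU.small ξ
  obtain ⟨ρ, hρ⟩ := N.pd (fun δ => N.res δ (u δ)) (Eventually.of_forall fun δ => N.supp_res δ _)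
  obtain ⟨δ, h2, h3⟩ := (hξ₀.and hρ).exists
  obtain ⟨x, hx⟩ := N.supp_ex (u δ)
  obtain ⟨δ', h4, h5, h6, h7⟩ := (hξ₀.and (hρ.and ((hU.ioi (a δ)).and (hU.ioi x)))).exists
  have h8 : N.supp δ' (u δ) := N.supp_mono h7.le hx
  have h9 : u δ ≤ N.res δ' (u δ') := by
    rw [h5, ← h3]
    exact N.le_res δ (u δ)
  obtain ⟨v, hv1, hv2, -⟩ := N.amal δ' (u δ') (u δ) h8 h9
  have h10 := F.mono (a δ) (ξ δ) (u δ) v hv2 (hξ δ)
  have h11 := F.mono (a δ') (ξ δ') (u δ') v hv1 (hξ δ')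
  rw [h2] at h10
  rw [h4] at h11
  have h12 : a δ = a δ' := hinj (a δ) (a δ') ξ₀ v (hv2.trans (hu δ)) ⟨h10, h11⟩
  have h13 : a δ < a δ' := lt_of_lt_of_le h6 (ha δ')
  exact absurd h12 (ne_of_lt h13)

end Pool.Agent.EM
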