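import Pool.Agent.EM.CDefs

set_option autoImplicit false

/-!
# EM/CrdB (difficulty 3): cardinals in the extension, second part

* `not_leCard_W1`: suppose `q ≤ p` forces a total injective `F ⊆ ω₁ × ℕ` (after extending `q`).  Build
  `q = q 0 ≥ q 1 ≥ ...`: if some `r ≤ q n` and some `i` have `F.rel i n r` let `q (n+1)` be such an `r` and
  `i n` such an `i`; otherwise `q (n+1) = q n` and `i n` arbitrary.  Let `qω` be a lower bound (`N.seq`), `i`
  different from all `i n` (`W1` is uncountable).  There are `r ≤ qω` and `n` with `F.rel i n r`.  So the first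
  case held at `n`, and `r` forces `F(i n, n)` and `F(i, n)`, so `i = i n`: contradiction.
* `leCard_Iic`: the name `F α i p := ∀ q ≤ p, ∃ r ≤ q, (β, i, α) ∈ r.2.s`.  Total: given `q` and `α ≤ β`
  choose `i : W1` with no `(β, i, γ) ∈ q.2.s` (`q.2.s` is countable, `W1` is not) and add `(β, i, α)` to
  `q.2`.  Injective: `q.2` is a function.
-/

namespace Pool.Agent.EM

open Cardinal Set Filter

variable {K : Type} [LinearOrder K] {U : Ultrafilter K} {P : Type} [PartialOrder P]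

private theorem CrdB_new {C : Set W1} (hC : C.Countable) : ∃ j, j ∉ C := by
  by_contra h
  have h1 : C = Set.univ := by
    ext j
    refine ⟨fun _ => mem_univ j, fun _ => ?_⟩
    by_contra hj
    exact h ⟨j, hj⟩
  rw [h1, countable_univ_iff] at hC
  have h2 : #W1 ≤ ℵ₀ := Cardinal.mk_le_aleph0_iff.2 hC
  rw [Cardinal.mk_ord_toType] at h2
  exact absurd (Cardinal.aleph0_lt_aleph_one) (not_lt.2 h2)

theorem not_leCard_W1 (N : Nice U P) (p : P) :
    Sen.not (LeCard (fun _ : W1 => Sen.pure True) ℕ) p := by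
  classical
  intro q _ hφ
  obtain ⟨r, -, F, hF1, hF2⟩ := hφ q le_rfl
  obtain ⟨j0, -⟩ := CrdB_new (C := ∅) countable_empty
  have hstep : ∀ (n : ℕ) (q : P), ∃ q' ≤ q, ∃ i : W1,
      (∃ r' ≤ q, ∃ j, F.rel j n r') → F.rel i n q' := by
    intro n q
    by_cases h : ∃ r' ≤ q, ∃ j, F.rel j n r'
    · obtain ⟨r', hr', j, hj⟩ := h
      exact ⟨r', hr', j, fun _ => hj⟩
    · exact ⟨q, le_rfl, j0, fun h' => absurd h' h⟩
  choose G hG i hi using hstep
  let qs : ℕ → P := fun n => Nat.rec r (fun n q => G n q) n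
  have hqs : ∀ n, qs (n + 1) = G n (qs n) := fun n => rfl
  have hanti : Antitone qs := antitone_nat_of_succ_le fun n => by rw [hqs]; exact hG n (qs n)
  obtain ⟨w, hw, -⟩ := N.seq qs hanti
  obtain ⟨j, hj⟩ := CrdB_new (countable_range fun n => i n (qs n))
  have hwr : w ≤ r := hw 0
  obtain ⟨t, ht, n, hn⟩ := hF1 j w hwr trivial w le_rfl
  have h1 : F.rel (i n (qs n)) n (qs (n + 1)) := by
    rw [hqs]
    exact hi n (qs n) ⟨t, ht.trans (hw n), j, hn⟩
  have h2 : F.rel (i n (qs n)) n t := F.mono _ _ _ _ (ht.trans (hw (n + 1))) h1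
  exact hj ⟨n, hF2 _ _ n t (ht.trans hwr) ⟨h2, hn⟩⟩

theorem leCard_Iic (β : K) (p : PP K) : LeCard (fun α : K => Sen.pure (α ≤ β)) W1 p := by
  intro q _
  refine ⟨q, le_rfl, ⟨fun α i p => ∀ q ≤ p, ∃ r ≤ q, (β, i, α) ∈ r.2.s, ?_, ?_⟩, ?_, ?_⟩
  · intro α i p q hq h q' hq'
    exact h q' (hq'.trans hq)
  · intro α i p h q hq
    obtain ⟨r, hr, h1⟩ := h q hq
    obtain ⟨r', hr', h2⟩ := h1 r le_rfl
    exact ⟨r', hr'.trans hr, h2⟩
  · intro α s _ hα s' _
    obtain ⟨i, hi⟩ := CrdB_new (C := (fun t : K × W1 × K => t.2.1) '' s'.2.s)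
      (s'.2.ctbl.image _)
    have hi' : ∀ γ, (β, i, γ) ∉ s'.2.s := fun γ h => hi ⟨_, h, rfl⟩
    refine ⟨(s'.1, ⟨insert (β, i, α) s'.2.s, s'.2.ctbl.insert _, ?_, ?_⟩), ?_, i, ?_⟩
    · intro β' i' γ γ' h h'
      rcases mem_insert_iff.1 h with h | h <;> rcases mem_insert_iff.1 h' with h' | h'
      · simp only [Prod.mk.injEq] at h h'
        rw [h.2.2, h'.2.2]
      · simp only [Prod.mk.injEq] at h
        rw [h.1, h.2.1] at h'
        exact absurd h' (hi' _)
      · simp only [Prod.mk.injEq] at h'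
        rw [h'.1, h'.2.1] at h
        exact absurd h (hi' _)
      · exact s'.2.fn β' i' γ γ' h h'
    · intro β' i' γ h
      rcases mem_insert_iff.1 h with h | h
      · simp only [Prod.mk.injEq] at h
        rw [h.1, h.2.2]
        exact hα
      · exact s'.2.le β' i' γ h
    · exact ⟨le_rfl, Col.le_def.2 (subset_insert _ _)⟩
    · intro u hu
      exact ⟨u, le_rfl, (Col.le_def.1 hu.2) (mem_insert _ _)⟩
  · intro x x' y s _ hs
    obtain ⟨r, hr, h1⟩ := hs.1 s le_rfl
    obtain ⟨r', hr', h2⟩ := hs.2 r hr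
    exact r'.2.fn β y x x' ((Col.le_def.1 hr'.2) h1) h2

end Pool.Agent.EM
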