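import Mathlib

set_option autoImplicit false

/-!
# Ladders in forcing extensions: definitions

Problem MP_8c47b5_lc, direction (a).

We use the usual definition of forcing over the ground model.  A sentence of the forcing language
over a poset `P` (stronger conditions are smaller) is identified with the set of all conditions
which force it.  A binary relation `F ⊆ X × Y` of the forcing extension (`X`, `Y` sets of the
ground model) is given by a name, that is by the statements `p ⊩ F(x, y)`.
-/

namespace Pool.Agent.EM

open Cardinal Set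

/-- The wellordered set of order type `ω₁`. -/
abbrev W1 : Type := (ℵ_ 1 : Cardinal.{0}).ord.ToType

/-- The wellordered set of order type `κ` (the initial ordinal of the cardinal `κ`). -/
abbrev WO (κ : Cardinal.{0}) : Type := κ.ord.ToType

/-- `κ` is a measurable cardinal: it is uncountable, and there is a `κ`-complete nonprincipal
ultrafilter on `κ`. -/
def IsMeasurable (κ : Cardinal.{0}) : Prop :=
  ℵ₀ < κ ∧ ∃ U : Ultrafilter (WO κ), (∀ x : WO κ, {x} ∉ U) ∧
    ∀ S : Set (Set (WO κ)), #S < κ → (∀ s ∈ S, s ∈ U) → ⋂₀ S ∈ U

/-! ### Forcing -/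

section

variable {P : Type} [Preorder P]

/-- A sentence of the forcing language: the set of all conditions which force it. -/
abbrev Sen (P : Type) := P → Prop

/-- A statement about the ground model. -/
def Sen.pure (a : Prop) : Sen P := fun _ => a

/-- `p ⊩ φ ∧ ψ`. -/
def Sen.and (φ ψ : Sen P) : Sen P := fun p => φ p ∧ ψ p

/-- `p ⊩ φ → ψ`: every `q ≤ p` which forces `φ` forces `ψ`. -/
def Sen.imp (φ ψ : Sen P) : Sen P := fun p => ∀ q ≤ p, φ q → ψ q

/-- `p ⊩ ¬ φ`: no `q ≤ p` forces `φ`. -/
def Sen.not (φ : Sen P) : Sen P := fun p => ∀ q ≤ p, ¬ φ q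

/-- `p ⊩ ∀ i, φ i`. -/
def Sen.all {ι : Type*} (φ : ι → Sen P) : Sen P := fun p => ∀ i, φ i p

/-- `p ⊩ ∃ i, φ i`: the set of all conditions which force some `φ i` is dense below `p`. -/
def Sen.ex {ι : Type*} (φ : ι → Sen P) : Sen P := fun p => ∀ q ≤ p, ∃ r ≤ q, ∃ i, φ i r

/-- A name for a binary relation between the ground model sets `X` and `Y`: for all `x`, `y` it
tells which conditions force `F(x, y)`.  The set of these conditions is closed under extension, and
contains every condition below which it is dense. -/
structure RelName (P : Type) [Preorder P] (X Y : Type) where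
  /-- `rel x y p` says `p ⊩ F(x, y)`. -/
  rel : X → Y → Sen P
  mono : ∀ x y p q, q ≤ p → rel x y p → rel x y q
  dense : ∀ x y p, (∀ q ≤ p, ∃ r ≤ q, rel x y r) → rel x y p

/-- `|D| ≤ |Y|` in the extension, for a subset `D` of `X`: there is a relation between `X` and
`Y` which relates each element of `D` to an element of `Y`, and no two different elements of `X` to
the same element of `Y`. -/
def LeCard {X : Type} (D : X → Sen P) (Y : Type) : Sen P :=
  Sen.ex fun F : RelName P X Y =>
    Sen.and (Sen.all fun x => (D x).imp (Sen.ex fun y => F.rel x y))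
      (Sen.all fun x => Sen.all fun x' => Sen.all fun y =>
        ((F.rel x y).and (F.rel x' y)).imp (Sen.pure (x = x')))

/-- The wellordered set `K` of the ground model is of cardinality `ℵ₂` in the extension: `ω₁` (of
the ground model) is not countable, every proper initial segment of `K` has at most `|ω₁|` elements,
and `K` has not. -/
def CardAlephTwo (K : Type) [LinearOrder K] : Sen P :=
  (Sen.not (LeCard (fun _ : W1 => Sen.pure True) ℕ)).and
    ((Sen.all fun β : K => LeCard (fun α : K => Sen.pure (α ≤ β)) W1).and
      (Sen.not (LeCard (fun _ : K => Sen.pure True) W1)))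

/-! ### Ladders in the extension

A structure `(D, ≤)` of the extension with `D ⊆ K` is given by the relation `R ⊆ K × K` with
`R(α, β)` iff `α, β ∈ D` and `α ≤ β`; so `α ∈ D` iff `R(α, α)`. -/

variable {K : Type}

/-- `R` is a partial order with underlying set `{α | R(α, α)}`. -/
def IsPO (R : K → K → Sen P) : Sen P :=
  (Sen.all fun α => Sen.all fun β => (R α β).imp ((R α α).and (R β β))).and
    ((Sen.all fun α => Sen.all fun β => ((R α β).and (R β α)).imp (Sen.pure (α = β))).and
      (Sen.all fun α => Sen.all fun β => Sen.all fun γ => ((R α β).and (R β γ)).imp (R α γ)))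

/-- `γ` is the join of `α` and `β`. -/
def IsSup (R : K → K → Sen P) (α β γ : K) : Sen P :=
  (R α γ).and ((R β γ).and (Sen.all fun δ => ((R α δ).and (R β δ)).imp (R γ δ)))

/-- `γ` is the meet of `α` and `β`. -/
def IsInf (R : K → K → Sen P) (α β γ : K) : Sen P :=
  (R γ α).and ((R γ β).and (Sen.all fun δ => ((R δ α).and (R δ β)).imp (R δ γ)))

/-- `R` is a lattice. -/
def IsLat (R : K → K → Sen P) : Sen P :=
  (IsPO R).and (Sen.all fun α => Sen.all fun β => ((R α α).and (R β β)).imp
    ((Sen.ex fun γ => IsSup R α β γ).and (Sen.ex fun γ => IsInf R α β γ)))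

/-- The underlying set of `R` (a subset of `K`) has more than `ℵ₁` elements. -/
def Big (R : K → K → Sen P) : Sen P := Sen.not (LeCard (fun α => R α α) W1)

/-- `R` is `J₃`-free: there are no pairwise different `x 0, x 1, x 2` and a further element `t` with
`x i ∨ x j = t` for all `i ≠ j`. -/
def IsJ3Free (R : K → K → Sen P) : Sen P :=
  Sen.all fun x : Fin 3 → K => Sen.all fun t : K =>
    ((Sen.pure (Function.Injective x ∧ ∀ i, x i ≠ t)).and
      (Sen.all fun i : Fin 3 => Sen.all fun j : Fin 3 =>
        (Sen.pure (i ≠ j)).imp (IsSup R (x i) (x j) t))).imp (Sen.pure False)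

/-- All principal ideals of `R` are countable. -/
def CtblIdeals (R : K → K → Sen P) : Sen P :=
  Sen.all fun β => (R β β).imp (LeCard (fun α => R α β) ℕ)

/-- All principal ideals of `R` are finite. -/
def FinIdeals (R : K → K → Sen P) : Sen P :=
  Sen.all fun β => (R β β).imp
    (Sen.ex fun s : Finset K => Sen.all fun α => (R α β).imp (Sen.pure (α ∈ s)))

/-- `β` is a lower cover of `γ`. -/
def IsCov (R : K → K → Sen P) (β γ : K) : Sen P :=
  (R β γ).and ((Sen.pure (β ≠ γ)).and
    (Sen.all fun δ => ((R β δ).and (R δ γ)).imp (Sen.pure (δ = β ∨ δ = γ))))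

/-- Every element of `R` has at most three lower covers: no four pairwise different elements are
lower covers of the same element. -/
def ThreeCovers (R : K → K → Sen P) : Sen P :=
  Sen.all fun γ : K => Sen.all fun b : Fin 4 → K =>
    ((Sen.pure (Function.Injective b)).and (Sen.all fun i => IsCov R (b i) γ)).imp (Sen.pure False)

/-- Statement `A`, for the extension, if `K` has cardinality `ℵ₂` there: there is a
`(2, ℵ₁)`-ladder of cardinality `ℵ₂` (with underlying set a subset of `K`). -/
def SenA (K : Type) : Sen P :=
  Sen.ex fun R : RelName P K K =>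
    (IsLat R.rel).and ((Big R.rel).and ((IsJ3Free R.rel).and (CtblIdeals R.rel)))

/-- Statement `B`, for the extension, if `K` has cardinality `ℵ₂` there: there is a `3`-ladder
of cardinality `ℵ₂` (with underlying set a subset of `K`). -/
def SenB (K : Type) : Sen P :=
  Sen.ex fun R : RelName P K K =>
    (IsLat R.rel).and ((Big R.rel).and ((FinIdeals R.rel).and (ThreeCovers R.rel)))

end

/-- For every measurable cardinal `κ` there is a poset which forces: `κ` is of cardinality `ℵ₂`, `A`
holds, and `B` fails. -/
def MeasurableAnotB : Prop :=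
  ∀ κ : Cardinal.{0}, IsMeasurable κ → ∃ (P : Type) (_ : PartialOrder P) (_ : Nonempty P),
    ∀ p : P, CardAlephTwo (WO κ) p ∧ SenA (WO κ) p ∧ Sen.not (SenB (WO κ)) p

end Pool.Agent.EM
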