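import Pool.Agent.EM.Base

set_option autoImplicit false

/-!
# EM/Dens (difficulty 2): countably many dense open sets
-/

namespace Pool.Agent.EM

open Cardinal Set Filter

variable {K : Type} [LinearOrder K] {U : Ultrafilter K} {P : Type} [PartialOrder P]

theorem dense_inter (N : Nice U P) (D : ℕ → P → Prop) (p : P)
    (hop : ∀ n, ∀ q r, r ≤ q → D n q → D n r) (hd : ∀ n, ∀ q ≤ p, ∃ r ≤ q, D n r) :
    ∃ q ≤ p, ∀ n, D n q := by
  classical
  have hd' : ∀ n, ∀ q : {q : P // q ≤ p}, ∃ r : {q : P // q ≤ p}, r.1 ≤ q.1 ∧ D n r.1 := by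
    intro n q
    obtain ⟨r, hr, hDr⟩ := hd n q.1 q.2
    exact ⟨⟨r, hr.trans q.2⟩, hr, hDr⟩
  choose g hg1 hg2 using hd'
  let s : ℕ → {q : P // q ≤ p} := fun n => Nat.rec (⟨p, le_rfl⟩ : {q : P // q ≤ p})
    (fun k q => g k q) n
  have hs : ∀ n, s (n + 1) = g n (s n) := fun n => rfl
  have hanti : Antitone (fun n => (s n).1) := by
    apply antitone_nat_of_succ_le
    intro n
    rw [hs]
    exact hg1 n (s n)
  obtain ⟨r, hr, -⟩ := N.seq (fun n => (s n).1) hanti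
  refine ⟨r, (hr 0).trans (s 0).2, fun n => ?_⟩
  have h1 := hg2 n (s n)
  rw [← hs] at h1
  exact hop n _ _ (hr (n + 1)) h1

theorem dense_ctbl (N : Nice U P) {ι : Type} [Countable ι] (D : ι → P → Prop) (p : P)
    (hop : ∀ n, ∀ q r, r ≤ q → D n q → D n r) (hd : ∀ n, ∀ q ≤ p, ∃ r ≤ q, D n r) :
    ∃ q ≤ p, ∀ n, D n q := by
  rcases isEmpty_or_nonempty ι with h | h
  · exact ⟨p, le_rfl, fun n => (IsEmpty.false n).elim⟩
  · obtain ⟨f, hf⟩ := exists_surjective_nat ι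
    obtain ⟨q, hq, h1⟩ := dense_inter N (fun n => D (f n)) p (fun n => hop (f n))
      (fun n => hd (f n))
    refine ⟨q, hq, fun i => ?_⟩
    obtain ⟨n, rfl⟩ := hf i
    exact h1 n

end Pool.Agent.EM
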