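import Pool.Agent.EM.SeqM

set_option autoImplicit false

/-!
# EM/FinM (difficulty 4): the final contradiction

Take the sequences of `seqM`.  Let `pω` be the greatest lower bound of `p n` (`N.seq`), and
`σ c i ≤ π n c i` (for all `n`) from `Ty.inf`.  The root of `σ c i` is `≤ p n` for all `n`
(`Ty.root_le`), so `≤ pω`, and `pω ≤ (σ c i).root` by the last part of `Ty.inf`.  So
`(σ c i).root = pω`.
`amalFin` (by four applications of `meet_pt`): there are `q ≤ pω` and `δ c i` with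
`q ≤ (σ c i).f (δ c i)` and `Good c i (δ c i)`, where `Good c i δ` is any property which holds for
almost all `δ`.  We take: for all `n`, `(σ c i).f δ ≤ (π n c i).f δ`, `(σ c i).d δ = (π n c i).d δ`,
`R ((σ c i).d δ) ((σ c i).d δ) ((σ c i).f δ)`, and
for all `n` with `b n = c`: `Hv R ((π (n+1) c i).f δ) δ ((π (n+1) c i).d δ) (e n) (z n i)`.
Extend `q` (`exists_dcd`) so that `Dcd R q M` with all `d c i := (σ c i).d (δ c i)` and all `e n` in
`M`.  Let `s ∈ M` be the join of the four `d c i` and `e 0` (`hM.join` four times).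
Claim `R (e n) s q` for all `n`: for `n = 0` clear.  If `R (e n) s q` let `c = b n`; for both `i`
`Hv R q (δ c i) (d c i) (e n) (z n i)` (`Hv.mono`): there is `t` with `Jn R q (d c i) (e n) t`,
`R (z n i) t q`; `t ≤ s` by the join property, so `R (z n i) s q`.  Then `Jn R q (z n false) (z n true)
(e (n+1))` (`Jn.mono`) gives `R (e (n+1)) s q`.
So `{a | R a s q}` contains the infinite set `range e`, contradiction to `hM.fin`.
-/

namespace Pool.Agent.EM

open Cardinal Set Filter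

variable {K : Type} [LinearOrder K] {U : Ultrafilter K} {P : Type} [PartialOrder P]
  {R : K → K → P → Prop} {p₀ : P}

theorem amalFin {N : Nice U P} (hU : NM U) {p : P} (σ : Bool → Bool → Ty N R)
    (hσ : ∀ c i, (σ c i).root = p) {Good : Bool → Bool → K → Prop}
    (hG : ∀ c i, ∀ᶠ δ in (U : Filter K), Good c i δ) :
    ∃ q ≤ p, ∃ δ : Bool → Bool → K, ∀ c i, q ≤ (σ c i).f (δ c i) ∧ Good c i (δ c i) := by
  have step : ∀ (c i : Bool) (s : P), s ≤ p → ∃ r ≤ s, ∃ δ, r ≤ (σ c i).f δ ∧ Good c i δ := by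
    intro c i s hs
    obtain ⟨δ, ⟨r, h1, h2, -⟩, hg⟩ := ((meet_pt hU (σ c i) (s := s)
      (by rw [hσ]; exact hs)).and (hG c i)).exists
    exact ⟨r, h2, δ, h1, hg⟩
  obtain ⟨r1, h1, δ1, k1, g1⟩ := step false false p le_rfl
  obtain ⟨r2, h2, δ2, k2, g2⟩ := step false true r1 h1
  obtain ⟨r3, h3, δ3, k3, g3⟩ := step true false r2 (h2.trans h1)
  obtain ⟨r4, h4, δ4, k4, g4⟩ := step true true r3 (h3.trans (h2.trans h1))
  refine ⟨r4, h4.trans (h3.trans (h2.trans h1)),
    fun c i => if c then (if i then δ4 else δ3) else (if i then δ2 else δ1), ?_⟩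
  intro c i
  cases c <;> cases i
  · exact ⟨(h4.trans (h3.trans h2)).trans k1, g1⟩
  · exact ⟨(h4.trans h3).trans k2, g2⟩
  · exact ⟨h4.trans k3, g3⟩
  · exact ⟨k4, g4⟩

theorem notLad3 (N : Nice U P) (hU : NM U) (h : Lad3 R p₀) : False := by
  have := hU.cc
  obtain ⟨p, π, b, e, z, hp0, hp1, hπ, hroot, hinj, hRe, hVal, hJn⟩ := seqM N h hU
  obtain ⟨pω, hlb, hglb, -⟩ := N.seq p (antitone_nat_of_succ_le hp1)
  choose σ hσ1 hσ2 using fun c i => Ty.inf h hU (fun n => π n c i) (fun n => hπ n c i)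
  have hσr : ∀ c i, (σ c i).root = pω := by
    intro c i
    apply le_antisymm
    · refine hglb _ fun n => ?_
      rw [← hroot n c i]
      exact Ty.root_le (hσ1 c i n)
    · refine hσ2 c i pω fun n => ?_
      rw [hroot]
      exact hlb n
  let Good : Bool → Bool → K → Prop := fun c i δ =>
    (∀ n, (σ c i).f δ ≤ (π n c i).f δ ∧ (σ c i).d δ = (π n c i).d δ) ∧
    R ((σ c i).d δ) ((σ c i).d δ) ((σ c i).f δ) ∧
    ∀ n, b n = c → Hv R ((π (n + 1) c i).f δ) δ ((π (n + 1) c i).d δ) (e n) (z n i)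
  have hG : ∀ c i, ∀ᶠ δ in (U : Filter K), Good c i δ := by
    intro c i
    have e1 : ∀ᶠ δ in (U : Filter K), ∀ n, (σ c i).f δ ≤ (π n c i).f δ ∧
        (σ c i).d δ = (π n c i).d δ := eventually_countable_forall.mpr (fun n => hσ1 c i n)
    have e3 : ∀ᶠ δ in (U : Filter K), ∀ n, b n = c →
        Hv R ((π (n + 1) c i).f δ) δ ((π (n + 1) c i).d δ) (e n) (z n i) := by
      refine eventually_countable_forall.mpr (fun n => ?_)
      by_cases hb : b n = c
      · have := hVal n i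
        rw [hb] at this
        exact Filter.Eventually.mono this (fun δ hδ _ => hδ)
      · exact Eventually.of_forall fun δ hc => absurd hc hb
    filter_upwards [e1, (σ c i).hd, e3] with δ h1 h2 h3
    exact ⟨h1, h2.2, h3⟩
  obtain ⟨q, hq, δ, hδ⟩ := amalFin hU σ hσr hG
  have hpωp : pω ≤ p₀ := (hlb 0).trans (hp0 0)
  let d : Bool → Bool → K := fun c i => (σ c i).d (δ c i)
  obtain ⟨q', hq', M, hCM, hM⟩ := exists_dcd N h (hq.trans hpωp)
    (C := Set.range e ∪ Set.range (fun x : Bool × Bool => d x.1 x.2))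
    ((Set.countable_range e).union (Set.countable_range _))
  have hq'p : q' ≤ p₀ := hq'.trans (hq.trans hpωp)
  have heM : ∀ n, e n ∈ M := fun n => hCM (Or.inl ⟨n, rfl⟩)
  have hdM : ∀ c i, d c i ∈ M := fun c i => hCM (Or.inr ⟨(c, i), rfl⟩)
  have hq'f : ∀ c i, q' ≤ (σ c i).f (δ c i) := fun c i => hq'.trans (hδ c i).1
  have hdR : ∀ c i, R (d c i) (d c i) q' := fun c i => h.mono' (hq'f c i) (hδ c i).2.2.1
  have hq'n : ∀ n, q' ≤ p n := fun n => hq'.trans (hq.trans (hlb n))
  have heR : ∀ n, R (e n) (e n) q' := fun n => h.mono' (hq'n n) (hRe n)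
  obtain ⟨t1, ht1, j1⟩ := hM.join _ (hdM false false) _ (hdM false true) (hdR _ _) (hdR _ _)
  obtain ⟨t2, ht2, j2⟩ := hM.join _ ht1 _ (hdM true false) (j1.field h hq'p) (hdR _ _)
  obtain ⟨t3, ht3, j3⟩ := hM.join _ ht2 _ (hdM true true) (j2.field h hq'p) (hdR _ _)
  obtain ⟨s, hs, j4⟩ := hM.join _ ht3 _ (heM 0) (j3.field h hq'p) (heR 0)
  have htr : ∀ {x y w : K}, R x y q' → R y w q' → R x w q' :=
    fun hxy hyw => h.trans q' hq'p _ _ _ hxy hyw
  have hds : ∀ c i, R (d c i) s q' := by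
    intro c i
    cases c <;> cases i
    · exact htr j1.1 (htr j2.1 (htr j3.1 j4.1))
    · exact htr j1.2.1 (htr j2.1 (htr j3.1 j4.1))
    · exact htr j2.2.1 (htr j3.1 j4.1)
    · exact htr j3.2.1 j4.1
  have hes : ∀ n, R (e n) s q' := by
    intro n
    induction n with
    | zero => exact j4.2.1
    | succ n ih =>
      have hz : ∀ i, R (z n i) s q' := by
        intro i
        have g := (hδ (b n) i).2
        have hv := g.2.2 n rfl
        have hf := g.1 (n + 1)
        rw [← hf.2] at hv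
        obtain ⟨-, t, hJ, hzt, -⟩ := Hv.mono h ((hq'f (b n) i).trans hf.1) hv
        exact htr hzt (hJ.2.2 s q' le_rfl (hds (b n) i) ih)
      exact ((hJn n).mono h (hq'n (n + 1))).2.2 s q' le_rfl (hz false) (hz true)
  have hfin := hM.fin s hs
  refine Set.infinite_range_of_injective hinj (hfin.subset ?_)
  rintro _ ⟨n, rfl⟩
  exact ⟨q', le_rfl, hes n⟩

end Pool.Agent.EM
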