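import Pool.Agent.EM.CDefs

set_option autoImplicit false

/-!
# EM/GDefs: generic lattices, abstractly

`Q p` is the (countable) set of the elements which `p` forces to belong to the generic lattice.
-/

namespace Pool.Agent.EM

open Cardinal Set Filter

/-- `P` adds a `J₃`-free lattice with countable principal ideals, whose elements are elements of the
ground model partial order `X`, coded by elements of `K` via `c`. -/
structure GenLat {P X K : Type} [PartialOrder P] [PartialOrder X] [LinearOrder K]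
    (Q : P → Set X) (c : X → K) : Prop where
  inj : Function.Injective c
  mono : ∀ {p q : P}, q ≤ p → Q p ⊆ Q q
  down : ∀ {p q : P}, q ≤ p → ∀ F ∈ Q q, ∀ G ∈ Q p, F ≤ G → F ∈ Q p
  ctbl : ∀ p, (Q p).Countable
  sup : ∀ p, ∀ F ∈ Q p, ∀ G ∈ Q p, ∃ q ≤ p, ∃ H ∈ Q q, F ≤ H ∧ G ≤ H ∧
    ∀ r ≤ q, ∀ Y ∈ Q r, F ≤ Y → G ≤ Y → H ≤ Y
  inf : ∀ p, ∀ F ∈ Q p, ∀ G ∈ Q p, ∃ H ∈ Q p, H ≤ F ∧ H ≤ G ∧
    ∀ r ≤ p, ∀ Y ∈ Q r, Y ≤ F → Y ≤ G → Y ≤ H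
  j3 : ∀ p, ∀ x : Fin 3 → X, ∀ t ∈ Q p, (∀ i, x i ∈ Q p) → Function.Injective x →
    (∀ i, x i ≠ t) → (∀ i, x i ≤ t) →
    ¬ ∀ i j, i ≠ j → ∀ r ≤ p, ∀ Y ∈ Q r, x i ≤ Y → x j ≤ Y → t ≤ Y
  size : ∀ p, ∀ γ : K, ∃ q ≤ p, ∃ F ∈ Q q, γ ≤ c F

section

variable {P X K : Type} [PartialOrder P] [PartialOrder X] [LinearOrder K]

/-- The name for the order of the generic lattice. -/
def GN (Q : P → Set X) (c : X → K) : RelName P K K where
  rel α β p := ∀ q ≤ p, ∃ r ≤ q, ∃ F ∈ Q r, ∃ G ∈ Q r, c F = α ∧ c G = β ∧ F ≤ G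
  mono α β p q hq h r hr := h r (hr.trans hq)
  dense α β p h q hq := by
    obtain ⟨r, hr, h1⟩ := h q hq
    obtain ⟨s, hs, h2⟩ := h1 r le_rfl
    exact ⟨s, hs.trans hr, h2⟩

theorem GN.dense {Q : P → Set X} {c : X → K} {α β : K} {p : P} (h : (GN Q c).rel α β p) :
    ∃ r ≤ p, ∃ F ∈ Q r, ∃ G ∈ Q r, c F = α ∧ c G = β ∧ F ≤ G := h p le_rfl

theorem GN.iff {Q : P → Set X} {c : X → K} (hg : GenLat Q c) {F G : X} {p : P} (hF : F ∈ Q p)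
    (hG : G ∈ Q p) : (GN Q c).rel (c F) (c G) p ↔ F ≤ G := by
  constructor
  · intro h
    obtain ⟨r, hr, F', hF', G', hG', h1, h2, h3⟩ := h p le_rfl
    rwa [hg.inj h1, hg.inj h2] at h3
  · intro h q hq
    exact ⟨q, le_rfl, F, hg.mono hq hF, G, hg.mono hq hG, rfl, rfl, h⟩

end

end Pool.Agent.EM
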