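import Pool.Agent.EM.GDefs
import Pool.Agent.EM.CLat

set_option autoImplicit false

/-!
# EM/GLat (difficulty 3): the poset `PP K = Cond K × Col K` adds a lattice

`X = {F : Set K // F.Countable}` with the order `⊆` (the subtype of `Set K`),
`Q p = {F | F.1 ∈ p.1.Q}`.  Everything is done in the first coordinate: from `q' ≤ p.1` get
`(q', p.2) ≤ p`.
* `sup`: `Cond.sup_ex`.  `inf`: `Cond.inf_mem`.
* `j3`: by `Cond.noJ3` for `p.1`; `hcl`: for `i ≠ j` take `q' ≤ p.1` and `H` from `Cond.sup_ex` for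
  `x i`, `x j`: `t ≤ H` by the hypothesis (for `r = (q', p.2)`) and `H ≤ t` (`t ∈ q'.Q`, `t ⊇ x i, x j`),
  so `t = H`.
* `size`: let `X₀ = ⋃₀ p.1.Q`, `x` with `X₀ ⊆ Iio x` (`bdd`).  For `δ > x` let `g δ = c (X₀ ∪ {δ})`.  If
  `g δ < γ` for all `δ > x` then almost all `δ` satisfy `g δ < δ`, so `g` is constant a.e.
  (`hU.reg`), so there are `δ < δ'` above `x` with `X₀ ∪ {δ} = X₀ ∪ {δ'}`: contradiction.  So there is
  `δ` with `γ ≤ g δ`; `Cond.cap` for `C = {δ}`.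
-/

namespace Pool.Agent.EM

open Cardinal Set Filter

variable {K : Type} [LinearOrder K] [WellFoundedLT K] {U : Ultrafilter K}

theorem genLat (hU : NM U) (c : {F : Set K // F.Countable} → K) (hc : Function.Injective c) :
    GenLat (P := PP K) (fun p => {F : {F : Set K // F.Countable} | F.1 ∈ p.1.Q}) c where
  inj := hc
  mono := by
    intro p q hq F hF
    exact (Cond.le_def.1 hq.1).1 hF
  down := by
    intro p q hq F hF G hG hFG
    exact (Cond.le_def.1 hq.1).2 F.1 hF G.1 hG hFG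
  ctbl := by
    intro p
    exact p.1.ctbl.preimage Subtype.val_injective
  sup := by
    intro p F hF G hG
    obtain ⟨q', hq', H, hH, h1, h2, _, h3⟩ := Cond.sup_ex p.1 hF hG
    refine ⟨(q', p.2), ⟨hq', le_rfl⟩, ⟨H, q'.mem_ctbl H hH⟩, hH, h1, h2, ?_⟩
    intro r hr Y hY hFY hGY
    exact h3 r.1 hr.1 Y.1 hY hFY hGY
  inf := by
    intro p F hF G hG
    refine ⟨⟨F.1 ∩ G.1, F.2.mono inter_subset_left⟩, Cond.inf_mem p.1 hF hG, ?_, ?_, ?_⟩
    · exact inter_subset_left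
    · exact inter_subset_right
    · intro r _ Y _ h1 h2
      exact subset_inter h1 h2
  j3 := by
    intro p x t ht hx _ hne hle hall
    refine Cond.noJ3 p.1 (x := fun i => (x i).1) (t := t.1) (fun i => hx i)
      (fun i h => hne i (Subtype.ext h)) (fun i => hle i) ?_ ?_
    · intro i j hij Y hY h1 h2
      exact hall i j hij p le_rfl ⟨Y, p.1.mem_ctbl Y hY⟩ hY h1 h2
    · intro i j hij
      obtain ⟨q', hq', H, hH, h1, h2, h4, h3⟩ := Cond.sup_ex p.1 (hx i) (hx j)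
      have htH : t.1 ⊆ H :=
        hall i j hij (q', p.2) ⟨hq', le_rfl⟩ ⟨H, q'.mem_ctbl H hH⟩ hH h1 h2
      have hHt : H ⊆ t.1 :=
        h3 q' le_rfl t.1 ((Cond.le_def.1 hq').1 ht) (hle i) (hle j)
      have hE : t.1 = H := htH.antisymm hHt
      rw [hE]
      exact h4
  size := by
    intro p γ
    by_contra hcon
    have hX0 : (⋃₀ p.1.Q).Countable := p.1.ctbl.sUnion p.1.mem_ctbl
    obtain ⟨x, hx⟩ := bdd hU hX0
    have hF : ∀ δ : K, (⋃₀ p.1.Q ∪ {δ}).Countable := fun δ => hX0.union (countable_singleton δ)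
    let g : K → K := fun δ => c ⟨⋃₀ p.1.Q ∪ {δ}, hF δ⟩
    have hg : ∀ δ, g δ < γ := by
      intro δ
      obtain ⟨q', hq', hm⟩ := Cond.cap p.1 (countable_singleton δ)
      by_contra hlt
      exact hcon ⟨(q', p.2), ⟨hq', le_rfl⟩, ⟨⋃₀ p.1.Q ∪ {δ}, hF δ⟩, hm, not_lt.1 hlt⟩
    obtain ⟨z, hz⟩ := hU.reg g (by
      filter_upwards [hU.ioi γ] with δ hδ
      exact (hg δ).trans hδ)
    obtain ⟨δ, hδ1, hδ2⟩ := (hz.and (hU.ioi x)).exists
    obtain ⟨δ', ⟨hδ'1, hδ'2⟩, hδ'3⟩ := ((hz.and (hU.ioi x)).and (hU.ioi δ)).exists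
    have hE : g δ' = g δ := hδ'1.trans hδ1.symm
    have hS : (⋃₀ p.1.Q ∪ {δ'} : Set K) = ⋃₀ p.1.Q ∪ {δ} := congrArg Subtype.val (hc hE)
    have hm : δ' ∈ (⋃₀ p.1.Q ∪ {δ} : Set K) := by
      have : δ' ∈ (⋃₀ p.1.Q ∪ {δ'} : Set K) := Or.inr rfl
      rw [hS] at this
      exact this
    rcases hm with hm | hm
    · exact absurd (hx δ' hm) (not_lt.2 hδ'2.le)
    · exact absurd (mem_singleton_iff.1 hm) hδ'3.ne'

end Pool.Agent.EM
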