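import Pool.Agent.EM.LemG

set_option autoImplicit false

/-!
# EM/Init (difficulty 3): the first step

(1) For every `δ` choose `g δ ≤ p₀` and `d δ ≥ δ` with `R (d δ) (d δ) (g δ)` (`h.unb`).
`δ ↦ N.res δ (g δ)` is constant `= r₀` a.e. (`N.pd`, `N.supp_res`).  This is a type `π` with root
`r₀ ≤ p₀` (for large `δ`, `r₀ = N.res δ (g δ) ≤ N.res δ p₀ = p₀`, `ev_supp`, `N.res_of_supp`).
(2) Recursion: `r (k+1) ≤ r k`, `a (k+1) > a k` with `R (a k) (a k) (r k)` (`h.unb`, `hU.ioi` to get an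
element `> a k`).  Let `r` be a lower bound (`N.seq`); `a` is injective.
(3) `lemG` for `p = r`, `π i` = the meet of `π` and `r` (`Ty.meet`), `a`, `T = ∅`, `Cand s y := R y y s`
(`hC3` is `h.unb`) gives `s`, `e'` and a type `π'` with root `s` and `UU π' e'`; `R e' e' s` by
`Jn.field`.
-/

namespace Pool.Agent.EM

open Cardinal Set Filter

variable {K : Type} [LinearOrder K] {U : Ultrafilter K} {P : Type} [PartialOrder P]
  {R : K → K → P → Prop} {p₀ : P}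

theorem init (N : Nice U P) (h : Lad3 R p₀) (hU : NM U) :
    ∃ p ≤ p₀, ∃ π : Ty N R, π.root = p ∧ ∃ e, R e e p ∧ UU π e := by
  choose g hg d hd hR using fun δ => h.unb p₀ le_rfl δ
  obtain ⟨r₀, hr₀⟩ := N.pd (fun δ => N.res δ (g δ))
    (Eventually.of_forall fun δ => N.supp_res δ _)
  let π : Ty N R := ⟨g, d, r₀, hr₀, Eventually.of_forall fun δ => ⟨hd δ, hR δ⟩⟩
  have hr₀p : r₀ ≤ p₀ := by
    obtain ⟨δ, h1, h2⟩ := (hr₀.and (ev_supp (N := N) hU p₀)).exists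
    rw [← h1, ← N.res_of_supp h2]
    exact N.res_mono δ (hg δ)
  obtain ⟨x₀, -⟩ := hr₀.exists
  have hstep : ∀ x : {r : P // r ≤ r₀} × K, ∃ y : {r : P // r ≤ r₀} × K,
      y.1.1 ≤ x.1.1 ∧ x.2 < y.2 ∧ R y.2 y.2 y.1.1 := by
    rintro ⟨⟨r, hr⟩, a⟩
    obtain ⟨γ, hγ⟩ := (hU.ioi a).exists
    obtain ⟨r', hr', a', ha', hRa⟩ := h.unb r (hr.trans hr₀p) γ
    exact ⟨⟨⟨r', hr'.trans hr⟩, a'⟩, hr', lt_of_lt_of_le hγ ha', hRa⟩
  choose st hst1 hst2 hst3 using hstep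
  let sq : ℕ → {r : P // r ≤ r₀} × K := fun n => Nat.rec ⟨⟨r₀, le_rfl⟩, x₀⟩ (fun _ x => st x) n
  have hsq : ∀ n, sq (n + 1) = st (sq n) := fun n => rfl
  let rr : ℕ → P := fun n => (sq (n + 1)).1.1
  let a : ℕ → K := fun n => (sq (n + 1)).2
  have hrr : Antitone rr := antitone_nat_of_succ_le (fun n => hst1 (sq (n + 1)))
  have ha : StrictMono a := strictMono_nat_of_lt_succ (fun n => hst2 (sq (n + 1)))
  have hRa : ∀ n, R (a n) (a n) (rr n) := fun n => hst3 (sq n)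
  obtain ⟨r, hr, -⟩ := N.seq rr hrr
  have hrr₀ : r ≤ r₀ := (hr 0).trans (sq 1).1.2
  obtain ⟨π1, hle, hroot, -⟩ := Ty.meet h hU π (s := r) hrr₀
  obtain ⟨s, hs, k, y, e', hc, hJ, -, hUU⟩ := lemG h hU (hrr₀.trans hr₀p) (fun _ => π1)
    (fun _ => hroot) a ha.injective (fun k => h.mono' (hr k) (hRa k)) (T := ∅)
    Set.countable_empty (Cand := fun s y => R y y s) (fun s s' y hs' hy => h.mono' hs' hy)
    (fun s _ y hy => hy) (fun s hs' γ => h.unb s (hs'.trans (hrr₀.trans hr₀p)) γ)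
  obtain ⟨π', -, h2, h3⟩ := hUU 0
  have hsp : s ≤ p₀ := hs.trans (hrr₀.trans hr₀p)
  exact ⟨s, hsp, π', h2, e', hJ.field h hsp, h3⟩

end Pool.Agent.EM
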