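import Pool.Agent.EM.CDefs

set_option autoImplicit false

/-!
# EM/LNice (difficulty 3): `Col` is nice
-/

namespace Pool.Agent.EM

open Cardinal Set Filter

variable {K : Type} [LinearOrder K] {U : Ultrafilter K}

theorem LNice_pd (hU : NM U) : PD U (Col.supp (K := K)) := by
  have h1 := pd_ctbl hU (pd_prod (pd_K hU) (pd_prod (pd_W1 hU) (pd_K hU)))
  intro f hf
  obtain ⟨C, hC⟩ := h1 (fun δ => ⟨(f δ).s, (f δ).ctbl⟩) (by
    filter_upwards [hf] with δ hδ
    rintro ⟨β, i, γ⟩ hc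
    exact ⟨hδ _ hc, trivial, lt_of_le_of_lt ((f δ).le β i γ hc) (hδ _ hc)⟩)
  obtain ⟨δ₀, hδ₀⟩ := hC.exists
  refine ⟨f δ₀, ?_⟩
  filter_upwards [hC] with δ hδ
  apply Col.ext'
  exact congrArg Subtype.val (hδ.trans hδ₀.symm)

theorem LNice_seq (p : ℕ → Col K) (hp : Antitone p) : ∃ r, (∀ n, r ≤ p n) ∧
    (∀ s, (∀ n, s ≤ p n) → s ≤ r) ∧ (∀ x, (∀ n, Col.supp x (p n)) → Col.supp x r) ∧
    ∀ x s, (∀ n, s ≤ Col.res x (p n)) → s ≤ Col.res x r := by
  refine ⟨{ s := ⋃ n, (p n).s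
            ctbl := countable_iUnion fun n => (p n).ctbl
            fn := ?_
            le := ?_ }, fun n => ?_, fun s hs => ?_, fun x hx => ?_, fun x s hs => ?_⟩
  · intro β i γ γ' h1 h2
    obtain ⟨m, hm⟩ := mem_iUnion.1 h1
    obtain ⟨n, hn⟩ := mem_iUnion.1 h2
    have h3 : (p m).s ⊆ (p (max m n)).s := hp (le_max_left m n)
    have h4 : (p n).s ⊆ (p (max m n)).s := hp (le_max_right m n)
    exact (p (max m n)).fn β i γ γ' (h3 hm) (h4 hn)
  · intro β i γ h
    obtain ⟨m, hm⟩ := mem_iUnion.1 h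
    exact (p m).le β i γ hm
  · rw [Col.le_def]
    exact subset_iUnion (fun n => (p n).s) n
  · rw [Col.le_def]
    exact iUnion_subset hs
  · intro t ht
    obtain ⟨m, hm⟩ := mem_iUnion.1 ht
    exact hx m t hm
  · rw [Col.le_def]
    rintro t ⟨ht, htx⟩
    obtain ⟨m, hm⟩ := mem_iUnion.1 ht
    exact hs m ⟨hm, htx⟩

theorem LNice_amal (x : K) (p q : Col K) (hq : Col.supp x q) (hle : q ≤ Col.res x p) :
    ∃ r, r ≤ p ∧ r ≤ q ∧ (∀ s, s ≤ p → s ≤ q → s ≤ r) ∧ Col.res x r = q ∧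
      ∀ y, x ≤ y → Col.supp y p → Col.supp y r := by
  refine ⟨{ s := p.s ∪ q.s
            ctbl := p.ctbl.union q.ctbl
            fn := ?_
            le := ?_ }, subset_union_left, subset_union_right, fun s h1 h2 => union_subset h1 h2,
            ?_, ?_⟩
  · rintro β i γ γ' (h1 | h1) (h2 | h2)
    · exact p.fn β i γ γ' h1 h2
    · exact q.fn β i γ γ' (hle ⟨h1, show β < x from hq _ h2⟩) h2
    · exact q.fn β i γ γ' h1 (hle ⟨h2, show β < x from hq _ h1⟩)
    · exact q.fn β i γ γ' h1 h2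
  · rintro β i γ (h | h)
    · exact p.le β i γ h
    · exact q.le β i γ h
  · apply Col.ext'
    ext t
    constructor
    · rintro ⟨h1 | h1, h2⟩
      · exact hle ⟨h1, h2⟩
      · exact h1
    · intro h
      exact ⟨Or.inr h, hq t h⟩
  · rintro y hxy hp t (h | h)
    · exact hp t h
    · exact lt_of_lt_of_le (hq t h) hxy

theorem niceCol (hU : NM U) :
    ∃ N : Nice U (Col K), N.supp = Col.supp ∧ N.res = Col.res := by
  refine ⟨{ supp := Col.supp
            res := Col.res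
            supp_mono := fun h hp t ht => lt_of_lt_of_le (hp t ht) h
            supp_ex := fun p => ?_
            supp_res := fun x p t ht => ht.2
            le_res := fun x p t ht => ht.1
            res_mono := fun x p q h t ht => ⟨h ht.1, ht.2⟩
            res_of_supp := fun {x p} h => ?_
            amal := LNice_amal
            seq := LNice_seq
            pd := LNice_pd hU }, rfl, rfl⟩
  · obtain ⟨x, hx⟩ := bdd hU (p.ctbl.image fun t => t.1)
    exact ⟨x, fun t ht => hx t.1 ⟨t, ht, rfl⟩⟩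
  · apply Col.ext'
    ext t
    exact ⟨fun ht => ht.1, fun ht => ⟨ht, h t ht⟩⟩

end Pool.Agent.EM
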