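import Pool.Agent.EM.Base

set_option autoImplicit false

/-!
# EM/PDL (difficulty 3): facts on `PD`

* `pd_K` is `hU.reg`, `pd_W1` is `hU.small`.
* `pd_prod`: apply `PD` to the two coordinates.
* `pd_opt`: `U` is an ultrafilter: either `f δ = none` almost everywhere or `f δ ≠ none` almost
  everywhere; in the second case use `s` for `(f δ).get` (choose a function `g` with
  `f δ = some (g δ)` if possible; if `T` is empty the second case does not occur).
* `pd_ctbl`: let `f δ` be countable sets, all of whose elements are supported below `δ` (a.e.).  Choose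
  `e δ : ℕ → Option T` with `(f δ).1 = {t | ∃ n, e δ n = some t}`.  For each `n` the function
  `δ ↦ e δ n` is constant `= e' n` a.e. by `pd_opt`; by countable completeness (`hU.cc`,
  `eventually_countable_forall`) for almost all `δ` this holds for all `n`.  So `f δ` is a.e. the
  countable set `{t | ∃ n, e' n = some t}`.
* `refl_pd`: if not, then for almost all `δ` (ultrafilter) there is a `t` supported below `δ` with
  `¬ φ δ t`; choose `f δ = t`.  By `PD` the function `f` is constant a.e., contradiction to `h` for this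
  value.
* `bdd`: for each `c ∈ C` almost all `δ` are `> c`; countable completeness, and `U` is not `⊥`.
* `cofPt`: `refl_pd` for `pd_ctbl pd_K`: for a fixed countable `C` almost all `δ` are above a bound
  `γ` of `C`, which exists by `bdd`.
-/

namespace Pool.Agent.EM

open Cardinal Set Filter

variable {K : Type} [LinearOrder K] {U : Ultrafilter K}

theorem pd_K (hU : NM U) : PD U (fun x (y : K) => y < x) := hU.reg

theorem pd_W1 (hU : NM U) : PD U (fun _ (_ : W1) => True) := fun f _ => hU.small f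

theorem pd_prod {S T : Type} {s : K → S → Prop} {t : K → T → Prop} (hs : PD U s) (ht : PD U t) :
    PD U (fun x (y : S × T) => s x y.1 ∧ t x y.2) := by
  intro f hf
  obtain ⟨a, ha⟩ := hs (fun δ => (f δ).1) (hf.mono fun _ h => h.1)
  obtain ⟨b, hb⟩ := ht (fun δ => (f δ).2) (hf.mono fun _ h => h.2)
  refine ⟨(a, b), ?_⟩
  filter_upwards [ha, hb] with δ h1 h2
  exact Prod.ext h1 h2

theorem pd_opt {T : Type} {s : K → T → Prop} (hs : PD U s) :
    PD U (fun x (y : Option T) => ∀ t, y = some t → s x t) := by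
  intro f hf
  rcases U.em (fun δ => f δ = none) with h | h
  · exact ⟨none, h⟩
  · obtain ⟨δ0, h0⟩ := h.exists
    obtain ⟨t0, -⟩ := Option.ne_none_iff_exists'.1 h0
    obtain ⟨t, ht⟩ := hs (fun δ => (f δ).getD t0) (by
      filter_upwards [hf, h] with δ h1 h2
      obtain ⟨u, hu⟩ := Option.ne_none_iff_exists'.1 h2
      have h3 := h1 u hu
      simpa [hu] using h3)
    refine ⟨some t, ?_⟩
    filter_upwards [ht, h] with δ h1 h2
    obtain ⟨u, hu⟩ := Option.ne_none_iff_exists'.1 h2
    have h3 : u = t := by simpa [hu] using h1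
    rw [hu, h3]

private theorem PDL_enum {T : Type} (C : Set T) (hC : C.Countable) :
    ∃ e : ℕ → Option T, C = {t | ∃ n, e n = some t} := by
  rcases C.eq_empty_or_nonempty with h | h
  · exact ⟨fun _ => none, by rw [h]; ext t; simp⟩
  · obtain ⟨g, hg⟩ := hC.exists_eq_range h
    refine ⟨fun n => some (g n), ?_⟩
    rw [hg]
    ext t
    simp

theorem pd_ctbl (hU : NM U) {T : Type} {s : K → T → Prop} (hs : PD U s) :
    PD U (fun x (C : {C : Set T // C.Countable}) => ∀ c ∈ C.1, s x c) := by
  intro f hf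
  choose e he using fun C : {C : Set T // C.Countable} => PDL_enum C.1 C.2
  have h1 : ∀ n : ℕ, ∃ t : Option T, ∀ᶠ δ in (U : Filter K), e (f δ) n = t := by
    intro n
    refine pd_opt hs (fun δ => e (f δ) n) ?_
    filter_upwards [hf] with δ h t ht
    refine h t ?_
    rw [he (f δ)]
    exact ⟨n, ht⟩
  choose e' he' using h1
  have := hU.cc
  have h2 : ∀ᶠ δ in (U : Filter K), ∀ n : ℕ, e (f δ) n = e' n :=
    eventually_countable_forall.2 he'
  obtain ⟨δ0, h0⟩ := h2.exists
  refine ⟨f δ0, ?_⟩
  filter_upwards [h2] with δ h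
  refine Subtype.ext ?_
  rw [he (f δ), he (f δ0)]
  ext t
  simp only [Set.mem_ofPred_eq]
  constructor
  · rintro ⟨n, hn⟩
    exact ⟨n, by rw [h0 n, ← h n]; exact hn⟩
  · rintro ⟨n, hn⟩
    exact ⟨n, by rw [h n, ← h0 n]; exact hn⟩

theorem refl_pd {T : Type} {s : K → T → Prop} (hs : PD U s) {φ : K → T → Prop}
    (h : ∀ t, ∀ᶠ δ in (U : Filter K), φ δ t) :
    ∀ᶠ δ in (U : Filter K), ∀ t, s δ t → φ δ t := by
  classical
  by_contra hc
  have hc' : ∀ᶠ δ in (U : Filter K), ∃ t, s δ t ∧ ¬ φ δ t := by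
    have h1 := Ultrafilter.eventually_not.2 hc
    filter_upwards [h1] with δ h2
    by_contra h3
    refine h2 fun t ht => ?_
    by_contra h4
    exact h3 ⟨t, ht, h4⟩
  obtain ⟨δ0, t0, -⟩ := hc'.exists
  obtain ⟨t, ht⟩ := hs (fun δ => if h : ∃ t, s δ t ∧ ¬ φ δ t then h.choose else t0) (by
    filter_upwards [hc'] with δ h1
    rw [dif_pos h1]
    exact h1.choose_spec.1)
  obtain ⟨δ, h1, h2, h3⟩ := (hc'.and (ht.and (h t))).exists
  rw [dif_pos h1] at h2
  exact h1.choose_spec.2 (by rw [h2]; exact h3)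

theorem bdd (hU : NM U) {C : Set K} (hC : C.Countable) : ∃ x, ∀ c ∈ C, c < x := by
  have := hU.cc
  have h : ∀ᶠ δ in (U : Filter K), ∀ c ∈ C, c < δ :=
    (eventually_countable_ball hC).2 fun c _ => hU.ioi c
  exact h.exists

theorem cofPt (hU : NM U) : ∀ᶠ x in (U : Filter K), CofPt x := by
  have h := refl_pd (U := U) (pd_ctbl hU (pd_K hU))
    (φ := fun x C => ∃ γ < x, ∀ c ∈ C.1, c < γ) (fun C => by
      obtain ⟨γ, hγ⟩ := bdd hU C.2
      filter_upwards [hU.ioi γ] with δ hδ
      exact ⟨γ, hδ, hγ⟩)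
  filter_upwards [h] with x hx C hC hCx
  exact hx ⟨C, hC⟩ hCx

end Pool.Agent.EM
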