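import Pool.Agent.EM.Breadth

set_option autoImplicit false

/-!
# EM/Struct (difficulty 4): the ladder decided by a condition

Let `L = {a : K // a ∈ M ∧ R a a q}` with `a ≤ b` iff `R a b q`.  This is a partial order (`h.anti`,
`h.trans`), and a join semilattice by `hM.join` (choose the joins; they are in the field by
`Jn.field`; `Jn R q a b t` gives the universal property by taking `r = q`).  Ideals are finite
(`hM.fin` with `r = q`).  No element has four lower covers in `L`: let `b i ⋖ t` in `L`, `b`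
injective.  Then apply `h.cov q hq t b`: if `r ≤ q`, `R (b i) c r`, `R c t r` then `c ∈ M` by `hM.sub`,
and `R (b i) c q`, `R c t q` by `hM.dec`, `R c c q` by `h.fld`, so `c = b i` or `c = t` (`b i ⋖ t`).
So `breadth` applies and gives `br`.

`hv_ex`: `a, d ∈ M` are in the field, so there is `t ∈ M` with `Jn R q d a t`.  The set
`{z | z < δ ∧ R z t q}` is finite (`hM.fin`) and contains `a`.  Let `z` be its largest element (in the
order of `K`).  If `z' < δ`, `z < z'`, `q' ≤ q` and `R z' t q'` then `z' ∈ M` (`hM.sub`) and `R z' t q`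
(`hM.dec`), contradiction.
-/

namespace Pool.Agent.EM

open Cardinal Set Filter

variable {K : Type} [LinearOrder K] {P : Type} [PartialOrder P]

private structure Struct_L (R : K → K → P → Prop) (q : P) (M : Set K) where
  val : K
  mem : val ∈ M
  fld : R val val q

private theorem Struct_ext {R : K → K → P → Prop} {q : P} {M : Set K} {x y : Struct_L R q M}
    (h : x.val = y.val) : x = y := by
  cases x
  cases y
  cases h
  rfl

theorem br {R : K → K → P → Prop} {p₀ : P} (h : Lad3 R p₀) {q : P} (hq : q ≤ p₀) {M : Set K}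
    (hM : Dcd R q M) (a : Fin 4 → K) (haM : ∀ i, a i ∈ M) (haR : ∀ i, R (a i) (a i) q) :
    ∃ i, ∀ t ∈ M, (∀ j, j ≠ i → R (a j) t q) → R (a i) t q := by
  classical
  have hj : ∀ x y : Struct_L R q M, ∃ t : Struct_L R q M, Jn R q x.val y.val t.val := by
    intro x y
    obtain ⟨t, ht, hJ⟩ := hM.join x.val x.mem y.val y.mem x.fld y.fld
    exact ⟨⟨t, ht, hJ.field h hq⟩, hJ⟩
  choose J hJ using hj
  let inst : SemilatticeSup (Struct_L R q M) :=
    { le := fun x y => R x.val y.val q
      le_refl := fun x => x.fld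
      le_trans := fun x y z h1 h2 => h.trans q hq x.val y.val z.val h1 h2
      le_antisymm := fun x y h1 h2 => Struct_ext (h.anti q hq x.val y.val h1 h2)
      sup := J
      le_sup_left := fun x y => (hJ x y).1
      le_sup_right := fun x y => (hJ x y).2.1
      sup_le := fun x y z h1 h2 => (hJ x y).2.2 z.val q le_rfl h1 h2 }
  have hfin : ∀ p : Struct_L R q M, (Iic p).Finite := by
    intro p
    apply Set.Finite.of_finite_image (f := Struct_L.val) _ (fun x _ y _ hxy => Struct_ext hxy)
    apply (hM.fin p.val p.mem).subset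
    rintro _ ⟨x, hx, rfl⟩
    exact ⟨q, le_rfl, hx⟩
  have hcov : ∀ t : Struct_L R q M, ∀ b : Fin 4 → Struct_L R q M,
      Function.Injective b → ¬ ∀ i, b i ⋖ t := by
    intro t b hb hall
    apply h.cov q hq t.val (fun i => (b i).val) (fun i j hij => hb (Struct_ext hij))
    intro i
    refine ⟨(hall i).le, ?_, ?_⟩
    · intro heq
      exact (hall i).ne (Struct_ext heq)
    · intro c r hr h1 h2
      have hcM : c ∈ M := hM.sub t.val t.mem c r hr h2
      have h3 : R (b i).val c q :=
        (hM.dec (b i).val (b i).mem c hcM).resolve_right fun hn => hn r hr h1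
      have h4 : R c t.val q := (hM.dec c hcM t.val t.mem).resolve_right fun hn => hn r hr h2
      have h5 : R c c q := (h.fld q hq c t.val h4).1
      rcases (hall i).eq_or_eq (c := ⟨c, hcM, h5⟩) h3 h4 with h6 | h6
      · exact Or.inl (congrArg Struct_L.val h6)
      · exact Or.inr (congrArg Struct_L.val h6)
  obtain ⟨i, hi⟩ := breadth hfin hcov (fun i => ⟨a i, haM i, haR i⟩)
  refine ⟨i, fun t ht hall => ?_⟩
  obtain ⟨j, hji⟩ : ∃ j : Fin 4, j ≠ i := exists_ne i
  have htt : R t t q := (h.fld q hq (a j) t (hall j hji)).2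
  exact hi ⟨t, ht, htt⟩ (fun j hj => hall j hj)

theorem hv_ex {R : K → K → P → Prop} {p₀ : P} (h : Lad3 R p₀) {q : P} (hq : q ≤ p₀) {M : Set K}
    (hM : Dcd R q M) {d a δ : K} (hd : d ∈ M) (ha : a ∈ M) (hdR : R d d q) (haR : R a a q)
    (haδ : a < δ) : ∃ z, Hv R q δ d a z := by
  obtain ⟨t, ht, hJ⟩ := hM.join d hd a ha hdR haR
  have hfin : {z | z < δ ∧ R z t q}.Finite := by
    apply (hM.fin t ht).subset
    rintro z ⟨_, hz⟩
    exact ⟨q, le_rfl, hz⟩
  obtain ⟨z, hz, hmax⟩ := Set.exists_max_image {z | z < δ ∧ R z t q} id hfin ⟨a, haδ, hJ.2.1⟩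
  refine ⟨z, hz.1, t, hJ, hz.2, ?_⟩
  intro z' hz' hlt q' hq' hR
  have hz'M : z' ∈ M := hM.sub t ht z' q' hq' hR
  have h1 : R z' t q := (hM.dec z' hz'M t ht).resolve_right fun hn => hn q' hq' hR
  exact absurd (hmax z' ⟨hz', h1⟩) (not_le.mpr hlt)

end Pool.Agent.EM
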