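import Pool.Agent.EM.TyA2
import Pool.Agent.EM.PDL
import Pool.Agent.EM.Decide
import Pool.Agent.EM.Struct

set_option autoImplicit false

/-!
# EM/TyB (difficulty 3): values exist

`exists_val`.  For almost all `δ`: `r < δ`, `π.f δ ≤ π.root ≤ p₀`, `R (π.d δ) (π.d δ) (π.f δ)`; by
`exists_dcd` there are `q ≤ π.f δ` and `M ∋ r, π.d δ` with `Dcd R q M`, so by `hv_ex` there is `z` with
`Hv R q δ (π.d δ) r z`, in particular `z < δ`.  Choose functions `g`, `z`.  By `pd_K` the function `z` is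
constant a.e., and `Ty.mk_of` gives the type.

`Val.field`: if `Hv R q δ d r z` then `R z z q` (by `h.fld`, `q ≤ p₀`).  Use `Ty.root_of` for
`φ q := R z z q` (`h.mono`, `h.dense`); `π.f δ ≤ π.root ≤ p₀`.
-/

namespace Pool.Agent.EM

open Cardinal Set Filter

variable {K : Type} [LinearOrder K] {U : Ultrafilter K} {P : Type} [PartialOrder P]
  {N : Nice U P} {R : K → K → P → Prop} {p₀ : P}

theorem exists_val (h : Lad3 R p₀) (hU : NM U) (π : Ty N R) (hp : π.root ≤ p₀) {r : K}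
    (hr : R r r π.root) : ∃ π' : Ty N R, π' ≤ π ∧ ∃ z, Val π' r z := by
  classical
  have hm : ∀ᶠ δ in (U : Filter K), ∃ gz : P × K, gz.1 ≤ π.f δ ∧
      Hv R gz.1 δ (π.d δ) r gz.2 := by
    filter_upwards [hU.ioi r, π.f_le_root, π.hd] with δ h1 h2 h3
    have hC : ({r, π.d δ} : Set K).Countable := (Set.toFinite _).countable
    obtain ⟨q, h4, M, h5, h6⟩ := exists_dcd N h (h2.trans hp) hC
    obtain ⟨z, h7⟩ := hv_ex h (h4.trans (h2.trans hp)) h6 (h5 (by simp)) (h5 (by simp))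
      (h.mono' h4 h3.2) (h.mono' (h4.trans h2) hr) h1
    exact ⟨(q, z), h4, h7⟩
  obtain ⟨gz, hg⟩ : ∃ gz : K → P × K, ∀ᶠ δ in (U : Filter K), (gz δ).1 ≤ π.f δ ∧
      Hv R (gz δ).1 δ (π.d δ) r (gz δ).2 := by
    refine ⟨fun δ => if hd : ∃ gz : P × K, gz.1 ≤ π.f δ ∧
      Hv R gz.1 δ (π.d δ) r gz.2 then hd.choose else (π.f δ, δ), ?_⟩
    filter_upwards [hm] with δ h1
    simp only [dif_pos h1]
    exact h1.choose_spec
  obtain ⟨z, hz⟩ := pd_K hU (fun δ => (gz δ).2) (hg.mono fun δ h1 => h1.2.1)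
  obtain ⟨π', h1, h2, -⟩ := Ty.mk_of h π (fun δ => (gz δ).1) (hg.mono fun δ h1 => h1.1)
  refine ⟨π', h1, z, ?_⟩
  unfold Val
  rw [Ty.le_def] at h1
  filter_upwards [h1, h2, hz, hg] with δ h3 h4 h5 h6
  rw [h4, h3.2, ← h5]
  exact h6.2

theorem Val.field (h : Lad3 R p₀) (hU : NM U) {π : Ty N R} (hp : π.root ≤ p₀) {r z : K}
    (hv : Val π r z) : R z z π.root := by
  refine Ty.root_of hU π (φ := fun q => R z z q) (fun p q h1 h2 => h.mono' h1 h2)
    (fun p h1 => h.dense z z p h1) ?_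
  unfold Val at hv
  filter_upwards [hv, π.f_le_root] with δ h1 h2
  obtain ⟨-, t, -, h3, -⟩ := h1
  exact (h.fld _ (h2.trans hp) _ _ h3).1

end Pool.Agent.EM
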