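import Pool.Agent.EM.LemG
import Pool.Agent.EM.TyB

set_option autoImplicit false

/-!
# EM/Lem3 (difficulty 4): Lemma 3

All types `π c i` have root `p`; `e` is unbounded for `π b false` and `π b true`.

(1) Recursion on `k`: types `τ k ≤ π b false` and values `a k` with `Val (τ k) e (a k)`,
`(τ (k+1)).root ≤ (τ k).root ≤ p`, and `a` strictly increasing: given `τ k` and `a k` apply
`UU (π b false) e` with `p' = (τ k).root` and a `γ > a k` (exists: `hU.ioi`).
Let `pω` be a lower bound of the roots (`N.seq`), so `pω ≤ (τ k).root` for all `k`, `pω ≤ p`.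
`R (a k) (a k) pω` by `Val.field` and `h.mono`.
(2) For `i : Bool` let `ρ i ≤ π (!b) i` be the meet with `pω` (`Ty.meet`): root `pω`.
(3) Apply `lemG` to `pω`, `ρ`, `a`, `T`,
`Cand s y := ∃ σ ≤ π b true, σ.root = s ∧ Val σ e y`.
`hC1`: `Ty.meet` and `Val.mono`.  `hC2`: `Val.field`.  `hC3`: `UU (π b true) e` with `p' = s` gives `σ ≤ π b
true` with `σ.root ≤ s` and `z ≥ γ`; take `s' = σ.root`.
Get `s ≤ pω`, `k`, `y`, `e'`, `σ` with root `s`, `Val σ e y`, `Jn R s (a k) y e'`, `e' ∉ T`, and types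
`ρ' i ≤ ρ i` with root `s` and `UU (ρ' i) e'`.
(4) `π' b false` = meet of `τ k` and `s` (`s ≤ pω ≤ (τ k).root`), value `a k` (`Val.mono`);
`π' b true = σ`; `π' (!b) i = ρ' i`; `z false = a k`, `z true = y`.
(`lemG` is stated for `Fin 2 → Ty N R`; use `![ρ false, ρ true]`.)
-/

namespace Pool.Agent.EM

open Cardinal Set Filter

variable {K : Type} [LinearOrder K] {U : Ultrafilter K} {P : Type} [PartialOrder P]
  {N : Nice U P} {R : K → K → P → Prop} {p₀ : P}

theorem lem3 (h : Lad3 R p₀) (hU : NM U) {p : P} (hp : p ≤ p₀) (π : Bool → Bool → Ty N R)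
    (hπ : ∀ c i, (π c i).root = p) (b : Bool) {e : K} (he : R e e p)
    (hUU : ∀ i, UU (π b i) e) {T : Set K} (hT : T.Countable) :
    ∃ s ≤ p, ∃ π' : Bool → Bool → Ty N R, (∀ c i, π' c i ≤ π c i) ∧ (∀ c i, (π' c i).root = s) ∧
      ∃ z : Bool → K, ∃ e', (∀ i, Val (π' b i) e (z i)) ∧ Jn R s (z false) (z true) e' ∧ e' ∉ T ∧
        ∀ i, UU (π' (!b) i) e' := by
  -- (1) the recursion
  let X := {x : Ty N R × K // x.1 ≤ π b false ∧ Val x.1 e x.2}
  have hx0 : Nonempty X := by
    obtain ⟨τ, h1, _, z, _, h3⟩ := hUU false (π b false).root le_rfl e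
    exact ⟨⟨(τ, z), h1, h3⟩⟩
  obtain ⟨x0⟩ := hx0
  have step : ∀ x : X, ∃ y : X, y.1.1.root ≤ x.1.1.root ∧ x.1.2 < y.1.2 := by
    intro x
    obtain ⟨γ, hγ⟩ := (hU.ioi x.1.2).exists
    obtain ⟨τ, h1, h2, z, h3, h4⟩ := hUU false x.1.1.root (Ty.root_le x.2.1) γ
    exact ⟨⟨(τ, z), h1, h4⟩, h2, hγ.trans_le h3⟩
  choose F hF1 hF2 using step
  let sq : ℕ → X := fun n => Nat.rec x0 (fun _ x => F x) n
  have hsq : ∀ n, sq (n + 1) = F (sq n) := fun n => rfl
  let τ : ℕ → Ty N R := fun n => (sq n).1.1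
  let a : ℕ → K := fun n => (sq n).1.2
  have hτle : ∀ n, τ n ≤ π b false := fun n => (sq n).2.1
  have hτv : ∀ n, Val (τ n) e (a n) := fun n => (sq n).2.2
  have hanti : Antitone fun n => (τ n).root := by
    refine antitone_nat_of_succ_le fun n => ?_
    change (sq (n + 1)).1.1.root ≤ (sq n).1.1.root
    rw [hsq]
    exact hF1 (sq n)
  have hmono : StrictMono a := by
    refine strictMono_nat_of_lt_succ fun n => ?_
    change (sq n).1.2 < (sq (n + 1)).1.2
    rw [hsq]
    exact hF2 (sq n)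
  have hτp : ∀ n, (τ n).root ≤ p := fun n => (Ty.root_le (hτle n)).trans (hπ b false).le
  obtain ⟨pω, hpω1, _⟩ := N.seq _ hanti
  have hpωp : pω ≤ p := (hpω1 0).trans (hτp 0)
  have haR : ∀ k, R (a k) (a k) pω := fun k =>
    h.mono' (hpω1 k) (Val.field h hU ((hτp k).trans hp) (hτv k))
  -- (2)
  have hρ : ∀ i, ∃ ρ : Ty N R, ρ ≤ π (!b) i ∧ ρ.root = pω := by
    intro i
    obtain ⟨ρ, h1, h2, _⟩ := Ty.meet h hU (π (!b) i) (s := pω) (by rw [hπ]; exact hpωp)
    exact ⟨ρ, h1, h2⟩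
  choose ρ hρ1 hρ2 using hρ
  -- (3)
  obtain ⟨s, hs, k, y, e', ⟨σ, hσ1, hσ2, hσ3⟩, hJ, he', hfin⟩ :=
    lemG h hU (hpωp.trans hp) ![ρ false, ρ true]
      (by
        intro i
        fin_cases i
        · exact hρ2 false
        · exact hρ2 true)
      a hmono.injective haR hT
      (Cand := fun s y => ∃ σ : Ty N R, σ ≤ π b true ∧ σ.root = s ∧ Val σ e y)
      (by
        rintro s s' y hss ⟨σ, h1, h2, h3⟩
        obtain ⟨σ', h4, h5, _⟩ := Ty.meet h hU σ (s := s') (by rw [h2]; exact hss)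
        exact ⟨σ', Ty.le_trans h4 h1, h5, Val.mono h h4 h3⟩)
      (by
        rintro s hs y ⟨σ, h1, h2, h3⟩
        rw [← h2]
        refine Val.field h hU ?_ h3
        rw [h2]
        exact hs.trans (hpωp.trans hp))
      (by
        intro s hs γ
        obtain ⟨σ, h1, h2, z, h3, h4⟩ := hUU true s (by rw [hπ]; exact hs.trans hpωp) γ
        exact ⟨σ.root, h2, z, h3, σ, h1, rfl, h4⟩)
  obtain ⟨r0, h0le, h0root, h0UU⟩ := hfin 0
  obtain ⟨r1, h1le, h1root, h1UU⟩ := hfin 1
  have h0le' : r0 ≤ ρ false := h0le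
  have h1le' : r1 ≤ ρ true := h1le
  obtain ⟨τ', ht1, ht2, _⟩ := Ty.meet h hU (τ k) (s := s) (hs.trans (hpω1 k))
  have hbb : ∀ c, c ≠ b → c = !b := by
    intro c hc
    cases c <;> cases b <;> simp_all
  have hnb : (!b) ≠ b := by cases b <;> simp
  -- (4)
  refine ⟨s, hs.trans hpωp, fun c i => if c = b then (cond i σ τ') else (cond i r1 r0), ?_, ?_,
    fun i => cond i y (a k), e', ?_, hJ, he', ?_⟩
  · intro c i
    by_cases hc : c = b
    · subst hc
      cases i
      · simpa using Ty.le_trans ht1 (hτle k)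
      · simpa using hσ1
    · have hc' := hbb c hc
      cases i
      · simp only [hc, if_false, cond_false]
        rw [hc']
        exact Ty.le_trans h0le' (hρ1 false)
      · simp only [hc, if_false, cond_true]
        rw [hc']
        exact Ty.le_trans h1le' (hρ1 true)
  · intro c i
    by_cases hc : c = b
    · subst hc
      cases i
      · simpa using ht2
      · simpa using hσ2
    · cases i
      · simpa [hc] using h0root
      · simpa [hc] using h1root
  · intro i
    cases i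
    · simpa using Val.mono h ht1 (hτv k)
    · simpa using hσ3
  · intro i
    cases i
    · simpa [hnb] using h0UU
    · simpa [hnb] using h1UU

end Pool.Agent.EM
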