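import Pool.Agent.EM.StepG

set_option autoImplicit false

/-!
# EM/LemG (difficulty 4): Lemma G

Suppose not: `hneg` of `stepG` (for all `s ≤ p`, `k`, `y`, `e'` with `Cand s y`, `Jn R s (a k) y e'`,
`e' ∉ T` there is `i` such that no `π' ≤ π i` with `π'.root = s` has `UU π' e'`).
Choose (all these properties hold for almost all `x`: `cofPt`, `decPt`, `bdPt`, `candPt`, `ev_supp`,
`hU.ioi` with `hU.cc`) a point `x` with `hx1` ... `hx6` of `stepG`.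
By `h.unb` there are `s₁ ≤ p` and `xh ≥ x` with `R xh xh s₁`.
Choose `δ 0` (almost all work) with: `xh < δ 0`, `N.supp (δ 0) s₁`, `CloPt R p₀ (δ 0)` (`cloPt`),
`GoodPt (π 0) (δ 0)` (`goodPt`), `hd`, and `r₀ ≤ (π 0).f (δ 0)`, `r₀ ≤ s₁` (`meet_pt`; `s₁ ≤ p =
(π 0).root`).  Then `δ 1` in the same way for `r₀ ≤ p = (π 1).root`: `r₁ ≤ (π 1).f (δ 1)`, `r₁ ≤ r₀`.
By `exists_dcd` there are `q ≤ r₁` and `M ⊇ T ∪ range a ∪ {xh, (π 0).d (δ 0), (π 1).d (δ 1)}` with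
`Dcd R q M`.  Apply `stepG`.
-/

namespace Pool.Agent.EM

open Cardinal Set Filter

variable {K : Type} [LinearOrder K] {U : Ultrafilter K} {P : Type} [PartialOrder P]
  {N : Nice U P} {R : K → K → P → Prop} {p₀ : P}

private theorem LemG_delta (h : Lad3 R p₀) (hU : NM U) (π : Ty N R) {r : P} (hr : r ≤ π.root)
    (xh : K) :
    ∃ δ, xh < δ ∧ CloPt R p₀ δ ∧ GoodPt π δ ∧ δ ≤ π.d δ ∧ R (π.d δ) (π.d δ) (π.f δ) ∧
      ∃ r', r' ≤ π.f δ ∧ r' ≤ r := by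
  have h1 : ∀ᶠ δ in (U : Filter K), xh < δ ∧ CloPt R p₀ δ ∧ GoodPt π δ ∧ δ ≤ π.d δ ∧
      R (π.d δ) (π.d δ) (π.f δ) ∧ ∃ r', r' ≤ π.f δ ∧ r' ≤ r := by
    filter_upwards [hU.ioi xh, cloPt N h hU, goodPt h hU π, π.hd, meet_pt hU π hr] with
      δ h1 h2 h3 h4 h5
    obtain ⟨r', h6, h7, -, -⟩ := h5
    exact ⟨h1, h2, h3, h4.1, h4.2, r', h6, h7⟩
  exact h1.exists

theorem lemG (h : Lad3 R p₀) (hU : NM U) {p : P} (hp : p ≤ p₀) (π : Fin 2 → Ty N R)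
    (hπ : ∀ i, (π i).root = p) (a : ℕ → K) (ha : Function.Injective a)
    (haR : ∀ k, R (a k) (a k) p) {T : Set K} (hT : T.Countable) {Cand : P → K → Prop}
    (hC1 : ∀ s s' y, s' ≤ s → Cand s y → Cand s' y) (hC2 : ∀ s ≤ p, ∀ y, Cand s y → R y y s)
    (hC3 : ∀ s ≤ p, ∀ γ, ∃ s' ≤ s, ∃ y, γ ≤ y ∧ Cand s' y) :
    ∃ s ≤ p, ∃ k y e', Cand s y ∧ Jn R s (a k) y e' ∧ e' ∉ T ∧
      ∀ i, ∃ π' : Ty N R, π' ≤ π i ∧ π'.root = s ∧ UU π' e' := by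
  by_contra hcon
  have hneg : ∀ s ≤ p, ∀ k y e', Cand s y → Jn R s (a k) y e' → e' ∉ T →
      ∃ i, ∀ π' : Ty N R, π' ≤ π i → π'.root = s → ¬ UU π' e' := by
    intro s hs k y e' hC hJ hT'
    by_contra hall
    refine hcon ⟨s, hs, k, y, e', hC, hJ, hT', fun i => ?_⟩
    by_contra hi
    exact hall ⟨i, fun π' h1 h2 h3 => hi ⟨π', h1, h2, h3⟩⟩
  have hcc := hU.cc
  have hx : ∀ᶠ x in (U : Filter K), CofPt x ∧ DecPt N R p₀ x ∧ (∀ i, BdPt (π i) x) ∧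
      CandPt N Cand p x ∧ N.supp x p ∧ ∀ k, a k < x := by
    filter_upwards [cofPt hU, decPt N h hU, bdPt h hU (π 0), bdPt h hU (π 1),
      candPt (N := N) hU hC3, ev_supp (N := N) hU p,
      eventually_countable_forall.2 fun k => hU.ioi (a k)] with x h1 h2 h3 h4 h5 h6 h7
    exact ⟨h1, h2, Fin.forall_fin_two.2 ⟨h3, h4⟩, h5, h6, h7⟩
  obtain ⟨x, hx1, hx2, hx3, hx4, hx5, hx6⟩ := hx.exists
  obtain ⟨s₁, hs₁, xh, hxh, hRxh⟩ := h.unb p hp x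
  obtain ⟨δ0, hδ01, hδ02, hδ03, hδ04, hδ05, r0, hr0, hr0'⟩ :=
    LemG_delta h hU (π 0) (r := s₁) (by rw [hπ 0]; exact hs₁) xh
  obtain ⟨δ1, hδ11, hδ12, hδ13, hδ14, hδ15, r1, hr1, hr1'⟩ :=
    LemG_delta h hU (π 1) (r := r0) (by rw [hπ 1]; exact hr0'.trans hs₁) xh
  obtain ⟨δ, hδ0, hδ1⟩ : ∃ δ : Fin 2 → K, δ 0 = δ0 ∧ δ 1 = δ1 := ⟨![δ0, δ1], rfl, rfl⟩
  subst hδ0 hδ1
  have hr1p : r1 ≤ p := hr1'.trans (hr0'.trans hs₁)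
  obtain ⟨q, hq, M, hCM, hM⟩ := exists_dcd N h (hr1p.trans hp)
    (C := T ∪ (range a ∪ {xh, (π 0).d (δ 0), (π 1).d (δ 1)}))
    (hT.union ((countable_range a).union (Set.Finite.countable (by simp))))
  have hq0 : q ≤ r0 := hq.trans hr1'
  refine stepG h hU hp π hπ a ha haR hC1 hC2 hneg hx1 hx2 hx3 hx4 hx5 hx6 δ hxh
    (Fin.forall_fin_two.2 ⟨hδ01, hδ11⟩) (Fin.forall_fin_two.2 ⟨hδ02, hδ12⟩)
    (Fin.forall_fin_two.2 ⟨hδ03, hδ13⟩) (Fin.forall_fin_two.2 ⟨hδ04, hδ14⟩)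
    (hq.trans hr1p) (Fin.forall_fin_two.2 ⟨hq0.trans hr0, hq.trans hr1⟩)
    (Fin.forall_fin_two.2 ⟨h.mono' (hq0.trans hr0) hδ05, h.mono' (hq.trans hr1) hδ15⟩)
    (h.mono' (hq0.trans hr0') hRxh) hM
    (fun t ht => hCM (Or.inl ht)) (Fin.forall_fin_two.2 ⟨?_, ?_⟩) ?_ ?_
  · exact hCM (Or.inr (Or.inr (by simp)))
  · exact hCM (Or.inr (Or.inr (by simp)))
  · exact hCM (Or.inr (Or.inr (by simp)))
  · exact fun k => hCM (Or.inr (Or.inl ⟨k, rfl⟩))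

end Pool.Agent.EM
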