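import Pool.Agent.EM.Base

set_option autoImplicit false

/-!
# EM/MBase (difficulty 3): measurable cardinals, first facts
-/

namespace Pool.Agent.EM

open Cardinal Set Filter

/-- `U` is a `κ`-complete nonprincipal ultrafilter on `WO κ`, and `κ` is uncountable. -/
structure CU (κ : Cardinal.{0}) (U : Ultrafilter (WO κ)) : Prop where
  unc : ℵ₀ < κ
  np : ∀ x : WO κ, {x} ∉ U
  comp : ∀ S : Set (Set (WO κ)), #S < κ → (∀ s ∈ S, s ∈ U) → ⋂₀ S ∈ U

variable {κ : Cardinal.{0}} {U : Ultrafilter (WO κ)}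

theorem CU.iInter (h : CU κ U) {ι : Type} (hι : #ι < κ) (S : ι → Set (WO κ))
    (hS : ∀ i, S i ∈ U) : ⋂ i, S i ∈ U := by
  have h1 := h.comp (range S) (lt_of_le_of_lt mk_range_le hι) (by
    rintro s ⟨i, rfl⟩
    exact hS i)
  rwa [sInter_range] at h1

theorem CU.cc (h : CU κ U) : CountableInterFilter (U : Filter (WO κ)) := by
  refine ⟨fun S hS hmem => ?_⟩
  exact h.comp S (lt_of_le_of_lt (le_aleph0_iff_set_countable.2 hS) h.unc) hmem

theorem CU.const (h : CU κ U) {T : Type} (hT : #T < κ) (f : WO κ → T) :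
    ∃ t, ∀ᶠ δ in (U : Filter (WO κ)), f δ = t := by
  by_contra hcon
  push Not at hcon
  have h1 : ∀ t, {δ | f δ ≠ t} ∈ U := by
    intro t
    exact hcon t
  have h4 := h.iInter hT _ h1
  have h5 : (⋂ t, {δ | f δ ≠ t}) = (∅ : Set (WO κ)) := by
    ext δ
    simp only [mem_iInter, mem_empty_iff_false, iff_false]
    intro hall
    exact hall (f δ) rfl
  rw [h5] at h4
  exact Ultrafilter.empty_notMem h4

theorem CU.iic (h : CU κ U) (x : WO κ) : #(Iic x) < κ := by
  have h1 : #(Iio x) < κ := by simpa using mk_Iio_lt x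
  have h2 : #(Iic x) ≤ #(Iio x) + 1 := by
    rw [← Iio_insert]
    exact mk_insert_le
  exact lt_of_le_of_lt h2 (add_lt_of_lt h.unc.le h1 (one_lt_aleph0.trans h.unc))

theorem CU.ioi (h : CU κ U) (x : WO κ) : ∀ᶠ δ in (U : Filter (WO κ)), x < δ := by
  have h1 : ⋂ y : Iic x, ({y.1}ᶜ : Set (WO κ)) ∈ U :=
    h.iInter (h.iic x) _ fun y => Ultrafilter.compl_mem_iff_notMem.2 (h.np y.1)
  filter_upwards [h1] with δ hδ
  by_contra hlt
  have hle : δ ≤ x := not_lt.1 hlt
  have h2 := mem_iInter.1 hδ ⟨δ, hle⟩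
  exact h2 rfl

end Pool.Agent.EM
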