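import Pool.Agent.EM.MReg

set_option autoImplicit false

/-!
# EM/MNorm (difficulty 4): normal measures on measurable cardinals
-/

namespace Pool.Agent.EM

open Cardinal Set Filter

variable {κ : Cardinal.{0}} {U : Ultrafilter (WO κ)}

theorem MNorm_wf (h : CU κ U) :
    WellFounded (fun g' g : WO κ → WO κ => ∀ᶠ δ in (U : Filter (WO κ)), g' δ < g δ) := by
  rw [wellFounded_iff_isEmpty_descending_chain]
  constructor
  rintro ⟨g, hg⟩
  have := h.cc
  have h1 : ∀ᶠ δ in (U : Filter (WO κ)), ∀ n : ℕ, g (n + 1) δ < g n δ :=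
    eventually_countable_forall.2 hg
  obtain ⟨δ, hδ⟩ := h1.exists
  have hwf : WellFounded (fun a b : WO κ => a < b) := IsWellFounded.wf
  rw [wellFounded_iff_isEmpty_descending_chain] at hwf
  exact hwf.false ⟨fun n => g n δ, hδ⟩

theorem exists_nm (h : CU κ U) : ∃ V : Ultrafilter (WO κ), NM V := by
  obtain ⟨g, hg, hmin⟩ := (MNorm_wf h).has_min
    {g : WO κ → WO κ | ∀ x, ∀ᶠ δ in (U : Filter (WO κ)), x < g δ} ⟨id, h.ioi⟩
  refine ⟨U.map g, ?_⟩
  have hmap : ∀ p : WO κ → Prop, (∀ᶠ δ in ((U.map g : Ultrafilter (WO κ)) : Filter (WO κ)), p δ) ↔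
      ∀ᶠ δ in (U : Filter (WO κ)), p (g δ) := fun p => Iff.rfl
  refine ⟨fun x => (hmap _).2 (hg x), ?_, ?_, ?_⟩
  · have := h.cc
    rw [Ultrafilter.coe_map]
    infer_instance
  · intro f hf
    have hf' := (hmap _).1 hf
    have h1 : ¬ ∀ x, ∀ᶠ δ in (U : Filter (WO κ)), x < f (g δ) := by
      intro hx
      exact hmin (f ∘ g) hx hf'
    push Not at h1
    obtain ⟨x, hx⟩ := h1
    have hx' : ∀ᶠ δ in (U : Filter (WO κ)), f (g δ) ≤ x := hx
    obtain ⟨⟨z, hz⟩, hzz⟩ := h.const (T := Iic x) (h.iic x)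
      (fun δ => if hd : f (g δ) ≤ x then ⟨f (g δ), hd⟩ else ⟨x, le_refl x⟩)
    refine ⟨z, (hmap _).2 ?_⟩
    filter_upwards [hzz, hx'] with δ h3 h4
    simp only [h4, dite_true] at h3
    exact congrArg Subtype.val h3
  · intro f
    have hW : #W1 < κ := by
      have h1 : #W1 = ℵ_ 1 := by simp [W1]
      have h2 : ℵ_ 1 ≤ 2 ^ ℵ₀ := by
        rw [Cardinal.two_power_aleph0]
        exact Cardinal.aleph_one_le_continuum
      rw [h1]
      exact h2.trans_lt (h.two_power h.unc)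
    obtain ⟨ξ, hξ⟩ := h.const hW (f ∘ g)
    exact ⟨ξ, (hmap _).2 hξ⟩

theorem exists_code (h : CU κ U) :
    ∃ c : {F : Set (WO κ) // F.Countable} → WO κ, Function.Injective c := by
  have hmk : #(WO κ) = κ := by simp [WO]
  have hsl : IsStrongPrelimit #(WO κ) := by
    rw [hmk]
    intro x hx
    exact h.two_power hx
  have hb := mk_bounded_subset (α := WO κ) hsl (r := (· < ·)) (by
    rw [hmk]; exact (Ordinal.type_toType _).symm)
  have hbd : ∀ F : {F : Set (WO κ) // F.Countable}, Bounded (· < ·) F.1 := by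
    rintro ⟨F, hF⟩
    have := h.cc
    have := hF.to_subtype
    have h1 : ∀ᶠ δ in (U : Filter (WO κ)), ∀ c : F, c.1 < δ :=
      eventually_countable_forall.2 fun c => h.ioi c.1
    obtain ⟨δ, hδ⟩ := h1.exists
    exact ⟨δ, fun c hc => hδ ⟨c, hc⟩⟩
  have hle : #{F : Set (WO κ) // F.Countable} ≤ #(WO κ) := by
    rw [← hb]
    exact Cardinal.mk_le_of_injective
      (f := fun F : {F : Set (WO κ) // F.Countable} =>
        (⟨F.1, hbd F⟩ : {s : Set (WO κ) // Bounded (· < ·) s}))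
      (fun F G hFG => Subtype.ext (congrArg (fun x => x.1) hFG))
  obtain ⟨c⟩ := Cardinal.le_def _ _ |>.1 hle
  exact ⟨c, c.injective⟩

end Pool.Agent.EM
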