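import Pool.Agent.EM.MBase

set_option autoImplicit false

/-!
# EM/MReg (difficulty 3): measurable cardinals are inaccessible
-/

namespace Pool.Agent.EM

open Cardinal Set Filter

variable {κ : Cardinal.{0}} {U : Ultrafilter (WO κ)}

theorem CU.regular (h : CU κ U) : κ.IsRegular := by
  refine ⟨h.unc.le, ?_⟩
  rw [← Ordinal.cof_toType, Order.le_cof_iff]
  intro s hs
  by_contra hlt
  have hlt' : #s < κ := not_le.1 hlt
  have h1 : ⋂ y : s, Ioi y.1 ∈ U := h.iInter hlt' _ fun y => h.ioi y.1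
  obtain ⟨δ, hδ⟩ := Ultrafilter.nonempty_of_mem h1
  obtain ⟨y, hy, hle⟩ := hs δ
  have h2 : y < δ := mem_iInter.1 hδ ⟨y, hy⟩
  exact absurd hle (not_le.2 h2)

theorem CU.two_power (h : CU κ U) {a : Cardinal.{0}} (ha : a < κ) : 2 ^ a < κ := by
  by_contra hcon
  have hle : κ ≤ 2 ^ a := not_lt.1 hcon
  obtain ⟨A, rfl⟩ : ∃ A : Type, #A = a := ⟨a.out, Cardinal.mk_out a⟩
  have h1 : #(WO κ) ≤ #(Set A) := by
    rw [Cardinal.mk_set]
    simpa [WO] using hle
  obtain ⟨g⟩ := (Cardinal.le_def _ _).1 h1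
  have h2 : ∀ i : A, ∃ t : Prop, ∀ᶠ δ in (U : Filter (WO κ)), (i ∈ g δ) = t := by
    intro i
    exact h.const (T := Prop) (by
      have h3 : #Prop = 2 := by simp
      rw [h3]
      exact lt_trans (Cardinal.natCast_lt_aleph0 (n := 2)) h.unc) (fun δ => i ∈ g δ)
  choose t ht using h2
  have h3 : ⋂ i : A, {δ | (i ∈ g δ) = t i} ∈ U := h.iInter ha _ ht
  obtain ⟨δ, hδ⟩ := Ultrafilter.nonempty_of_mem h3
  refine h.np δ ?_
  filter_upwards [h3] with δ' hδ'
  apply g.injective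
  ext i
  have h4 : (i ∈ g δ) = t i := mem_iInter.1 hδ i
  have h5 : (i ∈ g δ') = t i := mem_iInter.1 hδ' i
  rw [h4, h5]

end Pool.Agent.EM
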