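import Pool.Agent.EM.PDL

set_option autoImplicit false

/-!
# EM/PNice (difficulty 2): products of nice posets
-/

namespace Pool.Agent.EM

open Cardinal Set Filter

variable {K : Type} [LinearOrder K] {U : Ultrafilter K}

theorem niceProd {P₁ P₂ : Type} [PartialOrder P₁] [PartialOrder P₂] (N₁ : Nice U P₁)
    (N₂ : Nice U P₂) : ∃ N : Nice U (P₁ × P₂),
      (∀ x p, N.supp x p ↔ N₁.supp x p.1 ∧ N₂.supp x p.2) ∧
      ∀ x p, N.res x p = (N₁.res x p.1, N₂.res x p.2) := by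
  refine ⟨{ supp := fun x p => N₁.supp x p.1 ∧ N₂.supp x p.2
            res := fun x p => (N₁.res x p.1, N₂.res x p.2)
            supp_mono := fun h hp => ⟨N₁.supp_mono h hp.1, N₂.supp_mono h hp.2⟩
            supp_ex := fun p => ?_
            supp_res := fun x p => ⟨N₁.supp_res x _, N₂.supp_res x _⟩
            le_res := fun x p => ⟨N₁.le_res x _, N₂.le_res x _⟩
            res_mono := fun x p q h => ⟨N₁.res_mono x h.1, N₂.res_mono x h.2⟩
            res_of_supp := fun {x p} h => Prod.ext (N₁.res_of_supp h.1) (N₂.res_of_supp h.2)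
            amal := fun x p q h1 h2 => ?_
            seq := fun p hp => ?_
            pd := pd_prod N₁.pd N₂.pd }, fun _ _ => Iff.rfl, fun _ _ => rfl⟩
  · obtain ⟨x, hx⟩ := N₁.supp_ex p.1
    obtain ⟨y, hy⟩ := N₂.supp_ex p.2
    exact ⟨max x y, N₁.supp_mono (le_max_left _ _) hx, N₂.supp_mono (le_max_right _ _) hy⟩
  · obtain ⟨r₁, a1, a2, a3, a4, a5⟩ := N₁.amal x p.1 q.1 h1.1 h2.1
    obtain ⟨r₂, b1, b2, b3, b4, b5⟩ := N₂.amal x p.2 q.2 h1.2 h2.2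
    exact ⟨(r₁, r₂), ⟨a1, b1⟩, ⟨a2, b2⟩, fun s h3 h4 => ⟨a3 _ h3.1 h4.1, b3 _ h3.2 h4.2⟩,
      Prod.ext a4 b4, fun y hy h3 => ⟨a5 y hy h3.1, b5 y hy h3.2⟩⟩
  · obtain ⟨r₁, a1, a2, a3, a4⟩ := N₁.seq (fun n => (p n).1) (fun m n h => (hp h).1)
    obtain ⟨r₂, b1, b2, b3, b4⟩ := N₂.seq (fun n => (p n).2) (fun m n h => (hp h).2)
    exact ⟨(r₁, r₂), fun n => ⟨a1 n, b1 n⟩, fun s h => ⟨a2 _ fun n => (h n).1, b2 _ fun n => (h n).2⟩,
      fun x h => ⟨a3 x fun n => (h n).1, b3 x fun n => (h n).2⟩,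
      fun x s h => ⟨a4 x _ fun n => (h n).1, b4 x _ fun n => (h n).2⟩⟩

end Pool.Agent.EM
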