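import Pool.Agent.EM.FinM
import Pool.Agent.EM.CNice
import Pool.Agent.EM.LNice
import Pool.Agent.EM.PNice
import Pool.Agent.EM.GLat
import Pool.Agent.EM.ASen
import Pool.Agent.EM.ASenB
import Pool.Agent.EM.Crd
import Pool.Agent.EM.CrdB
import Pool.Agent.EM.BUnf
import Pool.Agent.EM.MNorm

set_option autoImplicit false

/-!
# EM/Main: assembly
-/

namespace Pool.Agent.EM

open Cardinal Set Filter

theorem measurableAnotB : MeasurableAnotB := by
  intro κ hκ
  obtain ⟨h1, U₀, h2, h3⟩ := hκ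
  have hCU : CU κ U₀ := ⟨h1, h2, h3⟩
  obtain ⟨U, hU⟩ := exists_nm hCU
  obtain ⟨c, hc⟩ := exists_code hCU
  obtain ⟨N₁, -, -⟩ := niceCond hU
  obtain ⟨N₂, -, -⟩ := niceCol hU
  obtain ⟨N, -, -⟩ := niceProd N₁ N₂
  have hg := genLat hU c hc
  refine ⟨PP (WO κ), inferInstance, ⟨(default, default)⟩, fun p => ⟨⟨?_, ?_, ?_⟩, ?_, ?_⟩⟩
  · exact not_leCard_W1 N p
  · exact fun β => leCard_Iic β p
  · exact not_leCard_of_unb N hU (fun _ _ _ _ h => h) fun q _ γ => ⟨q, le_rfl, γ, le_rfl, trivial⟩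
  · intro q _
    refine ⟨q, le_rfl, GN _ c, isLat hg q, ?_, isJ3 hg q, ctblId hg q⟩
    exact not_leCard_of_unb N hU (fun x p q h => (GN _ c).mono x x p q h) fun r _ γ =>
      unbounded hg r γ
  · intro q _ hB
    obtain ⟨q', _, R, hR⟩ := lad3_of_senB (fun β p => leCard_Iic β p) hB
    exact notLad3 N hU hR

end Pool.Agent.EM
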