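import Pool.Agent.EM.Lem3
import Pool.Agent.EM.Init

set_option autoImplicit false

/-!
# EM/SeqM (difficulty 3): the recursion

State: `(p, π, b, e, T)` with `p ≤ p₀`, `(π c i).root = p`, `R e e p`, `UU (π b i) e` for both `i`,
`T : Set K` countable with `e ∈ T`.  Start: `init`, `π c i = π` for all `c`, `i`, `T = {e}`.
Step: `lem3`; new state `(s, π', !b, e', insert e' T)`, with `e' ∉ T`; `R e' e' s` by `Jn.field`.
Define the sequence of states by recursion (with choice; e.g. `Nat.rec` on a subtype / structure of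
states, or `exists_seq`-like lemma), then read off the components.  `e` is injective because
`e m ∈ T n` for `m ≤ n` and `e (n+1) ∉ T n`.
-/

namespace Pool.Agent.EM

open Cardinal Set Filter

variable {K : Type} [LinearOrder K] {U : Ultrafilter K} {P : Type} [PartialOrder P]
  {R : K → K → P → Prop} {p₀ : P}

/-- States of the recursion. -/
private structure SeqM_St (N : Nice U P) (R : K → K → P → Prop) (p₀ : P) where
  p : P
  π : Bool → Bool → Ty N R
  b : Bool
  e : K
  T : Set K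
  hp : p ≤ p₀
  hπ : ∀ c i, (π c i).root = p
  he : R e e p
  hUU : ∀ i, UU (π b i) e
  hT : T.Countable
  heT : e ∈ T

private theorem SeqM_start (N : Nice U P) (h : Lad3 R p₀) (hU : NM U) :
    Nonempty (SeqM_St N R p₀) := by
  obtain ⟨p, hp, π, hπ, e, he, hUU⟩ := init N h hU
  exact ⟨⟨p, fun _ _ => π, true, e, {e}, hp, fun _ _ => hπ, he, fun _ => hUU,
    countable_singleton e, rfl⟩⟩

private theorem SeqM_step (N : Nice U P) (h : Lad3 R p₀) (hU : NM U) (x : SeqM_St N R p₀) :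
    ∃ y : SeqM_St N R p₀, ∃ z : Bool → K, y.p ≤ x.p ∧ (∀ c i, y.π c i ≤ x.π c i) ∧
      x.T ⊆ y.T ∧ y.e ∉ x.T ∧ (∀ i, Val (y.π x.b i) x.e (z i)) ∧
      Jn R y.p (z false) (z true) y.e := by
  obtain ⟨s, hs, π', h1, h2, z, e', h3, h4, h5, h6⟩ :=
    lem3 h hU x.hp x.π x.hπ x.b x.he x.hUU x.hT
  exact ⟨⟨s, π', !x.b, e', insert e' x.T, hs.trans x.hp, h2, h4.field h (hs.trans x.hp), h6,
    x.hT.insert e', mem_insert _ _⟩, z, hs, h1, subset_insert _ _, h5, h3, h4⟩

theorem seqM (N : Nice U P) (h : Lad3 R p₀) (hU : NM U) :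
    ∃ (p : ℕ → P) (π : ℕ → Bool → Bool → Ty N R) (b : ℕ → Bool) (e : ℕ → K) (z : ℕ → Bool → K),
      (∀ n, p n ≤ p₀) ∧ (∀ n, p (n + 1) ≤ p n) ∧ (∀ n c i, π (n + 1) c i ≤ π n c i) ∧
      (∀ n c i, (π n c i).root = p n) ∧ Function.Injective e ∧ (∀ n, R (e n) (e n) (p n)) ∧
      (∀ n i, Val (π (n + 1) (b n) i) (e n) (z n i)) ∧
      ∀ n, Jn R (p (n + 1)) (z n false) (z n true) (e (n + 1)) := by
  obtain ⟨x0⟩ := SeqM_start N h hU
  choose F z hF using SeqM_step N h hU
  let x : ℕ → SeqM_St N R p₀ := fun n => Nat.rec x0 (fun _ y => F y) n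
  have hx : ∀ n, x (n + 1) = F (x n) := fun n => rfl
  have hTm : Monotone fun n => (x n).T := by
    refine monotone_nat_of_le_succ fun n => ?_
    simp only [hx]
    exact (hF (x n)).2.2.1
  have hne : ∀ m n, m < n → (x m).e ≠ (x n).e := by
    intro m n hmn he
    obtain ⟨k, rfl⟩ : ∃ k, n = k + 1 := ⟨n - 1, by omega⟩
    have h1 : (x m).e ∈ (x k).T := hTm (Nat.lt_succ_iff.1 hmn) (x m).heT
    have h2 : (x (k + 1)).e ∉ (x k).T := by
      rw [hx k]
      exact (hF (x k)).2.2.2.1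
    rw [he] at h1
    exact h2 h1
  refine ⟨fun n => (x n).p, fun n => (x n).π, fun n => (x n).b, fun n => (x n).e,
    fun n => z (x n), fun n => (x n).hp, fun n => ?_, fun n c i => ?_, fun n => (x n).hπ, ?_,
    fun n => (x n).he, fun n i => ?_, fun n => ?_⟩
  · simp only [hx]
    exact (hF (x n)).1
  · simp only [hx]
    exact (hF (x n)).2.1 c i
  · intro m n hmn
    rcases lt_trichotomy m n with h1 | h1 | h1
    · exact absurd hmn (hne m n h1)
    · exact h1
    · exact absurd hmn.symm (hne n m h1)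
  · simp only [hx]
    exact (hF (x n)).2.2.2.2.1 i
  · simp only [hx]
    exact (hF (x n)).2.2.2.2.2

end Pool.Agent.EM
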