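import Pool.Agent.EM.TyA2
import Pool.Agent.EM.PDL

set_option autoImplicit false

/-!
# EM/TyC (difficulty 3-4): bounds for values

* `bd_of_not_UU`: let `π' ≤ π` be the meet with `s` (`Ty.meet`, `π'.root = s`).  `¬ UU π' r` gives
  `s' ≤ s` and `γ` such that no `π'' ≤ π'` with `π''.root ≤ s'` has a value `≥ γ`.  If `π'' ≤ π` and
  `π''.root ≤ s'` then `π'' ≤ π'` by the last part of `Ty.meet`.
* `bd_ev`: if not, then (ultrafilter) for almost all `δ` there are `q δ ≤ π.f δ`, `q δ ≤ s` and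
  `z δ ≥ γ` with `Hv R (q δ) δ (π.d δ) r (z δ)`; `z δ < δ`, so `z δ = z` a.e. by `pd_K`.  `Ty.mk_of`
  gives `π' ≤ π` with `π'.f δ = q δ` a.e. and `π'.root = N.res δ (q δ)` a.e.; the root is
  `≤ N.res δ s = s` (for large `δ`, `ev_supp`, `N.res_of_supp`), and `Val π' r z` (`π'.d δ = π.d δ`
  a.e.).  This contradicts `Bd`.
* `goodPt`: `refl_pd` for the product of `N.pd`, `pd_K`, `pd_K` (triples `(s, r, γ)`), using `bd_ev`.
* `bdPt`: `refl_pd` for pairs `(s, r)`: for a fixed pair such that `∃ s' ≤ s, ∃ γ, Bd π s' r γ` fix such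
  `s'`, `γ`; almost all `x` are `> γ` with `N.supp x s'`.
* `candPt`: `refl_pd` for pairs `(s, γ)`.
-/

namespace Pool.Agent.EM

open Cardinal Set Filter

variable {K : Type} [LinearOrder K] {U : Ultrafilter K} {P : Type} [PartialOrder P]
  {N : Nice U P} {R : K → K → P → Prop} {p₀ : P}

theorem bd_of_not_UU (h : Lad3 R p₀) (hU : NM U) (π : Ty N R) {s : P} (hs : s ≤ π.root) {r : K}
    (hn : ∀ π' : Ty N R, π' ≤ π → π'.root = s → ¬ UU π' r) : ∃ s' ≤ s, ∃ γ, Bd π s' r γ := by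
  obtain ⟨π', h1, h2, h3⟩ := Ty.meet h hU π hs
  have h4 := hn π' h1 h2
  unfold UU at h4
  push Not at h4
  obtain ⟨p', hp', γ, h5⟩ := h4
  rw [h2] at hp'
  refine ⟨p', hp', γ, ?_⟩
  intro π'' h6 h7 z hz
  exact h5 π'' (h3 π'' h6 (h7.trans hp')) h7 z hz

theorem bd_ev (h : Lad3 R p₀) (hU : NM U) (π : Ty N R) {s : P} {r γ : K} (hb : Bd π s r γ) :
    ∀ᶠ δ in (U : Filter K), ∀ q ≤ π.f δ, q ≤ s → ∀ z, Hv R q δ (π.d δ) r z → z < γ := by
  by_contra hcon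
  have h1 : ∀ᶠ δ in (U : Filter K), ∃ g : P × K, g.1 ≤ π.f δ ∧ g.1 ≤ s ∧
      Hv R g.1 δ (π.d δ) r g.2 ∧ γ ≤ g.2 := by
    have h2 := Ultrafilter.eventually_not.2 hcon
    filter_upwards [h2] with δ hδ
    push Not at hδ
    obtain ⟨q, hq1, hq2, z, hz1, hz2⟩ := hδ
    exact ⟨(q, z), hq1, hq2, hz1, hz2⟩
  obtain ⟨g, hg⟩ := h1.choice
  obtain ⟨z0, hz0⟩ := pd_K hU (fun δ => (g δ).2) (hg.mono fun δ hδ => hδ.2.2.1.1)
  obtain ⟨π', hle, hf, hroot⟩ := Ty.mk_of h π (fun δ => (g δ).1) (hg.mono fun δ hδ => hδ.1)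
  have hrs : π'.root ≤ s := by
    obtain ⟨δ, h2, h3, h4⟩ := (hroot.and ((ev_supp (N := N) hU s).and hg)).exists
    rw [h2, ← N.res_of_supp h3]
    exact N.res_mono δ h4.2.1
  have hγ : γ ≤ z0 := by
    obtain ⟨δ, h2, h3⟩ := (hz0.and hg).exists
    rw [← h2]
    exact h3.2.2.2
  refine hb π' hle hrs z0 hγ ?_
  rw [Ty.le_def] at hle
  unfold Val
  filter_upwards [hle, hf, hz0, hg] with δ h2 h3 h4 h5
  rw [h3, h2.2, ← h4]
  exact h5.2.2.1

theorem goodPt (h : Lad3 R p₀) (hU : NM U) (π : Ty N R) :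
    ∀ᶠ δ in (U : Filter K), GoodPt π δ := by
  have h1 := refl_pd (pd_prod (pd_prod N.pd (pd_K hU)) (pd_K hU))
    (φ := fun δ t => Bd π t.1.1 t.1.2 t.2 →
      ∀ q ≤ π.f δ, q ≤ t.1.1 → ∀ z, Hv R q δ (π.d δ) t.1.2 z → z < t.2) (by
      intro t
      by_cases hb : Bd π t.1.1 t.1.2 t.2
      · filter_upwards [bd_ev h hU π hb] with δ hδ _
        exact hδ
      · exact Filter.Eventually.of_forall fun δ h2 => absurd h2 hb)
  filter_upwards [h1] with δ hδ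
  intro s hs hsupp r hr γ hγ hb hR
  exact hδ ((s, r), γ) ⟨⟨hsupp, hr⟩, hγ⟩ hb

theorem bdPt (h : Lad3 R p₀) (hU : NM U) (π : Ty N R) :
    ∀ᶠ x in (U : Filter K), BdPt π x := by
  have h1 := refl_pd (pd_prod N.pd (pd_K hU))
    (φ := fun x t => (∃ s' ≤ t.1, ∃ γ, Bd π s' t.2 γ) →
      ∃ s' ≤ t.1, N.supp x s' ∧ ∃ γ < x, Bd π s' t.2 γ) (by
      intro t
      by_cases hb : ∃ s' ≤ t.1, ∃ γ, Bd π s' t.2 γ
      · obtain ⟨s', hs', γ, hγ⟩ := hb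
        filter_upwards [ev_supp (N := N) hU s', hU.ioi γ] with x hx1 hx2 _
        exact ⟨s', hs', hx1, γ, hx2, hγ⟩
      · exact Filter.Eventually.of_forall fun δ h2 => absurd h2 hb)
  filter_upwards [h1] with x hx
  intro s hs hsupp r hr hb
  exact hx (s, r) ⟨hsupp, hr⟩ hb

theorem candPt (hU : NM U) {Cand : P → K → Prop} {p : P}
    (hC : ∀ s ≤ p, ∀ γ, ∃ s' ≤ s, ∃ y, γ ≤ y ∧ Cand s' y) :
    ∀ᶠ x in (U : Filter K), CandPt N Cand p x := by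
  have h1 := refl_pd (pd_prod N.pd (pd_K hU))
    (φ := fun x t => t.1 ≤ p → ∃ s' ≤ t.1, N.supp x s' ∧ ∃ y, t.2 ≤ y ∧ y < x ∧ Cand s' y) (by
      intro t
      by_cases hb : t.1 ≤ p
      · obtain ⟨s', hs', y, hy1, hy2⟩ := hC t.1 hb t.2
        filter_upwards [ev_supp (N := N) hU s', hU.ioi y] with x hx1 hx2 _
        exact ⟨s', hs', hx1, y, hy1, hx2, hy2⟩
      · exact Filter.Eventually.of_forall fun δ h2 => absurd h2 hb)
  filter_upwards [h1] with x hx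
  intro s hs hsupp γ hγ
  exact hx (s, γ) ⟨hsupp, hγ⟩ hs

end Pool.Agent.EM
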