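import Pool.Agent.EM.CoreG
import Pool.Agent.EM.TyC
import Pool.Agent.EM.ClD

set_option autoImplicit false

/-!
# EM/StepG (difficulty 5): steps 5-9 of Lemma G

Setting: `x` is a reflection point, `q` is below `π₀.f δ₀` and `π₁.f δ₁` where `x ≤ xh < δ i`, and `q`
decides the countable set `M ⊇ T`, with `d i = (π i).d (δ i)`, `xh`, `a k` in `M`.

(5) By `CofPt x` there is `γ < x` such that all `c ∈ M` with `c < x` are `< γ`.  Let `s₀ = N.res x q`; it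
is `≤ N.res x p = p`.  By `CandPt` there are `r₄ ≤ s₀` supported below `x` and `y` with
`γ ≤ y < x` and `Cand r₄ y`.  So `y ∉ M`.
(6) By `DecPt` for `r₄`, `{y} ∪ range a`: `r₅ ≤ r₄` supported below `x`, `M' ∋ y, a k` with elements
`< x`, `Dcd R r₅ M'`.  Let `e k ∈ M'` be the join of `a k` and `y` at `r₅` (`a k` and `y` are in the
field).  `e k ∉ T`: there is `u ≤ q, r₅` (`N.amal x q r₅`), and `R y (e k) u`, so `e k ∈ T ⊆ M` would
give `y ∈ M` (`hM.sub`).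
(7) Build `s : ℕ → P` and `j k`, `γ k` with `s 0 = r₅`, `s (k+1) ≤ s k`, all supported below `x`,
`Bd (π (j k)) (s (k+1)) (e k) (γ k)` and `γ k < x`: by `hneg` for `s k` (`Cand (s k) y` by `hC1`,
`Jn R (s k) (a k) y (e k)`) there is `i` with `¬ UU π' (e k)` for all `π' ≤ π i` with root `s k`; so by
`bd_of_not_UU` `∃ s' ≤ s k, ∃ γ, Bd (π i) s' (e k) γ`; now use `BdPt (π i) x`.
Let `sω` be the greatest lower bound; supported below `x`.
(8) `sω ≤ r₅ ≤ r₄ ≤ N.res x q`, so there is `q' ≤ q, sω` (`N.amal x q sω`).  By `exists_dcd` there are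
`q'' ≤ q'` and `M'' ⊇ M ∪ M'` with `Dcd R q'' M''`.
(9) Apply `coreG` to `q''`, `M''`, `δ`, `d i = (π i).d (δ i)`, `xh`, `y`, `a`, `e`, `j`.
`hH`: by `GoodPt (π (j k)) (δ (j k))` for `s (k+1)`, `e k`, `γ k`: `z < γ k < x ≤ xh` (use
`q'' ≤ (π (j k)).f (δ (j k))`, `q'' ≤ s (k+1)`, `e k < x ≤ δ (j k)`, `N.supp_mono`, `R (e k) (e k) _` by
`Jn.field`).
`hyQ`: `d i, xh ∈ M` and `hM` (at `q''`, `Dcd.mono`) give a join in `M`, by uniqueness it is `u`; so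
`u ∈ M`, and in the same way `t ∈ M`; then `R y t q''` gives `y ∈ M` (`hM.sub`), contradiction.
-/

namespace Pool.Agent.EM

open Cardinal Set Filter

variable {K : Type} [LinearOrder K] {U : Ultrafilter K} {P : Type} [PartialOrder P]
  {N : Nice U P} {R : K → K → P → Prop} {p₀ : P}

theorem stepG (h : Lad3 R p₀) (hU : NM U) {p : P} (hp : p ≤ p₀) (π : Fin 2 → Ty N R)
    (hπ : ∀ i, (π i).root = p) (a : ℕ → K) (ha : Function.Injective a)
    (haR : ∀ k, R (a k) (a k) p) {T : Set K} {Cand : P → K → Prop}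
    (hC1 : ∀ s s' y, s' ≤ s → Cand s y → Cand s' y) (hC2 : ∀ s ≤ p, ∀ y, Cand s y → R y y s)
    (hneg : ∀ s ≤ p, ∀ k y e', Cand s y → Jn R s (a k) y e' → e' ∉ T →
      ∃ i, ∀ π' : Ty N R, π' ≤ π i → π'.root = s → ¬ UU π' e')
    {x : K} (hx1 : CofPt x) (hx2 : DecPt N R p₀ x) (hx3 : ∀ i, BdPt (π i) x)
    (hx4 : CandPt N Cand p x) (hx5 : N.supp x p) (hx6 : ∀ k, a k < x)
    (δ : Fin 2 → K) {xh : K} (hxh : x ≤ xh) (hδ1 : ∀ i, xh < δ i)
    (hδ2 : ∀ i, CloPt R p₀ (δ i)) (hδ3 : ∀ i, GoodPt (π i) (δ i))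
    (hδ4 : ∀ i, δ i ≤ (π i).d (δ i)) {q : P} (hqp : q ≤ p) (hq : ∀ i, q ≤ (π i).f (δ i))
    (hq2 : ∀ i, R ((π i).d (δ i)) ((π i).d (δ i)) q) (hq3 : R xh xh q)
    {M : Set K} (hM : Dcd R q M) (hTM : T ⊆ M) (hdM : ∀ i, (π i).d (δ i) ∈ M) (hxM : xh ∈ M)
    (haM : ∀ k, a k ∈ M) : False := by
  -- step 5
  obtain ⟨γ, hγx, hγ⟩ := hx1 {c | c ∈ M ∧ c < x} (hM.ctbl.mono fun c hc => hc.1)
    (fun c hc => hc.2)
  have hs0 : N.res x q ≤ p := by
    have h1 := N.res_mono x hqp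
    rwa [N.res_of_supp hx5] at h1
  obtain ⟨r4, hr4, hr4s, y, hγy, hyx, hcand⟩ := hx4 (N.res x q) hs0 (N.supp_res x q) γ hγx
  have hyM : y ∉ M := fun hy => absurd (hγ y ⟨hy, hyx⟩) (not_lt.2 hγy)
  have hr4p : r4 ≤ p := hr4.trans hs0
  -- step 6
  obtain ⟨r5, hr5, hr5s, M', hCM', hM'x, hM'⟩ := hx2 r4 (hr4p.trans hp) hr4s
    (insert y (Set.range a)) ((Set.countable_range a).insert y) (by
      rintro c (rfl | ⟨k, rfl⟩)
      · exact hyx
      · exact hx6 k)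
  have hr5p : r5 ≤ p := hr5.trans hr4p
  have hyM' : y ∈ M' := hCM' (Set.mem_insert _ _)
  have haM' : ∀ k, a k ∈ M' := fun k => hCM' (Set.mem_insert_of_mem _ ⟨k, rfl⟩)
  have hyR5 : R y y r5 := h.mono' hr5 (hC2 r4 hr4p y hcand)
  have haR5 : ∀ k, R (a k) (a k) r5 := fun k => h.mono' hr5p (haR k)
  choose e heM' heJ using fun k => hM'.join (a k) (haM' k) y hyM' (haR5 k) hyR5
  have hex : ∀ k, e k < x := fun k => hM'x _ (heM' k)
  have heT : ∀ k, e k ∉ T := by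
    intro k hk
    obtain ⟨u, hu1, hu2, -⟩ := N.amal x q r5 hr5s (hr5.trans hr4)
    exact hyM (hM.sub (e k) (hTM hk) y u hu1 (h.mono' hu2 (heJ k).2.1))
  -- step 7
  have hstep : ∀ (k : ℕ) (s : {s : P // s ≤ r5 ∧ N.supp x s}),
      ∃ (s' : {s : P // s ≤ r5 ∧ N.supp x s}) (i : Fin 2) (g : K),
        s'.1 ≤ s.1 ∧ g < x ∧ Bd (π i) s'.1 (e k) g := by
    rintro k ⟨s, hs, hss⟩
    have hsp : s ≤ p := hs.trans hr5p
    obtain ⟨i, hi⟩ := hneg s hsp k y (e k) (hC1 r4 s y (hs.trans hr5) hcand)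
      ((heJ k).mono h hs) (heT k)
    have hsr : s ≤ (π i).root := by rw [hπ i]; exact hsp
    obtain ⟨s', hs', hs's, g, hg, hb⟩ := hx3 i s hsr hss (e k) (hex k)
      (bd_of_not_UU h hU (π i) hsr hi)
    exact ⟨⟨s', hs'.trans hs, hs's⟩, i, g, hs', hg, hb⟩
  choose nxt j' g' hn1 hn2 hn3 using hstep
  let S : ℕ → {s : P // s ≤ r5 ∧ N.supp x s} := fun n => Nat.rec ⟨r5, le_rfl, hr5s⟩ (fun k s => nxt k s) n
  have hS : ∀ n, S (n + 1) = nxt n (S n) := fun n => rfl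
  have hSanti : Antitone fun n => (S n).1 := antitone_nat_of_succ_le fun n => hn1 n (S n)
  obtain ⟨sw, hsw1, -, hsw2, -⟩ := N.seq (fun n => (S n).1) hSanti
  have hsws : N.supp x sw := hsw2 x fun n => (S n).2.2
  have hswr5 : sw ≤ r5 := (hsw1 0).trans (S 0).2.1
  -- step 8
  obtain ⟨q', hq'1, hq'2, -⟩ := N.amal x q sw hsws (hswr5.trans (hr5.trans hr4))
  obtain ⟨q2, hq2q', M2, hM2, hdM2⟩ := exists_dcd N h (hq'1.trans (hqp.trans hp))
    (hM.ctbl.union hM'.ctbl)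
  have hq2q : q2 ≤ q := hq2q'.trans hq'1
  have hq2sw : q2 ≤ sw := hq2q'.trans hq'2
  have hq2r5 : q2 ≤ r5 := hq2sw.trans hswr5
  have hq2p : q2 ≤ p₀ := hq2q.trans (hqp.trans hp)
  have hMM2 : ∀ c ∈ M, c ∈ M2 := fun c hc => hM2 (Or.inl hc)
  have hMM2' : ∀ c ∈ M', c ∈ M2 := fun c hc => hM2 (Or.inr hc)
  have hMq : Dcd R q2 M := hM.mono h hq2q
  have hyxh : y < xh := lt_of_lt_of_le hyx hxh
  refine coreG h hq2p hdM2 δ (fun i => (π i).d (δ i)) xh y a e (fun k => j' k (S k))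
    hδ2 hδ4 (fun i => hMM2 _ (hdM i)) (fun i => h.mono' hq2q (hq2 i)) (hMM2 _ hxM)
    (h.mono' hq2q hq3) (hMM2' _ hyM') (h.mono' hq2r5 hyR5) (fun k => hMM2 _ (haM k))
    (fun k => h.mono' hq2r5 (haR5 k)) (fun k => hMM2' _ (heM' k)) hδ1
    (fun i => hyxh.trans (hδ1 i)) (fun k i => ((hx6 k).trans_le hxh).trans (hδ1 i)) ha
    (fun k => (heJ k).mono h hq2r5) ?_ ?_
  · intro k z hz
    have hxδ : x < δ (j' k (S k)) := hxh.trans_lt (hδ1 _)
    have hSk : (S (k + 1)).1 ≤ p := (S (k + 1)).2.1.trans hr5p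
    have hSr : (S (k + 1)).1 ≤ (π (j' k (S k))).root := by rw [hπ]; exact hSk
    have h1 := hδ3 (j' k (S k)) (S (k + 1)).1 hSr (N.supp_mono hxδ.le (S (k + 1)).2.2) (e k)
      ((hex k).trans hxδ) (g' k (S k)) ((hn2 k (S k)).trans hxδ) (hn3 k (S k))
      (((heJ k).mono h (S (k + 1)).2.1).field h (hSk.trans hp)) q2
      (hq2q.trans (hq _)) (hq2sw.trans (hsw1 (k + 1))) z hz
    exact (h1.trans (hn2 k (S k))).trans_le hxh
  · intro i k u t hu ht hyt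
    obtain ⟨u', hu'M, hu'⟩ := hMq.join _ (hdM i) xh hxM (h.mono' hq2q (hq2 i))
      (h.mono' hq2q hq3)
    have huM : u ∈ M := by rw [hu.unique h hq2p hu']; exact hu'M
    obtain ⟨t', ht'M, ht'⟩ := hMq.join u huM (a k) (haM k) (hu.field h hq2p)
      (h.mono' hq2r5 (haR5 k))
    have htM : t ∈ M := by rw [ht.unique h hq2p ht']; exact ht'M
    exact hyM (hMq.sub t htM y q2 le_rfl hyt)

end Pool.Agent.EM
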