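import Pool.Agent.EM.Base

set_option autoImplicit false

/-!
# EM/TyA (difficulty 3): facts on types, first part

All statements of the form `∀ᶠ δ` are combined with `filter_upwards`; to use one of them use that `U`
is not `⊥` (`Filter.Eventually.exists`).

* `f_le_root`: `N.le_res`.  `supp_root`: `N.supp_res`.  `root_le`: `N.res_mono` at a good `δ`.
* `Ty.mk_of`: `δ ↦ N.res δ (g δ)` is supported below `δ`, so it is constant a.e. by `N.pd`; this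
  is the root.  `d` is taken from `π`; `R (d δ) (d δ) (g δ)` by `h.mono`.
* `meet_pt`: for almost all `δ` we have `N.supp δ s` (`N.supp_ex`, `N.supp_mono`, `hU.ioi`) and
  `N.res δ (π.f δ) = π.root ≥ s`; use `N.amal`.
* `Ty.meet`: choose for almost all `δ` the `r` of `N.amal δ (π.f δ) s` (the greatest lower bound of
  `π.f δ` and `s`).  If `π'' ≤ π` and `π''.root ≤ s` then a.e. `π''.f δ ≤ π''.root ≤ s`, and
  `π''.f δ ≤ π.f δ`.
-/

namespace Pool.Agent.EM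

open Cardinal Set Filter

variable {K : Type} [LinearOrder K] {U : Ultrafilter K} {P : Type} [PartialOrder P]
  {N : Nice U P} {R : K → K → P → Prop}

theorem Ty.f_le_root (π : Ty N R) : ∀ᶠ δ in (U : Filter K), π.f δ ≤ π.root := by
  filter_upwards [π.hroot] with δ h1
  rw [← h1]
  exact N.le_res δ (π.f δ)

theorem ev_supp (hU : NM U) (s : P) : ∀ᶠ δ in (U : Filter K), N.supp δ s := by
  obtain ⟨x, hx⟩ := N.supp_ex s
  filter_upwards [hU.ioi x] with δ h1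
  exact N.supp_mono h1.le hx

theorem Ty.supp_root (π : Ty N R) : ∀ᶠ δ in (U : Filter K), N.supp δ π.root := by
  filter_upwards [π.hroot] with δ h1
  rw [← h1]
  exact N.supp_res δ (π.f δ)

theorem Ty.root_le {π' π : Ty N R} (h : π' ≤ π) : π'.root ≤ π.root := by
  rw [Ty.le_def] at h
  obtain ⟨δ, h1, h2, h3⟩ := (h.and (π'.hroot.and π.hroot)).exists
  rw [← h2, ← h3]
  exact N.res_mono δ h1.1

theorem Ty.mk_of {p₀ : P} (h : Lad3 R p₀) (π : Ty N R) (g : K → P)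
    (hg : ∀ᶠ δ in (U : Filter K), g δ ≤ π.f δ) :
    ∃ π' : Ty N R, π' ≤ π ∧ (∀ᶠ δ in (U : Filter K), π'.f δ = g δ) ∧
      ∀ᶠ δ in (U : Filter K), π'.root = N.res δ (g δ) := by
  obtain ⟨t, ht⟩ := N.pd (fun δ => N.res δ (g δ))
    (Filter.Eventually.of_forall fun δ => N.supp_res δ (g δ))
  refine ⟨⟨g, π.d, t, ht, ?_⟩, ?_, ?_, ?_⟩
  · filter_upwards [π.hd, hg] with δ h1 h2
    exact ⟨h1.1, h.mono _ _ _ _ h2 h1.2⟩
  · rw [Ty.le_def]
    filter_upwards [hg] with δ h2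
    exact ⟨h2, rfl⟩
  · exact Filter.Eventually.of_forall fun δ => rfl
  · filter_upwards [ht] with δ h2
    exact h2.symm

theorem meet_pt (hU : NM U) (π : Ty N R) {s : P} (hs : s ≤ π.root) :
    ∀ᶠ δ in (U : Filter K), ∃ r, r ≤ π.f δ ∧ r ≤ s ∧ N.res δ r = s ∧
      ∀ s', s' ≤ π.f δ → s' ≤ s → s' ≤ r := by
  filter_upwards [ev_supp (N := N) hU s, π.hroot] with δ h1 h2
  obtain ⟨r, h3, h4, h5, h6, -⟩ := N.amal δ (π.f δ) s h1 (by rw [h2]; exact hs)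
  exact ⟨r, h3, h4, h6, fun s' h7 h8 => h5 s' h7 h8⟩

theorem Ty.meet {p₀ : P} (h : Lad3 R p₀) (hU : NM U) (π : Ty N R) {s : P} (hs : s ≤ π.root) :
    ∃ π' : Ty N R, π' ≤ π ∧ π'.root = s ∧
      ∀ π'' : Ty N R, π'' ≤ π → π''.root ≤ s → π'' ≤ π' := by
  classical
  have hm := meet_pt hU π hs
  obtain ⟨g, hg⟩ : ∃ g : K → P, ∀ᶠ δ in (U : Filter K), g δ ≤ π.f δ ∧ g δ ≤ s ∧ N.res δ (g δ) = s ∧
      ∀ s', s' ≤ π.f δ → s' ≤ s → s' ≤ g δ := by
    refine ⟨fun δ => if hd : ∃ r, r ≤ π.f δ ∧ r ≤ s ∧ N.res δ r = s ∧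
      ∀ s', s' ≤ π.f δ → s' ≤ s → s' ≤ r then hd.choose else s, ?_⟩
    filter_upwards [hm] with δ h1
    simp only [dif_pos h1]
    exact h1.choose_spec
  obtain ⟨π', h1, h2, h3⟩ := Ty.mk_of h π g (hg.mono fun δ h1 => h1.1)
  refine ⟨π', h1, ?_, ?_⟩
  · obtain ⟨δ, h4, h5⟩ := (h3.and hg).exists
    rw [h4, h5.2.2.1]
  · intro π'' h4 h5
    rw [Ty.le_def] at h4 h1 ⊢
    filter_upwards [h4, h1, h2, hg, π''.f_le_root] with δ h6 h7 h8 h9 h10
    refine ⟨?_, h6.2.trans h7.2.symm⟩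
    rw [h8]
    exact h9.2.2.2 _ h6.1 (h10.trans h5)

end Pool.Agent.EM
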